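import Pool.Agent.helper14.NS.Q150b.PN10

/-!
Generated: certificates.
-/

namespace Pool.Agent.helper14.NS.Q150b

open Pool.Agent.helper31.IA (Z)
open Pool.Agent.helper31.IX (Op XOps runX Cov CovD cov_split covD_split)
open Pool.Agent.helper31.IC (TD)
open Pool.Agent.helper63.RG (reloc)
open Pool.Agent.helper63.NF hiding TD
open Pool.Agent.helper4.NS
open Pool.Agent.helper14.CF (xE covD_E)
open Pool.Agent.helper14.NR (share)

mutual
theorem A10_c0_t5 : CovD 1 gA10 [(6414139392, 917504000), (343597383680, 68719476736), (274877906944, 274877906944)] :=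
  covD_E kA10_eq (.n 0 (.n 2 (.n 2 (.n 2 (.l 0) (.l 0)) (.n 2 (.l 0) (.l 0))) (.n 2 (.n 2 (.l 0) (.l 0)) (.n 2 (.l 0) (.l 0)))) (.n 2 (.n 2 (.n 2 (.l 0) (.l 0)) (.n 2 (.l 0) (.l 0))) (.n 2 (.n 2 (.l 0) (.l 0)) (.n 1 (.l 0) (.l 0)))))
    [(6414139392, 917504000), (343597383680, 68719476736), (274877906944, 274877906944)] rfl (by decide +kernel)
theorem A10_c0_t6 : CovD 1 gA10 [(6414139392, 917504000), (343597383680, 68719476736), (824633720832, 274877906944)] :=
  covD_E kA10_eq (.n 2 (.n 0 (.n 1 (.n 2 (.l 0) (.l 0)) (.n 2 (.l 0) (.l 0))) (.n 1 (.n 2 (.l 0) (.l 0)) (.n 2 (.l 0) (.l 0)))) (.n 2 (.n 0 (.n 1 (.l 0) (.l 0)) (.n 1 (.l 0) (.l 0))) (.n 2 (.n 0 (.l 0) (.l 0)) (.l 0))))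
    [(6414139392, 917504000), (343597383680, 68719476736), (824633720832, 274877906944)] rfl (by decide +kernel)
end

mutual
theorem A10_c0_t7 : CovD 1 gA10 [(6414139392, 917504000), (343597383680, 68719476736), (1649267441664, 549755813888)] :=
  covD_E kA10_eq (.n 2 (.n 1 (.n 2 (.n 2 (.n 0 (.l 0) (.l 0)) (.l 0)) (.n 2 (.l 0) (.l 0))) (.n 2 (.n 2 (.l 0) (.l 0)) (.n 2 (.l 0) (.l 0)))) (.n 2 (.n 2 (.l 0) (.l 0)) (.n 0 (.l 0) (.l 0))))
    [(6414139392, 917504000), (343597383680, 68719476736), (1649267441664, 549755813888)] rfl (by decide +kernel)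
theorem A10_c0_t10 : CovD 1 gA10 [(5955387392, 458752000), (343597383680, 68719476736), (2748779069440, 549755813888)] :=
  covD_E kA10_eq (.n 2 (.n 2 (.l 0) (.l 0)) (.n 2 (.l 0) (.l 0)))
    [(5955387392, 458752000), (343597383680, 68719476736), (2748779069440, 549755813888)] rfl (by decide +kernel)
end

mutual
theorem A10_c0_t11 : CovD 1 gA10 [(5955387392, 458752000), (343597383680, 68719476736), (3848290697216, 549755813888)] :=
  covD_E kA10_eq (.n 2 (.n 2 (.l 0) (.l 0)) (.n 0 (.n 2 (.l 0) (.n 2 (.l 0) (.n 2 (.l 0) (.n 0 (.l 1) (.l 1))))) (.n 2 (.l 0) (.n 2 (.l 0) (.n 2 (.l 0) (.n 0 (.l 1) (.n 0 (.l 1) (.l 1))))))))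
    [(5955387392, 458752000), (343597383680, 68719476736), (3848290697216, 549755813888)] rfl (by decide +kernel)
theorem A10_c0_t12 : CovD 1 gA10 [(6872891392, 458752000), (343597383680, 68719476736), (3298534883328, 1099511627776)] :=
  covD_E kA10_eq (.n 2 (.n 2 (.n 2 (.l 0) (.l 0)) (.n 2 (.l 0) (.l 0))) (.n 2 (.n 2 (.l 0) (.l 0)) (.n 2 (.l 0) (.n 2 (.l 0) (.n 2 (.l 0) (.n 0 (.n 2 (.l 0) (.l 1)) (.l 0)))))))
    [(6872891392, 458752000), (343597383680, 68719476736), (3298534883328, 1099511627776)] rfl (by decide +kernel)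
end

mutual
theorem A10_c0_t16 : CovD 1 gA10 [(5955387392, 458752000), (481036337152, 68719476736), (549755813888, 549755813888)] :=
  covD_E kA10_eq (.n 2 (.n 2 (.n 0 (.n 2 (.l 0) (.l 0)) (.n 2 (.l 0) (.l 0))) (.n 2 (.n 0 (.l 0) (.l 0)) (.l 0))) (.n 2 (.n 2 (.l 0) (.l 0)) (.n 2 (.l 0) (.l 0))))
    [(5955387392, 458752000), (481036337152, 68719476736), (549755813888, 549755813888)] rfl (by decide +kernel)
theorem A10_c0_t17 : CovD 1 gA10 [(6872891392, 458752000), (481036337152, 68719476736), (549755813888, 549755813888)] :=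
  covD_E kA10_eq (.n 2 (.n 2 (.n 0 (.n 2 (.l 0) (.l 0)) (.n 2 (.l 0) (.l 0))) (.n 2 (.n 0 (.l 0) (.l 0)) (.l 0))) (.n 2 (.n 2 (.l 0) (.l 0)) (.n 2 (.l 0) (.l 0))))
    [(6872891392, 458752000), (481036337152, 68719476736), (549755813888, 549755813888)] rfl (by decide +kernel)
end

mutual
theorem A10_c0_t18 : CovD 1 gA10 [(6414139392, 917504000), (481036337152, 68719476736), (1649267441664, 549755813888)] :=
  covD_E kA10_eq (.n 2 (.n 0 (.n 2 (.n 2 (.l 0) (.l 0)) (.n 2 (.l 0) (.l 0))) (.n 2 (.n 2 (.l 0) (.l 0)) (.n 1 (.l 0) (.l 0)))) (.n 2 (.n 2 (.n 0 (.l 0) (.l 0)) (.l 0)) (.n 0 (.l 0) (.l 0))))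
    [(6414139392, 917504000), (481036337152, 68719476736), (1649267441664, 549755813888)] rfl (by decide +kernel)
theorem A10_c0_t20 : CovD 1 gA10 [(5955387392, 458752000), (481036337152, 68719476736), (3298534883328, 1099511627776)] :=
  covD_E kA10_eq (.n 2 (.n 2 (.n 2 (.l 0) (.l 0)) (.n 2 (.l 0) (.l 0))) (.n 2 (.n 2 (.l 0) (.l 0)) (.n 0 (.n 2 (.l 0) (.n 2 (.l 0) (.n 2 (.l 0) (.n 0 (.l 1) (.l 1))))) (.n 2 (.l 0) (.n 2 (.l 0) (.n 2 (.l 0) (.n 2 (.l 0) (.l 1))))))))
    [(5955387392, 458752000), (481036337152, 68719476736), (3298534883328, 1099511627776)] rfl (by decide +kernel)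
end

mutual
theorem A10_c0_t21 : CovD 1 gA10 [(6872891392, 458752000), (481036337152, 68719476736), (3298534883328, 1099511627776)] :=
  covD_E kA10_eq (.n 2 (.n 2 (.n 2 (.l 0) (.l 0)) (.n 2 (.l 0) (.l 0))) (.n 2 (.n 2 (.l 0) (.l 0)) (.n 2 (.l 0) (.n 2 (.l 0) (.n 0 (.n 0 (.l 0) (.l 0)) (.l 0))))))
    [(6872891392, 458752000), (481036337152, 68719476736), (3298534883328, 1099511627776)] rfl (by decide +kernel)
theorem A10_c0_t22 : CovD 1 gA10 [(6414139392, 917504000), (412316860416, 137438953472), (6597069766656, 2199023255552)] :=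
  covD_E kA10_eq (.n 2 (.n 2 (.n 2 (.n 2 (.n 0 (.n 0 (.l 1) (.l 1)) (.n 0 (.n 0 (.l 1) (.l 1)) (.n 1 (.l 1) (.l 1)))) (.l 1)) (.l 1)) (.l 1)) (.n 2 (.l 1) (.l 1)))
    [(6414139392, 917504000), (412316860416, 137438953472), (6597069766656, 2199023255552)] rfl (by decide +kernel)
end

mutual
theorem B10_c0_t2 : CovD 1 gB10 [(5955387392, 458752000), (412316860416, 137438953472), (34359738368, 34359738368)] :=
  covD_E kB10_eq (.n 2 (.n 2 (.n 2 (.n 2 (.l 1) (.l 1)) (.n 2 (.l 1) (.l 1))) (.n 0 (.n 2 (.l 1) (.l 1)) (.n 2 (.l 1) (.l 1)))) (.n 2 (.n 2 (.l 1) (.l 1)) (.n 2 (.l 1) (.l 1))))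
    [(5955387392, 458752000), (412316860416, 137438953472), (34359738368, 34359738368)] rfl (by decide +kernel)
theorem B10_c0_t3 : CovD 1 gB10 [(6872891392, 458752000), (412316860416, 137438953472), (34359738368, 34359738368)] :=
  covD_E kB10_eq (.n 2 (.n 2 (.n 0 (.n 2 (.l 1) (.l 1)) (.n 2 (.l 1) (.l 1))) (.n 2 (.l 1) (.l 1))) (.n 2 (.n 2 (.l 1) (.l 1)) (.n 0 (.l 1) (.l 1))))
    [(6872891392, 458752000), (412316860416, 137438953472), (34359738368, 34359738368)] rfl (by decide +kernel)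
end

mutual
theorem B10_c0_t4 : CovD 1 gB10 [(6414139392, 917504000), (412316860416, 137438953472), (103079215104, 34359738368)] :=
  covD_E kB10_eq (.n 2 (.n 0 (.n 2 (.l 1) (.l 1)) (.n 2 (.l 1) (.l 1))) (.n 2 (.l 1) (.l 1)))
    [(6414139392, 917504000), (412316860416, 137438953472), (103079215104, 34359738368)] rfl (by decide +kernel)
theorem D10_c0 : CovD 1 gD10 [(6414139392, 917504000), (412316860416, 137438953472), (863610339328, 863610339328)] :=
  covD_E kD10_eq (.n 2 (.n 2 (.n 2 (.n 2 (.l 0) (.l 0)) (.n 2 (.l 0) (.l 0))) (.n 2 (.n 2 (.l 0) (.l 0)) (.n 2 (.l 0) (.l 0)))) (.n 2 (.n 2 (.n 2 (.l 0) (.l 0)) (.n 2 (.l 0) (.l 0))) (.n 2 (.n 2 (.l 0) (.l 0)) (.n 2 (.l 0) (.l 0)))))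
    [(6414139392, 917504000), (412316860416, 137438953472), (863610339328, 863610339328)] rfl (by decide +kernel)
end

mutual
theorem E10_c0_t2 : CovD 1 gE10 [(6414139392, 917504000), (412316860416, 137438953472), (215902584832, 215902584832)] :=
  covD_E kE10_eq (.n 2 (.l 1) (.n 2 (.n 0 (.n 0 (.n 2 (.l 1) (.n 2 (.l 1) (.n 1 (.l 0) (.l 0)))) (.l 1)) (.l 1)) (.n 0 (.n 2 (.n 1 (.l 0) (.n 0 (.l 0) (.l 0))) (.l 0)) (.n 1 (.n 2 (.n 0 (.l 0) (.l 1)) (.l 0)) (.n 2 (.l 1) (.l 0))))))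
    [(6414139392, 917504000), (412316860416, 137438953472), (215902584832, 215902584832)] rfl (by decide +kernel)
theorem E10_c0_t3 : CovD 1 gE10 [(6414139392, 917504000), (412316860416, 137438953472), (647707754496, 215902584832)] :=
  covD_E kE10_eq (.n 2 (.n 2 (.n 0 (.l 0) (.l 0)) (.l 0)) (.n 2 (.l 0) (.l 0)))
    [(6414139392, 917504000), (412316860416, 137438953472), (647707754496, 215902584832)] rfl (by decide +kernel)
end

theorem E10_c0_t4 : CovD 1 gE10 [(6414139392, 917504000), (412316860416, 137438953472), (1295415508992, 431805169664)] :=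
  covD_E kE10_eq (.n 2 (.n 2 (.n 2 (.l 0) (.l 0)) (.n 2 (.l 0) (.l 0))) (.n 2 (.n 2 (.l 0) (.l 0)) (.n 2 (.l 0) (.l 0))))
    [(6414139392, 917504000), (412316860416, 137438953472), (1295415508992, 431805169664)] rfl (by decide +kernel)

theorem A10_c0_t4 : CovD 1 gA10 [(6414139392, 917504000), (343597383680, 68719476736), (549755813888, 549755813888)] :=
  covD_split 2 (by decide +kernel) A10_c0_t5 A10_c0_t6

theorem A10_c0_t3 : CovD 1 gA10 [(6414139392, 917504000), (343597383680, 68719476736), (1099511627776, 1099511627776)] :=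
  covD_split 2 (by decide +kernel) A10_c0_t4 A10_c0_t7

theorem A10_c0_t9 : CovD 1 gA10 [(5955387392, 458752000), (343597383680, 68719476736), (3298534883328, 1099511627776)] :=
  covD_split 2 (by decide +kernel) A10_c0_t10 A10_c0_t11

theorem A10_c0_t8 : CovD 1 gA10 [(6414139392, 917504000), (343597383680, 68719476736), (3298534883328, 1099511627776)] :=
  covD_split 0 (by decide +kernel) A10_c0_t9 A10_c0_t12

theorem A10_c0_t2 : CovD 1 gA10 [(6414139392, 917504000), (343597383680, 68719476736), (2199023255552, 2199023255552)] :=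
  covD_split 2 (by decide +kernel) A10_c0_t3 A10_c0_t8

theorem A10_c0_t15 : CovD 1 gA10 [(6414139392, 917504000), (481036337152, 68719476736), (549755813888, 549755813888)] :=
  covD_split 0 (by decide +kernel) A10_c0_t16 A10_c0_t17

theorem A10_c0_t14 : CovD 1 gA10 [(6414139392, 917504000), (481036337152, 68719476736), (1099511627776, 1099511627776)] :=
  covD_split 2 (by decide +kernel) A10_c0_t15 A10_c0_t18

theorem A10_c0_t19 : CovD 1 gA10 [(6414139392, 917504000), (481036337152, 68719476736), (3298534883328, 1099511627776)] :=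
  covD_split 0 (by decide +kernel) A10_c0_t20 A10_c0_t21

theorem A10_c0_t13 : CovD 1 gA10 [(6414139392, 917504000), (481036337152, 68719476736), (2199023255552, 2199023255552)] :=
  covD_split 2 (by decide +kernel) A10_c0_t14 A10_c0_t19

theorem A10_c0_t1 : CovD 1 gA10 [(6414139392, 917504000), (412316860416, 137438953472), (2199023255552, 2199023255552)] :=
  covD_split 1 (by decide +kernel) A10_c0_t2 A10_c0_t13

theorem A10_c0 : CovD 1 gA10 [(6414139392, 917504000), (412316860416, 137438953472), (4398046511104, 4398046511104)] :=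
  covD_split 2 (by decide +kernel) A10_c0_t1 A10_c0_t22

theorem B10_c0_t1 : CovD 1 gB10 [(6414139392, 917504000), (412316860416, 137438953472), (34359738368, 34359738368)] :=
  covD_split 0 (by decide +kernel) B10_c0_t2 B10_c0_t3

theorem B10_c0 : CovD 1 gB10 [(6414139392, 917504000), (412316860416, 137438953472), (68719476736, 68719476736)] :=
  covD_split 2 (by decide +kernel) B10_c0_t1 B10_c0_t4

theorem E10_c0_t1 : CovD 1 gE10 [(6414139392, 917504000), (412316860416, 137438953472), (431805169664, 431805169664)] :=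
  covD_split 2 (by decide +kernel) E10_c0_t2 E10_c0_t3

theorem E10_c0 : CovD 1 gE10 [(6414139392, 917504000), (412316860416, 137438953472), (863610339328, 863610339328)] :=
  covD_split 2 (by decide +kernel) E10_c0_t1 E10_c0_t4

end Pool.Agent.helper14.NS.Q150b
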