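import Pool.Agent.helper14.NS.Q150b.PN12

/-!
Generated: certificates.
-/

namespace Pool.Agent.helper14.NS.Q150b

open Pool.Agent.helper31.IA (Z)
open Pool.Agent.helper31.IX (Op XOps runX Cov CovD cov_split covD_split)
open Pool.Agent.helper31.IC (TD)
open Pool.Agent.helper63.RG (reloc)
open Pool.Agent.helper63.NF hiding TD
open Pool.Agent.helper4.NS
open Pool.Agent.helper14.CF (xE covD_E)
open Pool.Agent.helper14.NR (share)

mutual
theorem A12_c0_t5 : CovD 1 gA12 [(5955387392, 458752000), (343597383680, 68719476736), (549755813888, 549755813888)] :=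
  covD_E kA12_eq (.n 2 (.n 2 (.n 2 (.n 2 (.l 0) (.l 0)) (.n 2 (.l 0) (.l 0))) (.n 2 (.n 2 (.l 0) (.l 0)) (.n 2 (.l 0) (.l 0)))) (.n 1 (.n 2 (.n 2 (.l 0) (.l 0)) (.n 2 (.l 0) (.l 0))) (.n 2 (.n 2 (.l 0) (.l 0)) (.n 2 (.l 0) (.l 0)))))
    [(5955387392, 458752000), (343597383680, 68719476736), (549755813888, 549755813888)] rfl (by decide +kernel)
theorem A12_c0_t6 : CovD 1 gA12 [(6872891392, 458752000), (343597383680, 68719476736), (549755813888, 549755813888)] :=
  covD_E kA12_eq (.n 2 (.n 2 (.n 2 (.n 2 (.l 0) (.l 0)) (.n 2 (.l 0) (.l 0))) (.n 2 (.n 2 (.l 0) (.l 0)) (.n 2 (.l 0) (.l 0)))) (.n 1 (.n 2 (.n 2 (.l 0) (.l 0)) (.n 2 (.l 0) (.l 0))) (.n 2 (.n 2 (.l 0) (.l 0)) (.n 2 (.l 0) (.l 0)))))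
    [(6872891392, 458752000), (343597383680, 68719476736), (549755813888, 549755813888)] rfl (by decide +kernel)
end

mutual
theorem A12_c0_t7 : CovD 1 gA12 [(6414139392, 917504000), (343597383680, 68719476736), (1649267441664, 549755813888)] :=
  covD_E kA12_eq (.n 2 (.n 2 (.n 2 (.n 2 (.l 0) (.l 0)) (.n 1 (.l 0) (.l 0))) (.n 0 (.n 1 (.l 0) (.l 0)) (.n 1 (.l 0) (.l 0)))) (.n 2 (.n 2 (.l 0) (.l 0)) (.n 0 (.l 0) (.l 0))))
    [(6414139392, 917504000), (343597383680, 68719476736), (1649267441664, 549755813888)] rfl (by decide +kernel)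
theorem A12_c0_t9 : CovD 1 gA12 [(5955387392, 458752000), (343597383680, 68719476736), (3298534883328, 1099511627776)] :=
  covD_E kA12_eq (.n 2 (.n 2 (.n 2 (.l 0) (.l 0)) (.n 2 (.l 0) (.l 0))) (.n 2 (.n 2 (.l 0) (.l 0)) (.n 2 (.l 0) (.n 0 (.l 0) (.l 0)))))
    [(5955387392, 458752000), (343597383680, 68719476736), (3298534883328, 1099511627776)] rfl (by decide +kernel)
end

mutual
theorem A12_c0_t10 : CovD 1 gA12 [(6872891392, 458752000), (343597383680, 68719476736), (3298534883328, 1099511627776)] :=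
  covD_E kA12_eq (.n 2 (.n 2 (.n 2 (.l 0) (.l 0)) (.n 2 (.l 0) (.l 0))) (.n 2 (.n 2 (.l 0) (.l 0)) (.n 2 (.l 0) (.l 0))))
    [(6872891392, 458752000), (343597383680, 68719476736), (3298534883328, 1099511627776)] rfl (by decide +kernel)
theorem A12_c0_t14 : CovD 1 gA12 [(5955387392, 458752000), (481036337152, 68719476736), (549755813888, 549755813888)] :=
  covD_E kA12_eq (.n 2 (.n 2 (.n 2 (.n 2 (.l 0) (.l 0)) (.n 2 (.l 0) (.l 0))) (.n 2 (.n 2 (.l 0) (.l 0)) (.n 2 (.l 0) (.l 0)))) (.n 2 (.n 0 (.n 2 (.l 0) (.l 0)) (.n 2 (.l 0) (.l 0))) (.n 2 (.l 0) (.l 0))))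
    [(5955387392, 458752000), (481036337152, 68719476736), (549755813888, 549755813888)] rfl (by decide +kernel)
end

mutual
theorem A12_c0_t15 : CovD 1 gA12 [(6872891392, 458752000), (481036337152, 68719476736), (549755813888, 549755813888)] :=
  covD_E kA12_eq (.n 2 (.n 2 (.n 2 (.n 2 (.l 0) (.l 0)) (.n 2 (.l 0) (.l 0))) (.n 2 (.n 2 (.l 0) (.l 0)) (.n 0 (.l 0) (.l 0)))) (.n 2 (.n 2 (.n 0 (.l 0) (.l 0)) (.l 0)) (.n 2 (.l 0) (.l 0))))
    [(6872891392, 458752000), (481036337152, 68719476736), (549755813888, 549755813888)] rfl (by decide +kernel)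
theorem A12_c0_t16 : CovD 1 gA12 [(6414139392, 917504000), (481036337152, 68719476736), (1649267441664, 549755813888)] :=
  covD_E kA12_eq (.n 2 (.n 0 (.n 2 (.n 2 (.l 0) (.l 0)) (.n 1 (.l 0) (.l 0))) (.n 2 (.n 2 (.l 0) (.l 0)) (.n 1 (.l 0) (.l 0)))) (.n 2 (.n 2 (.n 0 (.l 0) (.l 0)) (.l 0)) (.n 0 (.l 0) (.l 0))))
    [(6414139392, 917504000), (481036337152, 68719476736), (1649267441664, 549755813888)] rfl (by decide +kernel)
end

mutual
theorem A12_c0_t18 : CovD 1 gA12 [(5955387392, 458752000), (481036337152, 68719476736), (3298534883328, 1099511627776)] :=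
  covD_E kA12_eq (.n 2 (.n 2 (.n 2 (.l 0) (.l 0)) (.n 2 (.l 0) (.l 0))) (.n 2 (.n 2 (.l 0) (.l 0)) (.n 2 (.l 0) (.n 0 (.l 0) (.l 0)))))
    [(5955387392, 458752000), (481036337152, 68719476736), (3298534883328, 1099511627776)] rfl (by decide +kernel)
theorem A12_c0_t19 : CovD 1 gA12 [(6872891392, 458752000), (481036337152, 68719476736), (3298534883328, 1099511627776)] :=
  covD_E kA12_eq (.n 2 (.n 2 (.n 2 (.l 0) (.l 0)) (.n 2 (.l 0) (.l 0))) (.n 2 (.n 2 (.l 0) (.l 0)) (.n 2 (.l 0) (.l 0))))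
    [(6872891392, 458752000), (481036337152, 68719476736), (3298534883328, 1099511627776)] rfl (by decide +kernel)
end

mutual
theorem A12_c0_t25 : CovD 1 gA12 [(5955387392, 458752000), (343597383680, 68719476736), (4672924418048, 274877906944)] :=
  covD_E kA12_eq (.n 0 (.n 2 (.n 2 (.l 0) (.n 2 (.l 0) (.n 2 (.l 0) (.n 0 (.l 1) (.l 1))))) (.l 1)) (.n 0 (.n 2 (.l 0) (.l 1)) (.n 2 (.l 0) (.l 1))))
    [(5955387392, 458752000), (343597383680, 68719476736), (4672924418048, 274877906944)] rfl (by decide +kernel)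
theorem A12_c0_t26 : CovD 1 gA12 [(5955387392, 458752000), (481036337152, 68719476736), (4672924418048, 274877906944)] :=
  covD_E kA12_eq (.n 2 (.n 2 (.l 0) (.n 0 (.n 0 (.l 0) (.l 0)) (.l 0))) (.n 0 (.l 1) (.n 0 (.l 1) (.l 1))))
    [(5955387392, 458752000), (481036337152, 68719476736), (4672924418048, 274877906944)] rfl (by decide +kernel)
end

mutual
theorem A12_c0_t27 : CovD 1 gA12 [(5955387392, 458752000), (412316860416, 137438953472), (5222680231936, 274877906944)] :=
  covD_E kA12_eq (.l 1)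
    [(5955387392, 458752000), (412316860416, 137438953472), (5222680231936, 274877906944)] rfl (by decide +kernel)
theorem A12_c0_t30 : CovD 1 gA12 [(6872891392, 458752000), (412316860416, 137438953472), (4535485464576, 137438953472)] :=
  covD_E kA12_eq (.n 0 (.n 1 (.n 0 (.l 0) (.l 0)) (.l 0)) (.n 1 (.l 0) (.l 0)))
    [(6872891392, 458752000), (412316860416, 137438953472), (4535485464576, 137438953472)] rfl (by decide +kernel)
end

mutual
theorem A12_c0_t31 : CovD 1 gA12 [(6872891392, 458752000), (412316860416, 137438953472), (4810363371520, 137438953472)] :=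
  covD_E kA12_eq (.n 2 (.n 0 (.n 0 (.n 1 (.l 1) (.n 0 (.l 1) (.l 1))) (.n 1 (.n 0 (.l 1) (.l 1)) (.n 1 (.l 1) (.n 0 (.l 1) (.l 1))))) (.n 0 (.n 2 (.n 1 (.n 1 (.l 1) (.l 1)) (.l 0)) (.l 1)) (.n 2 (.n 1 (.l 0) (.l 0)) (.l 1)))) (.l 1))
    [(6872891392, 458752000), (412316860416, 137438953472), (4810363371520, 137438953472)] rfl (by decide +kernel)
theorem A12_c0_t32 : CovD 1 gA12 [(6872891392, 458752000), (412316860416, 137438953472), (5222680231936, 274877906944)] :=
  covD_E kA12_eq (.l 1)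
    [(6872891392, 458752000), (412316860416, 137438953472), (5222680231936, 274877906944)] rfl (by decide +kernel)
end

mutual
theorem A12_c0_t33 : CovD 1 gA12 [(6414139392, 917504000), (412316860416, 137438953472), (6047313952768, 549755813888)] :=
  covD_E kA12_eq (.l 1)
    [(6414139392, 917504000), (412316860416, 137438953472), (6047313952768, 549755813888)] rfl (by decide +kernel)
theorem A12_c0_t34 : CovD 1 gA12 [(6414139392, 917504000), (412316860416, 137438953472), (7696581394432, 1099511627776)] :=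
  covD_E kA12_eq (.n 2 (.l 1) (.l 1))
    [(6414139392, 917504000), (412316860416, 137438953472), (7696581394432, 1099511627776)] rfl (by decide +kernel)
end

mutual
theorem B12_c0_t2 : CovD 1 gB12 [(5955387392, 458752000), (412316860416, 137438953472), (34359738368, 34359738368)] :=
  covD_E kB12_eq (.n 2 (.n 2 (.n 0 (.n 2 (.l 1) (.l 1)) (.n 2 (.l 1) (.l 1))) (.n 2 (.l 1) (.l 1))) (.n 2 (.n 2 (.l 1) (.l 1)) (.n 0 (.l 1) (.l 1))))
    [(5955387392, 458752000), (412316860416, 137438953472), (34359738368, 34359738368)] rfl (by decide +kernel)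
theorem B12_c0_t3 : CovD 1 gB12 [(6872891392, 458752000), (412316860416, 137438953472), (34359738368, 34359738368)] :=
  covD_E kB12_eq (.n 2 (.n 2 (.n 2 (.l 1) (.l 1)) (.n 2 (.l 1) (.l 1))) (.n 2 (.n 2 (.l 1) (.l 1)) (.l 1)))
    [(6872891392, 458752000), (412316860416, 137438953472), (34359738368, 34359738368)] rfl (by decide +kernel)
end

mutual
theorem B12_c0_t4 : CovD 1 gB12 [(6414139392, 917504000), (412316860416, 137438953472), (103079215104, 34359738368)] :=
  covD_E kB12_eq (.n 2 (.n 0 (.n 2 (.l 1) (.l 1)) (.n 2 (.l 1) (.l 1))) (.n 2 (.l 1) (.l 1)))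
    [(6414139392, 917504000), (412316860416, 137438953472), (103079215104, 34359738368)] rfl (by decide +kernel)
theorem D12_c0 : CovD 1 gD12 [(6414139392, 917504000), (412316860416, 137438953472), (863610339328, 863610339328)] :=
  covD_E kD12_eq (.n 2 (.n 2 (.n 2 (.n 2 (.l 0) (.l 0)) (.n 2 (.l 0) (.l 0))) (.n 2 (.n 2 (.l 0) (.l 0)) (.n 2 (.l 0) (.l 0)))) (.n 2 (.n 2 (.n 2 (.l 0) (.l 0)) (.n 2 (.l 0) (.l 0))) (.n 2 (.n 2 (.l 0) (.l 0)) (.n 2 (.l 0) (.l 0)))))
    [(6414139392, 917504000), (412316860416, 137438953472), (863610339328, 863610339328)] rfl (by decide +kernel)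
end

mutual
theorem E12_c0_t2 : CovD 1 gE12 [(6414139392, 917504000), (412316860416, 137438953472), (215902584832, 215902584832)] :=
  covD_E kE12_eq (.n 2 (.l 1) (.n 2 (.l 1) (.n 0 (.n 0 (.n 2 (.l 1) (.n 1 (.l 0) (.n 2 (.l 1) (.l 0)))) (.l 1)) (.l 1))))
    [(6414139392, 917504000), (412316860416, 137438953472), (215902584832, 215902584832)] rfl (by decide +kernel)
theorem E12_c0_t3 : CovD 1 gE12 [(6414139392, 917504000), (412316860416, 137438953472), (647707754496, 215902584832)] :=
  covD_E kE12_eq (.n 2 (.n 2 (.n 0 (.n 1 (.l 0) (.n 2 (.l 0) (.l 0))) (.n 1 (.n 2 (.n 0 (.l 0) (.l 1)) (.l 0)) (.n 2 (.l 1) (.l 0)))) (.n 0 (.l 0) (.n 1 (.l 0) (.l 0)))) (.n 2 (.n 0 (.l 0) (.l 0)) (.l 0)))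
    [(6414139392, 917504000), (412316860416, 137438953472), (647707754496, 215902584832)] rfl (by decide +kernel)
end

theorem E12_c0_t4 : CovD 1 gE12 [(6414139392, 917504000), (412316860416, 137438953472), (1295415508992, 431805169664)] :=
  covD_E kE12_eq (.n 2 (.n 2 (.n 2 (.l 0) (.l 0)) (.n 2 (.l 0) (.l 0))) (.n 2 (.n 2 (.l 0) (.l 0)) (.n 2 (.l 0) (.l 0))))
    [(6414139392, 917504000), (412316860416, 137438953472), (1295415508992, 431805169664)] rfl (by decide +kernel)

theorem A12_c0_t4 : CovD 1 gA12 [(6414139392, 917504000), (343597383680, 68719476736), (549755813888, 549755813888)] :=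
  covD_split 0 (by decide +kernel) A12_c0_t5 A12_c0_t6

theorem A12_c0_t3 : CovD 1 gA12 [(6414139392, 917504000), (343597383680, 68719476736), (1099511627776, 1099511627776)] :=
  covD_split 2 (by decide +kernel) A12_c0_t4 A12_c0_t7

theorem A12_c0_t8 : CovD 1 gA12 [(6414139392, 917504000), (343597383680, 68719476736), (3298534883328, 1099511627776)] :=
  covD_split 0 (by decide +kernel) A12_c0_t9 A12_c0_t10

theorem A12_c0_t2 : CovD 1 gA12 [(6414139392, 917504000), (343597383680, 68719476736), (2199023255552, 2199023255552)] :=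
  covD_split 2 (by decide +kernel) A12_c0_t3 A12_c0_t8

theorem A12_c0_t13 : CovD 1 gA12 [(6414139392, 917504000), (481036337152, 68719476736), (549755813888, 549755813888)] :=
  covD_split 0 (by decide +kernel) A12_c0_t14 A12_c0_t15

theorem A12_c0_t12 : CovD 1 gA12 [(6414139392, 917504000), (481036337152, 68719476736), (1099511627776, 1099511627776)] :=
  covD_split 2 (by decide +kernel) A12_c0_t13 A12_c0_t16

theorem A12_c0_t17 : CovD 1 gA12 [(6414139392, 917504000), (481036337152, 68719476736), (3298534883328, 1099511627776)] :=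
  covD_split 0 (by decide +kernel) A12_c0_t18 A12_c0_t19

theorem A12_c0_t11 : CovD 1 gA12 [(6414139392, 917504000), (481036337152, 68719476736), (2199023255552, 2199023255552)] :=
  covD_split 2 (by decide +kernel) A12_c0_t12 A12_c0_t17

theorem A12_c0_t1 : CovD 1 gA12 [(6414139392, 917504000), (412316860416, 137438953472), (2199023255552, 2199023255552)] :=
  covD_split 1 (by decide +kernel) A12_c0_t2 A12_c0_t11

theorem A12_c0_t24 : CovD 1 gA12 [(5955387392, 458752000), (412316860416, 137438953472), (4672924418048, 274877906944)] :=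
  covD_split 1 (by decide +kernel) A12_c0_t25 A12_c0_t26

theorem A12_c0_t23 : CovD 1 gA12 [(5955387392, 458752000), (412316860416, 137438953472), (4947802324992, 549755813888)] :=
  covD_split 2 (by decide +kernel) A12_c0_t24 A12_c0_t27

theorem A12_c0_t29 : CovD 1 gA12 [(6872891392, 458752000), (412316860416, 137438953472), (4672924418048, 274877906944)] :=
  covD_split 2 (by decide +kernel) A12_c0_t30 A12_c0_t31

theorem A12_c0_t28 : CovD 1 gA12 [(6872891392, 458752000), (412316860416, 137438953472), (4947802324992, 549755813888)] :=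
  covD_split 2 (by decide +kernel) A12_c0_t29 A12_c0_t32

theorem A12_c0_t22 : CovD 1 gA12 [(6414139392, 917504000), (412316860416, 137438953472), (4947802324992, 549755813888)] :=
  covD_split 0 (by decide +kernel) A12_c0_t23 A12_c0_t28

theorem A12_c0_t21 : CovD 1 gA12 [(6414139392, 917504000), (412316860416, 137438953472), (5497558138880, 1099511627776)] :=
  covD_split 2 (by decide +kernel) A12_c0_t22 A12_c0_t33

theorem A12_c0_t20 : CovD 1 gA12 [(6414139392, 917504000), (412316860416, 137438953472), (6597069766656, 2199023255552)] :=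
  covD_split 2 (by decide +kernel) A12_c0_t21 A12_c0_t34

theorem A12_c0 : CovD 1 gA12 [(6414139392, 917504000), (412316860416, 137438953472), (4398046511104, 4398046511104)] :=
  covD_split 2 (by decide +kernel) A12_c0_t1 A12_c0_t20

theorem B12_c0_t1 : CovD 1 gB12 [(6414139392, 917504000), (412316860416, 137438953472), (34359738368, 34359738368)] :=
  covD_split 0 (by decide +kernel) B12_c0_t2 B12_c0_t3

theorem B12_c0 : CovD 1 gB12 [(6414139392, 917504000), (412316860416, 137438953472), (68719476736, 68719476736)] :=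
  covD_split 2 (by decide +kernel) B12_c0_t1 B12_c0_t4

theorem E12_c0_t1 : CovD 1 gE12 [(6414139392, 917504000), (412316860416, 137438953472), (431805169664, 431805169664)] :=
  covD_split 2 (by decide +kernel) E12_c0_t2 E12_c0_t3

theorem E12_c0 : CovD 1 gE12 [(6414139392, 917504000), (412316860416, 137438953472), (863610339328, 863610339328)] :=
  covD_split 2 (by decide +kernel) E12_c0_t1 E12_c0_t4

end Pool.Agent.helper14.NS.Q150b
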