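import Pool.Agent.helper14.NS.Q150b.PN7

/-!
Generated: certificates.
-/

namespace Pool.Agent.helper14.NS.Q150b

open Pool.Agent.helper31.IA (Z)
open Pool.Agent.helper31.IX (Op XOps runX Cov CovD cov_split covD_split)
open Pool.Agent.helper31.IC (TD)
open Pool.Agent.helper63.RG (reloc)
open Pool.Agent.helper63.NF hiding TD
open Pool.Agent.helper4.NS
open Pool.Agent.helper14.CF (xE covD_E)
open Pool.Agent.helper14.NR (share)

mutual
theorem A7_c0_t5 : CovD 1 gA7 [(5955387392, 458752000), (343597383680, 68719476736), (549755813888, 549755813888)] :=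
  covD_E kA7_eq (.n 2 (.n 2 (.n 2 (.n 2 (.l 0) (.l 0)) (.n 2 (.l 0) (.l 0))) (.n 2 (.n 2 (.l 0) (.l 0)) (.n 2 (.l 0) (.l 0)))) (.n 2 (.n 2 (.n 2 (.l 0) (.l 0)) (.n 1 (.l 0) (.l 0))) (.n 1 (.n 2 (.l 0) (.l 0)) (.n 2 (.l 0) (.l 0)))))
    [(5955387392, 458752000), (343597383680, 68719476736), (549755813888, 549755813888)] rfl (by decide +kernel)
theorem A7_c0_t6 : CovD 1 gA7 [(5955387392, 458752000), (343597383680, 68719476736), (1649267441664, 549755813888)] :=
  covD_E kA7_eq (.n 2 (.n 2 (.n 1 (.n 2 (.l 0) (.l 0)) (.n 2 (.l 0) (.l 0))) (.n 2 (.l 0) (.l 0))) (.n 2 (.n 2 (.l 0) (.l 0)) (.n 2 (.l 0) (.l 0))))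
    [(5955387392, 458752000), (343597383680, 68719476736), (1649267441664, 549755813888)] rfl (by decide +kernel)
end

mutual
theorem A7_c0_t8 : CovD 1 gA7 [(6872891392, 458752000), (343597383680, 68719476736), (549755813888, 549755813888)] :=
  covD_E kA7_eq (.n 2 (.n 2 (.n 2 (.n 2 (.l 0) (.l 0)) (.n 2 (.l 0) (.l 0))) (.n 2 (.n 2 (.l 0) (.l 0)) (.n 1 (.l 0) (.l 0)))) (.n 1 (.n 2 (.n 2 (.l 0) (.l 0)) (.n 2 (.l 0) (.l 0))) (.n 2 (.n 2 (.l 0) (.l 0)) (.n 2 (.l 0) (.l 0)))))
    [(6872891392, 458752000), (343597383680, 68719476736), (549755813888, 549755813888)] rfl (by decide +kernel)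
theorem A7_c0_t9 : CovD 1 gA7 [(6872891392, 458752000), (343597383680, 68719476736), (1649267441664, 549755813888)] :=
  covD_E kA7_eq (.n 2 (.n 2 (.n 1 (.n 2 (.l 0) (.l 0)) (.n 2 (.l 0) (.l 0))) (.n 2 (.l 0) (.l 0))) (.n 2 (.n 2 (.l 0) (.l 0)) (.n 2 (.l 0) (.l 0))))
    [(6872891392, 458752000), (343597383680, 68719476736), (1649267441664, 549755813888)] rfl (by decide +kernel)
end

mutual
theorem A7_c0_t12 : CovD 1 gA7 [(5955387392, 458752000), (481036337152, 68719476736), (549755813888, 549755813888)] :=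
  covD_E kA7_eq (.n 2 (.n 0 (.n 2 (.n 2 (.l 0) (.l 0)) (.n 2 (.l 0) (.l 0))) (.n 2 (.n 2 (.l 0) (.l 0)) (.n 2 (.l 0) (.l 0)))) (.n 2 (.n 2 (.l 0) (.l 0)) (.n 2 (.l 0) (.l 0))))
    [(5955387392, 458752000), (481036337152, 68719476736), (549755813888, 549755813888)] rfl (by decide +kernel)
theorem A7_c0_t13 : CovD 1 gA7 [(6872891392, 458752000), (481036337152, 68719476736), (549755813888, 549755813888)] :=
  covD_E kA7_eq (.n 2 (.n 2 (.n 0 (.n 2 (.l 0) (.l 0)) (.n 2 (.l 0) (.l 0))) (.n 2 (.l 0) (.l 0))) (.n 2 (.n 2 (.l 0) (.l 0)) (.n 2 (.l 0) (.l 0))))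
    [(6872891392, 458752000), (481036337152, 68719476736), (549755813888, 549755813888)] rfl (by decide +kernel)
end

mutual
theorem A7_c0_t15 : CovD 1 gA7 [(6414139392, 917504000), (481036337152, 68719476736), (1374389534720, 274877906944)] :=
  covD_E kA7_eq (.n 2 (.n 2 (.n 2 (.l 0) (.n 0 (.l 0) (.l 0))) (.n 0 (.n 1 (.l 0) (.l 0)) (.n 1 (.l 0) (.l 0)))) (.n 1 (.n 2 (.l 0) (.l 0)) (.n 2 (.l 0) (.l 0))))
    [(6414139392, 917504000), (481036337152, 68719476736), (1374389534720, 274877906944)] rfl (by decide +kernel)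
theorem A7_c0_t16 : CovD 1 gA7 [(6414139392, 917504000), (481036337152, 68719476736), (1924145348608, 274877906944)] :=
  covD_E kA7_eq (.n 0 (.n 2 (.n 2 (.l 0) (.l 0)) (.n 2 (.l 0) (.l 0))) (.n 0 (.n 2 (.l 0) (.l 0)) (.n 2 (.l 0) (.l 0))))
    [(6414139392, 917504000), (481036337152, 68719476736), (1924145348608, 274877906944)] rfl (by decide +kernel)
end

mutual
theorem A7_c0_t19 : CovD 1 gA7 [(6414139392, 917504000), (343597383680, 68719476736), (2748779069440, 549755813888)] :=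
  covD_E kA7_eq (.n 0 (.n 2 (.n 2 (.n 2 (.l 0) (.l 0)) (.n 2 (.l 0) (.l 0))) (.n 2 (.n 2 (.l 0) (.l 0)) (.n 2 (.l 0) (.l 0)))) (.n 2 (.n 2 (.n 0 (.l 0) (.l 0)) (.n 2 (.l 0) (.l 0))) (.n 0 (.n 2 (.l 0) (.l 0)) (.n 2 (.l 0) (.l 0)))))
    [(6414139392, 917504000), (343597383680, 68719476736), (2748779069440, 549755813888)] rfl (by decide +kernel)
theorem A7_c0_t20 : CovD 1 gA7 [(6414139392, 917504000), (481036337152, 68719476736), (2748779069440, 549755813888)] :=
  covD_E kA7_eq (.n 2 (.n 2 (.n 2 (.l 0) (.l 0)) (.n 0 (.n 2 (.l 0) (.l 0)) (.n 1 (.l 0) (.l 0)))) (.n 0 (.n 2 (.n 2 (.l 0) (.l 0)) (.n 2 (.l 0) (.l 0))) (.n 0 (.n 2 (.l 0) (.l 0)) (.n 2 (.l 0) (.l 0)))))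
    [(6414139392, 917504000), (481036337152, 68719476736), (2748779069440, 549755813888)] rfl (by decide +kernel)
end

mutual
theorem A7_c0_t23 : CovD 1 gA7 [(5955387392, 458752000), (412316860416, 137438953472), (3573412790272, 274877906944)] :=
  covD_E kA7_eq (.n 1 (.n 2 (.n 2 (.l 0) (.l 0)) (.n 2 (.l 0) (.n 0 (.n 0 (.l 0) (.l 0)) (.l 0)))) (.n 2 (.n 2 (.l 0) (.l 0)) (.n 2 (.l 0) (.n 0 (.n 1 (.l 0) (.l 0)) (.l 0)))))
    [(5955387392, 458752000), (412316860416, 137438953472), (3573412790272, 274877906944)] rfl (by decide +kernel)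
theorem A7_c0_t24 : CovD 1 gA7 [(6872891392, 458752000), (412316860416, 137438953472), (3573412790272, 274877906944)] :=
  covD_E kA7_eq (.n 1 (.n 2 (.n 0 (.l 0) (.l 0)) (.n 2 (.l 0) (.l 0))) (.n 2 (.n 0 (.l 0) (.l 0)) (.n 2 (.l 0) (.n 0 (.l 0) (.l 0)))))
    [(6872891392, 458752000), (412316860416, 137438953472), (3573412790272, 274877906944)] rfl (by decide +kernel)
end

mutual
theorem A7_c0_t27 : CovD 1 gA7 [(5955387392, 458752000), (412316860416, 137438953472), (3985729650688, 137438953472)] :=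
  covD_E kA7_eq (.n 2 (.n 0 (.n 0 (.n 2 (.n 1 (.l 0) (.n 0 (.l 0) (.l 0))) (.l 1)) (.n 2 (.n 1 (.l 0) (.l 0)) (.l 1))) (.n 1 (.n 2 (.l 0) (.l 1)) (.n 2 (.l 0) (.l 1)))) (.l 1))
    [(5955387392, 458752000), (412316860416, 137438953472), (3985729650688, 137438953472)] rfl (by decide +kernel)
theorem A7_c0_t28 : CovD 1 gA7 [(6872891392, 458752000), (412316860416, 137438953472), (3985729650688, 137438953472)] :=
  covD_E kA7_eq (.n 2 (.n 1 (.n 2 (.l 0) (.n 0 (.l 1) (.l 1))) (.n 0 (.n 2 (.l 0) (.l 1)) (.n 2 (.l 0) (.n 0 (.l 1) (.l 1))))) (.l 1))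
    [(6872891392, 458752000), (412316860416, 137438953472), (3985729650688, 137438953472)] rfl (by decide +kernel)
end

mutual
theorem A7_c0_t29 : CovD 1 gA7 [(6414139392, 917504000), (412316860416, 137438953472), (4260607557632, 137438953472)] :=
  covD_E kA7_eq (.l 1)
    [(6414139392, 917504000), (412316860416, 137438953472), (4260607557632, 137438953472)] rfl (by decide +kernel)
theorem A7_c0_t30 : CovD 1 gA7 [(6414139392, 917504000), (412316860416, 137438953472), (6597069766656, 2199023255552)] :=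
  covD_E kA7_eq (.n 2 (.n 2 (.n 0 (.l 1) (.l 1)) (.l 1)) (.n 2 (.l 1) (.l 1)))
    [(6414139392, 917504000), (412316860416, 137438953472), (6597069766656, 2199023255552)] rfl (by decide +kernel)
end

mutual
theorem B7_c0_t3 : CovD 1 gB7 [(6414139392, 917504000), (412316860416, 137438953472), (8589934592, 8589934592)] :=
  covD_E kB7_eq (.n 0 (.n 2 (.n 0 (.n 2 (.l 1) (.l 1)) (.n 2 (.l 1) (.l 1))) (.n 2 (.n 0 (.l 1) (.l 1)) (.l 1))) (.n 2 (.n 2 (.l 1) (.l 1)) (.n 2 (.l 1) (.l 1))))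
    [(6414139392, 917504000), (412316860416, 137438953472), (8589934592, 8589934592)] rfl (by decide +kernel)
theorem B7_c0_t4 : CovD 1 gB7 [(6414139392, 917504000), (412316860416, 137438953472), (25769803776, 8589934592)] :=
  covD_E kB7_eq (.n 2 (.n 0 (.n 2 (.l 1) (.l 1)) (.n 2 (.l 1) (.l 1))) (.n 2 (.n 0 (.l 1) (.l 1)) (.l 1)))
    [(6414139392, 917504000), (412316860416, 137438953472), (25769803776, 8589934592)] rfl (by decide +kernel)
end

mutual
theorem B7_c0_t5 : CovD 1 gB7 [(6414139392, 917504000), (412316860416, 137438953472), (51539607552, 17179869184)] :=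
  covD_E kB7_eq (.n 2 (.n 2 (.n 2 (.l 1) (.l 1)) (.n 0 (.l 1) (.l 1))) (.n 2 (.n 0 (.l 1) (.l 1)) (.l 1)))
    [(6414139392, 917504000), (412316860416, 137438953472), (51539607552, 17179869184)] rfl (by decide +kernel)
theorem B7_c0_t6 : CovD 1 gB7 [(6414139392, 917504000), (412316860416, 137438953472), (103079215104, 34359738368)] :=
  covD_E kB7_eq (.n 2 (.n 0 (.n 2 (.l 1) (.l 1)) (.n 2 (.l 1) (.l 1))) (.n 2 (.l 1) (.l 1)))
    [(6414139392, 917504000), (412316860416, 137438953472), (103079215104, 34359738368)] rfl (by decide +kernel)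
end

mutual
theorem D7_c0 : CovD 1 gD7 [(6414139392, 917504000), (412316860416, 137438953472), (863610339328, 863610339328)] :=
  covD_E kD7_eq (.n 2 (.n 2 (.n 2 (.n 2 (.l 0) (.l 0)) (.n 2 (.l 0) (.l 0))) (.n 2 (.n 2 (.l 0) (.l 0)) (.n 2 (.l 0) (.l 0)))) (.n 2 (.n 2 (.n 2 (.l 0) (.l 0)) (.n 2 (.l 0) (.l 0))) (.n 2 (.n 2 (.l 0) (.l 0)) (.n 2 (.l 0) (.l 0)))))
    [(6414139392, 917504000), (412316860416, 137438953472), (863610339328, 863610339328)] rfl (by decide +kernel)
theorem E7_c0_t3 : CovD 1 gE7 [(6414139392, 917504000), (412316860416, 137438953472), (107951292416, 107951292416)] :=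
  covD_E kE7_eq (.n 2 (.l 1) (.n 2 (.l 1) (.n 0 (.n 1 (.n 2 (.n 0 (.n 0 (.l 0) (.l 1)) (.l 1)) (.l 0)) (.n 2 (.l 1) (.n 0 (.l 0) (.l 0)))) (.n 0 (.n 1 (.n 1 (.l 1) (.l 1)) (.l 1)) (.l 1)))))
    [(6414139392, 917504000), (412316860416, 137438953472), (107951292416, 107951292416)] rfl (by decide +kernel)
end

mutual
theorem E7_c0_t4 : CovD 1 gE7 [(6414139392, 917504000), (412316860416, 137438953472), (323853877248, 107951292416)] :=
  covD_E kE7_eq (.n 0 (.n 2 (.n 1 (.l 0) (.n 2 (.l 0) (.l 0))) (.l 0)) (.n 2 (.n 1 (.l 0) (.n 1 (.l 0) (.n 2 (.l 0) (.l 0)))) (.l 0)))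
    [(6414139392, 917504000), (412316860416, 137438953472), (323853877248, 107951292416)] rfl (by decide +kernel)
theorem E7_c0_t5 : CovD 1 gE7 [(6414139392, 917504000), (412316860416, 137438953472), (647707754496, 215902584832)] :=
  covD_E kE7_eq (.n 2 (.n 2 (.l 0) (.l 0)) (.n 2 (.l 0) (.l 0)))
    [(6414139392, 917504000), (412316860416, 137438953472), (647707754496, 215902584832)] rfl (by decide +kernel)
end

theorem E7_c0_t6 : CovD 1 gE7 [(6414139392, 917504000), (412316860416, 137438953472), (1295415508992, 431805169664)] :=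
  covD_E kE7_eq (.n 2 (.n 2 (.n 2 (.l 0) (.l 0)) (.n 2 (.l 0) (.l 0))) (.n 2 (.n 2 (.l 0) (.l 0)) (.n 2 (.l 0) (.l 0))))
    [(6414139392, 917504000), (412316860416, 137438953472), (1295415508992, 431805169664)] rfl (by decide +kernel)

theorem A7_c0_t4 : CovD 1 gA7 [(5955387392, 458752000), (343597383680, 68719476736), (1099511627776, 1099511627776)] :=
  covD_split 2 (by decide +kernel) A7_c0_t5 A7_c0_t6

theorem A7_c0_t7 : CovD 1 gA7 [(6872891392, 458752000), (343597383680, 68719476736), (1099511627776, 1099511627776)] :=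
  covD_split 2 (by decide +kernel) A7_c0_t8 A7_c0_t9

theorem A7_c0_t3 : CovD 1 gA7 [(6414139392, 917504000), (343597383680, 68719476736), (1099511627776, 1099511627776)] :=
  covD_split 0 (by decide +kernel) A7_c0_t4 A7_c0_t7

theorem A7_c0_t11 : CovD 1 gA7 [(6414139392, 917504000), (481036337152, 68719476736), (549755813888, 549755813888)] :=
  covD_split 0 (by decide +kernel) A7_c0_t12 A7_c0_t13

theorem A7_c0_t14 : CovD 1 gA7 [(6414139392, 917504000), (481036337152, 68719476736), (1649267441664, 549755813888)] :=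
  covD_split 2 (by decide +kernel) A7_c0_t15 A7_c0_t16

theorem A7_c0_t10 : CovD 1 gA7 [(6414139392, 917504000), (481036337152, 68719476736), (1099511627776, 1099511627776)] :=
  covD_split 2 (by decide +kernel) A7_c0_t11 A7_c0_t14

theorem A7_c0_t2 : CovD 1 gA7 [(6414139392, 917504000), (412316860416, 137438953472), (1099511627776, 1099511627776)] :=
  covD_split 1 (by decide +kernel) A7_c0_t3 A7_c0_t10

theorem A7_c0_t18 : CovD 1 gA7 [(6414139392, 917504000), (412316860416, 137438953472), (2748779069440, 549755813888)] :=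
  covD_split 1 (by decide +kernel) A7_c0_t19 A7_c0_t20

theorem A7_c0_t22 : CovD 1 gA7 [(6414139392, 917504000), (412316860416, 137438953472), (3573412790272, 274877906944)] :=
  covD_split 0 (by decide +kernel) A7_c0_t23 A7_c0_t24

theorem A7_c0_t26 : CovD 1 gA7 [(6414139392, 917504000), (412316860416, 137438953472), (3985729650688, 137438953472)] :=
  covD_split 0 (by decide +kernel) A7_c0_t27 A7_c0_t28

theorem A7_c0_t25 : CovD 1 gA7 [(6414139392, 917504000), (412316860416, 137438953472), (4123168604160, 274877906944)] :=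
  covD_split 2 (by decide +kernel) A7_c0_t26 A7_c0_t29

theorem A7_c0_t21 : CovD 1 gA7 [(6414139392, 917504000), (412316860416, 137438953472), (3848290697216, 549755813888)] :=
  covD_split 2 (by decide +kernel) A7_c0_t22 A7_c0_t25

theorem A7_c0_t17 : CovD 1 gA7 [(6414139392, 917504000), (412316860416, 137438953472), (3298534883328, 1099511627776)] :=
  covD_split 2 (by decide +kernel) A7_c0_t18 A7_c0_t21

theorem A7_c0_t1 : CovD 1 gA7 [(6414139392, 917504000), (412316860416, 137438953472), (2199023255552, 2199023255552)] :=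
  covD_split 2 (by decide +kernel) A7_c0_t2 A7_c0_t17

theorem A7_c0 : CovD 1 gA7 [(6414139392, 917504000), (412316860416, 137438953472), (4398046511104, 4398046511104)] :=
  covD_split 2 (by decide +kernel) A7_c0_t1 A7_c0_t30

theorem B7_c0_t2 : CovD 1 gB7 [(6414139392, 917504000), (412316860416, 137438953472), (17179869184, 17179869184)] :=
  covD_split 2 (by decide +kernel) B7_c0_t3 B7_c0_t4

theorem B7_c0_t1 : CovD 1 gB7 [(6414139392, 917504000), (412316860416, 137438953472), (34359738368, 34359738368)] :=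
  covD_split 2 (by decide +kernel) B7_c0_t2 B7_c0_t5

theorem B7_c0 : CovD 1 gB7 [(6414139392, 917504000), (412316860416, 137438953472), (68719476736, 68719476736)] :=
  covD_split 2 (by decide +kernel) B7_c0_t1 B7_c0_t6

theorem E7_c0_t2 : CovD 1 gE7 [(6414139392, 917504000), (412316860416, 137438953472), (215902584832, 215902584832)] :=
  covD_split 2 (by decide +kernel) E7_c0_t3 E7_c0_t4

theorem E7_c0_t1 : CovD 1 gE7 [(6414139392, 917504000), (412316860416, 137438953472), (431805169664, 431805169664)] :=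
  covD_split 2 (by decide +kernel) E7_c0_t2 E7_c0_t5

theorem E7_c0 : CovD 1 gE7 [(6414139392, 917504000), (412316860416, 137438953472), (863610339328, 863610339328)] :=
  covD_split 2 (by decide +kernel) E7_c0_t1 E7_c0_t6

end Pool.Agent.helper14.NS.Q150b
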