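import Pool.Agent.helper14.NS.Q150b.PN13

/-!
Generated: certificates.
-/

namespace Pool.Agent.helper14.NS.Q150b

open Pool.Agent.helper31.IA (Z)
open Pool.Agent.helper31.IX (Op XOps runX Cov CovD cov_split covD_split)
open Pool.Agent.helper31.IC (TD)
open Pool.Agent.helper63.RG (reloc)
open Pool.Agent.helper63.NF hiding TD
open Pool.Agent.helper4.NS
open Pool.Agent.helper14.CF (xE covD_E)
open Pool.Agent.helper14.NR (share)

mutual
theorem A13_c0_t4 : CovD 1 gA13 [(6414139392, 917504000), (343597383680, 68719476736), (549755813888, 549755813888)] :=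
  covD_E kA13_eq (.n 1 (.n 2 (.n 2 (.n 2 (.l 0) (.l 0)) (.n 2 (.l 0) (.l 0))) (.n 2 (.n 2 (.l 0) (.l 0)) (.n 2 (.l 0) (.l 0)))) (.n 2 (.n 2 (.n 2 (.l 0) (.l 0)) (.n 0 (.l 0) (.l 0))) (.n 2 (.n 2 (.l 0) (.l 0)) (.n 2 (.l 0) (.l 0)))))
    [(6414139392, 917504000), (343597383680, 68719476736), (549755813888, 549755813888)] rfl (by decide +kernel)
theorem A13_c0_t5 : CovD 1 gA13 [(6414139392, 917504000), (343597383680, 68719476736), (1649267441664, 549755813888)] :=
  covD_E kA13_eq (.n 0 (.n 2 (.n 2 (.n 2 (.l 0) (.l 0)) (.n 1 (.l 0) (.l 0))) (.n 2 (.n 0 (.l 0) (.l 0)) (.l 0))) (.n 2 (.n 2 (.n 2 (.l 0) (.l 0)) (.n 1 (.l 0) (.l 0))) (.n 2 (.l 0) (.l 0))))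
    [(6414139392, 917504000), (343597383680, 68719476736), (1649267441664, 549755813888)] rfl (by decide +kernel)
end

mutual
theorem A13_c0_t9 : CovD 1 gA13 [(5955387392, 458752000), (343597383680, 68719476736), (2473901162496, 274877906944)] :=
  covD_E kA13_eq (.n 2 (.n 0 (.l 0) (.l 0)) (.n 2 (.l 0) (.l 0)))
    [(5955387392, 458752000), (343597383680, 68719476736), (2473901162496, 274877906944)] rfl (by decide +kernel)
theorem A13_c0_t10 : CovD 1 gA13 [(5955387392, 458752000), (343597383680, 68719476736), (3023656976384, 274877906944)] :=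
  covD_E kA13_eq (.n 2 (.n 2 (.n 0 (.l 0) (.l 0)) (.n 2 (.l 0) (.n 0 (.l 0) (.l 0)))) (.n 0 (.n 2 (.n 2 (.l 0) (.n 0 (.l 0) (.l 0))) (.n 2 (.n 1 (.l 0) (.l 0)) (.n 2 (.l 0) (.l 0)))) (.n 2 (.n 2 (.l 0) (.l 0)) (.n 2 (.l 0) (.l 0)))))
    [(5955387392, 458752000), (343597383680, 68719476736), (3023656976384, 274877906944)] rfl (by decide +kernel)
end

mutual
theorem A13_c0_t13 : CovD 1 gA13 [(5726011392, 229376000), (343597383680, 68719476736), (3573412790272, 274877906944)] :=
  covD_E kA13_eq (.n 2 (.n 2 (.n 2 (.n 2 (.l 0) (.l 0)) (.n 2 (.l 0) (.l 0))) (.n 2 (.n 2 (.l 0) (.l 0)) (.n 1 (.l 0) (.l 0)))) (.n 2 (.n 2 (.n 0 (.l 0) (.l 0)) (.l 0)) (.n 2 (.l 0) (.l 0))))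
    [(5726011392, 229376000), (343597383680, 68719476736), (3573412790272, 274877906944)] rfl (by decide +kernel)
theorem A13_c0_t14 : CovD 1 gA13 [(5726011392, 229376000), (343597383680, 68719476736), (4123168604160, 274877906944)] :=
  covD_E kA13_eq (.n 2 (.n 2 (.n 0 (.l 0) (.l 0)) (.l 0)) (.n 2 (.l 0) (.l 0)))
    [(5726011392, 229376000), (343597383680, 68719476736), (4123168604160, 274877906944)] rfl (by decide +kernel)
end

mutual
theorem A13_c0_t15 : CovD 1 gA13 [(6184763392, 229376000), (343597383680, 68719476736), (3848290697216, 549755813888)] :=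
  covD_E kA13_eq (.n 2 (.n 2 (.n 2 (.n 2 (.l 0) (.l 0)) (.n 2 (.l 0) (.l 0))) (.n 2 (.n 0 (.l 0) (.l 0)) (.l 0))) (.n 2 (.n 2 (.l 0) (.l 0)) (.n 1 (.l 0) (.l 0))))
    [(6184763392, 229376000), (343597383680, 68719476736), (3848290697216, 549755813888)] rfl (by decide +kernel)
theorem A13_c0_t17 : CovD 1 gA13 [(6872891392, 458752000), (343597383680, 68719476736), (2748779069440, 549755813888)] :=
  covD_E kA13_eq (.n 2 (.n 2 (.n 0 (.l 0) (.l 0)) (.n 2 (.l 0) (.l 0))) (.n 0 (.n 2 (.n 2 (.l 0) (.l 0)) (.n 2 (.l 0) (.l 0))) (.n 2 (.n 2 (.l 0) (.l 0)) (.n 2 (.l 0) (.l 0)))))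
    [(6872891392, 458752000), (343597383680, 68719476736), (2748779069440, 549755813888)] rfl (by decide +kernel)
end

mutual
theorem A13_c0_t18 : CovD 1 gA13 [(6872891392, 458752000), (343597383680, 68719476736), (3848290697216, 549755813888)] :=
  covD_E kA13_eq (.n 2 (.n 2 (.n 0 (.n 2 (.l 0) (.l 0)) (.n 2 (.l 0) (.l 0))) (.n 2 (.l 0) (.l 0))) (.n 2 (.n 2 (.l 0) (.l 0)) (.n 2 (.l 0) (.l 0))))
    [(6872891392, 458752000), (343597383680, 68719476736), (3848290697216, 549755813888)] rfl (by decide +kernel)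
theorem A13_c0_t21 : CovD 1 gA13 [(5955387392, 458752000), (481036337152, 68719476736), (1099511627776, 1099511627776)] :=
  covD_E kA13_eq (.n 2 (.n 2 (.n 2 (.n 2 (.l 0) (.l 0)) (.l 0)) (.n 1 (.n 2 (.l 0) (.l 0)) (.n 2 (.l 0) (.l 0)))) (.n 2 (.n 1 (.n 2 (.l 0) (.l 0)) (.n 2 (.l 0) (.l 0))) (.n 2 (.l 0) (.l 0))))
    [(5955387392, 458752000), (481036337152, 68719476736), (1099511627776, 1099511627776)] rfl (by decide +kernel)
end

mutual
theorem A13_c0_t23 : CovD 1 gA13 [(5955387392, 458752000), (481036337152, 68719476736), (2748779069440, 549755813888)] :=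
  covD_E kA13_eq (.n 2 (.n 2 (.n 0 (.l 0) (.l 0)) (.n 2 (.l 0) (.l 0))) (.n 2 (.n 2 (.n 0 (.l 0) (.l 0)) (.n 2 (.l 0) (.l 0))) (.n 1 (.n 2 (.n 2 (.l 0) (.l 0)) (.n 2 (.l 0) (.l 0))) (.n 2 (.n 0 (.l 0) (.l 0)) (.n 2 (.l 0) (.l 0))))))
    [(5955387392, 458752000), (481036337152, 68719476736), (2748779069440, 549755813888)] rfl (by decide +kernel)
theorem A13_c0_t25 : CovD 1 gA13 [(5955387392, 458752000), (481036337152, 68719476736), (3573412790272, 274877906944)] :=
  covD_E kA13_eq (.n 2 (.n 1 (.n 2 (.n 2 (.l 0) (.l 0)) (.n 2 (.l 0) (.l 0))) (.n 2 (.n 2 (.l 0) (.l 0)) (.n 2 (.l 0) (.l 0)))) (.n 2 (.n 0 (.n 2 (.l 0) (.l 0)) (.l 0)) (.n 2 (.l 0) (.l 0))))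
    [(5955387392, 458752000), (481036337152, 68719476736), (3573412790272, 274877906944)] rfl (by decide +kernel)
end

mutual
theorem A13_c0_t26 : CovD 1 gA13 [(5955387392, 458752000), (481036337152, 68719476736), (4123168604160, 274877906944)] :=
  covD_E kA13_eq (.n 0 (.n 2 (.n 2 (.l 0) (.l 0)) (.n 2 (.l 0) (.l 0))) (.n 1 (.n 2 (.l 0) (.l 0)) (.n 2 (.l 0) (.l 0))))
    [(5955387392, 458752000), (481036337152, 68719476736), (4123168604160, 274877906944)] rfl (by decide +kernel)
theorem A13_c0_t28 : CovD 1 gA13 [(6872891392, 458752000), (481036337152, 68719476736), (1099511627776, 1099511627776)] :=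
  covD_E kA13_eq (.n 2 (.n 2 (.n 2 (.n 2 (.l 0) (.l 0)) (.l 0)) (.n 1 (.n 2 (.l 0) (.l 0)) (.n 2 (.l 0) (.l 0)))) (.n 2 (.n 1 (.n 2 (.l 0) (.l 0)) (.n 2 (.l 0) (.l 0))) (.n 2 (.n 0 (.l 0) (.l 0)) (.l 0))))
    [(6872891392, 458752000), (481036337152, 68719476736), (1099511627776, 1099511627776)] rfl (by decide +kernel)
end

mutual
theorem A13_c0_t30 : CovD 1 gA13 [(6872891392, 458752000), (481036337152, 68719476736), (2748779069440, 549755813888)] :=
  covD_E kA13_eq (.n 2 (.n 2 (.n 0 (.l 0) (.l 0)) (.n 2 (.l 0) (.l 0))) (.n 2 (.n 2 (.l 0) (.n 0 (.l 0) (.l 0))) (.n 0 (.n 2 (.l 0) (.l 0)) (.n 2 (.l 0) (.l 0)))))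
    [(6872891392, 458752000), (481036337152, 68719476736), (2748779069440, 549755813888)] rfl (by decide +kernel)
theorem A13_c0_t31 : CovD 1 gA13 [(6872891392, 458752000), (481036337152, 68719476736), (3848290697216, 549755813888)] :=
  covD_E kA13_eq (.n 2 (.n 2 (.n 2 (.l 0) (.l 0)) (.n 2 (.l 0) (.l 0))) (.n 0 (.n 2 (.l 0) (.l 0)) (.n 2 (.l 0) (.l 0))))
    [(6872891392, 458752000), (481036337152, 68719476736), (3848290697216, 549755813888)] rfl (by decide +kernel)
end

mutual
theorem A13_c0_t36 : CovD 1 gA13 [(5726011392, 229376000), (412316860416, 137438953472), (4947802324992, 549755813888)] :=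
  covD_E kA13_eq (.n 2 (.n 1 (.n 2 (.n 2 (.l 0) (.l 0)) (.n 0 (.n 2 (.l 0) (.l 1)) (.n 2 (.l 0) (.l 1)))) (.n 2 (.n 2 (.l 0) (.l 0)) (.n 2 (.l 0) (.n 0 (.l 1) (.l 1))))) (.l 1))
    [(5726011392, 229376000), (412316860416, 137438953472), (4947802324992, 549755813888)] rfl (by decide +kernel)
theorem A13_c0_t37 : CovD 1 gA13 [(6184763392, 229376000), (412316860416, 137438953472), (4947802324992, 549755813888)] :=
  covD_E kA13_eq (.n 2 (.n 1 (.n 2 (.n 0 (.l 0) (.l 0)) (.n 2 (.l 0) (.n 0 (.l 1) (.n 1 (.l 1) (.l 1))))) (.n 2 (.n 0 (.l 0) (.l 0)) (.n 2 (.l 0) (.n 2 (.n 0 (.n 0 (.l 1) (.l 1)) (.l 0)) (.l 1))))) (.l 1))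
    [(6184763392, 229376000), (412316860416, 137438953472), (4947802324992, 549755813888)] rfl (by decide +kernel)
end

mutual
theorem A13_c0_t38 : CovD 1 gA13 [(5955387392, 458752000), (412316860416, 137438953472), (6047313952768, 549755813888)] :=
  covD_E kA13_eq (.l 1)
    [(5955387392, 458752000), (412316860416, 137438953472), (6047313952768, 549755813888)] rfl (by decide +kernel)
theorem A13_c0_t39 : CovD 1 gA13 [(5955387392, 458752000), (412316860416, 137438953472), (7696581394432, 1099511627776)] :=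
  covD_E kA13_eq (.l 1)
    [(5955387392, 458752000), (412316860416, 137438953472), (7696581394432, 1099511627776)] rfl (by decide +kernel)
end

mutual
theorem A13_c0_t44 : CovD 1 gA13 [(6872891392, 458752000), (343597383680, 68719476736), (4672924418048, 274877906944)] :=
  covD_E kA13_eq (.n 2 (.n 2 (.l 0) (.n 0 (.l 0) (.l 0))) (.n 0 (.n 2 (.l 0) (.n 2 (.n 2 (.l 0) (.n 1 (.n 0 (.l 1) (.l 1)) (.n 0 (.l 1) (.l 1)))) (.l 1))) (.n 2 (.l 0) (.n 2 (.l 0) (.n 0 (.l 1) (.n 0 (.l 1) (.l 1)))))))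
    [(6872891392, 458752000), (343597383680, 68719476736), (4672924418048, 274877906944)] rfl (by decide +kernel)
theorem A13_c0_t45 : CovD 1 gA13 [(6872891392, 458752000), (481036337152, 68719476736), (4672924418048, 274877906944)] :=
  covD_E kA13_eq (.n 0 (.n 2 (.n 0 (.l 0) (.l 0)) (.n 2 (.l 0) (.n 0 (.n 2 (.l 0) (.l 1)) (.n 2 (.l 0) (.l 1))))) (.n 2 (.l 0) (.n 2 (.l 0) (.n 2 (.l 0) (.n 0 (.n 0 (.l 1) (.l 1)) (.l 0))))))
    [(6872891392, 458752000), (481036337152, 68719476736), (4672924418048, 274877906944)] rfl (by decide +kernel)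
end

mutual
theorem A13_c0_t46 : CovD 1 gA13 [(6872891392, 458752000), (412316860416, 137438953472), (5222680231936, 274877906944)] :=
  covD_E kA13_eq (.n 2 (.n 0 (.l 1) (.n 0 (.l 1) (.l 1))) (.l 1))
    [(6872891392, 458752000), (412316860416, 137438953472), (5222680231936, 274877906944)] rfl (by decide +kernel)
theorem A13_c0_t47 : CovD 1 gA13 [(6872891392, 458752000), (412316860416, 137438953472), (6047313952768, 549755813888)] :=
  covD_E kA13_eq (.l 1)
    [(6872891392, 458752000), (412316860416, 137438953472), (6047313952768, 549755813888)] rfl (by decide +kernel)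
end

mutual
theorem A13_c0_t48 : CovD 1 gA13 [(6872891392, 458752000), (412316860416, 137438953472), (7696581394432, 1099511627776)] :=
  covD_E kA13_eq (.l 1)
    [(6872891392, 458752000), (412316860416, 137438953472), (7696581394432, 1099511627776)] rfl (by decide +kernel)
theorem B13_c0_t1 : CovD 1 gB13 [(6414139392, 917504000), (412316860416, 137438953472), (34359738368, 34359738368)] :=
  covD_E kB13_eq (.n 0 (.n 2 (.n 2 (.n 2 (.l 1) (.l 1)) (.n 2 (.l 1) (.l 1))) (.n 2 (.n 2 (.l 1) (.l 1)) (.l 1))) (.n 2 (.n 2 (.n 2 (.l 1) (.l 1)) (.n 2 (.l 1) (.l 1))) (.n 2 (.n 0 (.l 1) (.l 1)) (.l 1))))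
    [(6414139392, 917504000), (412316860416, 137438953472), (34359738368, 34359738368)] rfl (by decide +kernel)
end

mutual
theorem B13_c0_t2 : CovD 1 gB13 [(6414139392, 917504000), (412316860416, 137438953472), (103079215104, 34359738368)] :=
  covD_E kB13_eq (.n 2 (.n 0 (.n 2 (.l 1) (.l 1)) (.n 2 (.l 1) (.l 1))) (.n 2 (.l 1) (.l 1)))
    [(6414139392, 917504000), (412316860416, 137438953472), (103079215104, 34359738368)] rfl (by decide +kernel)
theorem D13_c0_t1 : CovD 1 gD13 [(6414139392, 917504000), (412316860416, 137438953472), (431805169664, 431805169664)] :=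
  covD_E kD13_eq (.n 2 (.n 2 (.n 2 (.n 0 (.l 0) (.l 0)) (.n 0 (.l 0) (.l 0))) (.n 2 (.n 0 (.l 0) (.l 0)) (.n 0 (.l 0) (.l 0)))) (.n 2 (.n 2 (.n 0 (.l 0) (.l 0)) (.n 0 (.l 0) (.l 0))) (.n 2 (.n 0 (.l 0) (.l 0)) (.n 0 (.l 0) (.l 0)))))
    [(6414139392, 917504000), (412316860416, 137438953472), (431805169664, 431805169664)] rfl (by decide +kernel)
end

mutual
theorem D13_c0_t2 : CovD 1 gD13 [(6414139392, 917504000), (412316860416, 137438953472), (1295415508992, 431805169664)] :=
  covD_E kD13_eq (.n 2 (.n 2 (.n 2 (.n 0 (.l 0) (.l 0)) (.n 0 (.l 0) (.l 0))) (.n 2 (.n 0 (.l 0) (.l 0)) (.n 0 (.l 0) (.l 0)))) (.n 2 (.n 2 (.n 0 (.l 0) (.l 0)) (.n 0 (.l 0) (.l 0))) (.n 2 (.n 0 (.l 0) (.l 0)) (.n 0 (.l 0) (.l 0)))))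
    [(6414139392, 917504000), (412316860416, 137438953472), (1295415508992, 431805169664)] rfl (by decide +kernel)
theorem E13_c0_t2 : CovD 1 gE13 [(6414139392, 917504000), (412316860416, 137438953472), (215902584832, 215902584832)] :=
  covD_E kE13_eq (.n 2 (.l 1) (.l 1))
    [(6414139392, 917504000), (412316860416, 137438953472), (215902584832, 215902584832)] rfl (by decide +kernel)
end

mutual
theorem E13_c0_t5 : CovD 1 gE13 [(6414139392, 917504000), (412316860416, 137438953472), (485780815872, 53975646208)] :=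
  covD_E kE13_eq (.n 2 (.n 0 (.n 0 (.n 1 (.n 1 (.l 0) (.l 0)) (.n 2 (.l 1) (.l 0))) (.l 1)) (.l 1)) (.n 0 (.n 0 (.n 1 (.l 0) (.l 0)) (.n 1 (.l 0) (.n 0 (.l 0) (.l 1)))) (.n 0 (.n 0 (.n 0 (.n 1 (.l 0) (.l 1)) (.l 1)) (.l 1)) (.l 1))))
    [(6414139392, 917504000), (412316860416, 137438953472), (485780815872, 53975646208)] rfl (by decide +kernel)
theorem E13_c0_t6 : CovD 1 gE13 [(6414139392, 917504000), (412316860416, 137438953472), (593732108288, 53975646208)] :=
  covD_E kE13_eq (.n 0 (.n 1 (.l 0) (.l 0)) (.n 1 (.n 2 (.n 0 (.l 0) (.n 0 (.n 0 (.l 0) (.l 1)) (.l 1))) (.l 0)) (.n 2 (.n 0 (.n 1 (.l 0) (.l 0)) (.l 1)) (.n 1 (.l 0) (.l 0)))))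
    [(6414139392, 917504000), (412316860416, 137438953472), (593732108288, 53975646208)] rfl (by decide +kernel)
end

mutual
theorem E13_c0_t7 : CovD 1 gE13 [(6414139392, 917504000), (412316860416, 137438953472), (755659046912, 107951292416)] :=
  covD_E kE13_eq (.n 2 (.n 0 (.l 0) (.n 1 (.l 0) (.l 0))) (.n 1 (.l 0) (.l 0)))
    [(6414139392, 917504000), (412316860416, 137438953472), (755659046912, 107951292416)] rfl (by decide +kernel)
theorem E13_c0_t8 : CovD 1 gE13 [(6414139392, 917504000), (412316860416, 137438953472), (1295415508992, 431805169664)] :=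
  covD_E kE13_eq (.n 2 (.n 2 (.n 2 (.n 0 (.l 0) (.l 0)) (.n 0 (.l 0) (.l 0))) (.n 2 (.n 0 (.l 0) (.l 0)) (.n 0 (.l 0) (.l 0)))) (.n 2 (.n 2 (.n 0 (.l 0) (.l 0)) (.n 0 (.l 0) (.l 0))) (.n 2 (.n 0 (.l 0) (.l 0)) (.n 0 (.l 0) (.l 0)))))
    [(6414139392, 917504000), (412316860416, 137438953472), (1295415508992, 431805169664)] rfl (by decide +kernel)
end

theorem A13_c0_t3 : CovD 1 gA13 [(6414139392, 917504000), (343597383680, 68719476736), (1099511627776, 1099511627776)] :=
  covD_split 2 (by decide +kernel) A13_c0_t4 A13_c0_t5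

theorem A13_c0_t8 : CovD 1 gA13 [(5955387392, 458752000), (343597383680, 68719476736), (2748779069440, 549755813888)] :=
  covD_split 2 (by decide +kernel) A13_c0_t9 A13_c0_t10

theorem A13_c0_t12 : CovD 1 gA13 [(5726011392, 229376000), (343597383680, 68719476736), (3848290697216, 549755813888)] :=
  covD_split 2 (by decide +kernel) A13_c0_t13 A13_c0_t14

theorem A13_c0_t11 : CovD 1 gA13 [(5955387392, 458752000), (343597383680, 68719476736), (3848290697216, 549755813888)] :=
  covD_split 0 (by decide +kernel) A13_c0_t12 A13_c0_t15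

theorem A13_c0_t7 : CovD 1 gA13 [(5955387392, 458752000), (343597383680, 68719476736), (3298534883328, 1099511627776)] :=
  covD_split 2 (by decide +kernel) A13_c0_t8 A13_c0_t11

theorem A13_c0_t16 : CovD 1 gA13 [(6872891392, 458752000), (343597383680, 68719476736), (3298534883328, 1099511627776)] :=
  covD_split 2 (by decide +kernel) A13_c0_t17 A13_c0_t18

theorem A13_c0_t6 : CovD 1 gA13 [(6414139392, 917504000), (343597383680, 68719476736), (3298534883328, 1099511627776)] :=
  covD_split 0 (by decide +kernel) A13_c0_t7 A13_c0_t16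

theorem A13_c0_t2 : CovD 1 gA13 [(6414139392, 917504000), (343597383680, 68719476736), (2199023255552, 2199023255552)] :=
  covD_split 2 (by decide +kernel) A13_c0_t3 A13_c0_t6

theorem A13_c0_t24 : CovD 1 gA13 [(5955387392, 458752000), (481036337152, 68719476736), (3848290697216, 549755813888)] :=
  covD_split 2 (by decide +kernel) A13_c0_t25 A13_c0_t26

theorem A13_c0_t22 : CovD 1 gA13 [(5955387392, 458752000), (481036337152, 68719476736), (3298534883328, 1099511627776)] :=
  covD_split 2 (by decide +kernel) A13_c0_t23 A13_c0_t24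

theorem A13_c0_t20 : CovD 1 gA13 [(5955387392, 458752000), (481036337152, 68719476736), (2199023255552, 2199023255552)] :=
  covD_split 2 (by decide +kernel) A13_c0_t21 A13_c0_t22

theorem A13_c0_t29 : CovD 1 gA13 [(6872891392, 458752000), (481036337152, 68719476736), (3298534883328, 1099511627776)] :=
  covD_split 2 (by decide +kernel) A13_c0_t30 A13_c0_t31

theorem A13_c0_t27 : CovD 1 gA13 [(6872891392, 458752000), (481036337152, 68719476736), (2199023255552, 2199023255552)] :=
  covD_split 2 (by decide +kernel) A13_c0_t28 A13_c0_t29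

theorem A13_c0_t19 : CovD 1 gA13 [(6414139392, 917504000), (481036337152, 68719476736), (2199023255552, 2199023255552)] :=
  covD_split 0 (by decide +kernel) A13_c0_t20 A13_c0_t27

theorem A13_c0_t1 : CovD 1 gA13 [(6414139392, 917504000), (412316860416, 137438953472), (2199023255552, 2199023255552)] :=
  covD_split 1 (by decide +kernel) A13_c0_t2 A13_c0_t19

theorem A13_c0_t35 : CovD 1 gA13 [(5955387392, 458752000), (412316860416, 137438953472), (4947802324992, 549755813888)] :=
  covD_split 0 (by decide +kernel) A13_c0_t36 A13_c0_t37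

theorem A13_c0_t34 : CovD 1 gA13 [(5955387392, 458752000), (412316860416, 137438953472), (5497558138880, 1099511627776)] :=
  covD_split 2 (by decide +kernel) A13_c0_t35 A13_c0_t38

theorem A13_c0_t33 : CovD 1 gA13 [(5955387392, 458752000), (412316860416, 137438953472), (6597069766656, 2199023255552)] :=
  covD_split 2 (by decide +kernel) A13_c0_t34 A13_c0_t39

theorem A13_c0_t43 : CovD 1 gA13 [(6872891392, 458752000), (412316860416, 137438953472), (4672924418048, 274877906944)] :=
  covD_split 1 (by decide +kernel) A13_c0_t44 A13_c0_t45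

theorem A13_c0_t42 : CovD 1 gA13 [(6872891392, 458752000), (412316860416, 137438953472), (4947802324992, 549755813888)] :=
  covD_split 2 (by decide +kernel) A13_c0_t43 A13_c0_t46

theorem A13_c0_t41 : CovD 1 gA13 [(6872891392, 458752000), (412316860416, 137438953472), (5497558138880, 1099511627776)] :=
  covD_split 2 (by decide +kernel) A13_c0_t42 A13_c0_t47

theorem A13_c0_t40 : CovD 1 gA13 [(6872891392, 458752000), (412316860416, 137438953472), (6597069766656, 2199023255552)] :=
  covD_split 2 (by decide +kernel) A13_c0_t41 A13_c0_t48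

theorem A13_c0_t32 : CovD 1 gA13 [(6414139392, 917504000), (412316860416, 137438953472), (6597069766656, 2199023255552)] :=
  covD_split 0 (by decide +kernel) A13_c0_t33 A13_c0_t40

theorem A13_c0 : CovD 1 gA13 [(6414139392, 917504000), (412316860416, 137438953472), (4398046511104, 4398046511104)] :=
  covD_split 2 (by decide +kernel) A13_c0_t1 A13_c0_t32

theorem B13_c0 : CovD 1 gB13 [(6414139392, 917504000), (412316860416, 137438953472), (68719476736, 68719476736)] :=
  covD_split 2 (by decide +kernel) B13_c0_t1 B13_c0_t2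

theorem D13_c0 : CovD 1 gD13 [(6414139392, 917504000), (412316860416, 137438953472), (863610339328, 863610339328)] :=
  covD_split 2 (by decide +kernel) D13_c0_t1 D13_c0_t2

theorem E13_c0_t4 : CovD 1 gE13 [(6414139392, 917504000), (412316860416, 137438953472), (539756462080, 107951292416)] :=
  covD_split 2 (by decide +kernel) E13_c0_t5 E13_c0_t6

theorem E13_c0_t3 : CovD 1 gE13 [(6414139392, 917504000), (412316860416, 137438953472), (647707754496, 215902584832)] :=
  covD_split 2 (by decide +kernel) E13_c0_t4 E13_c0_t7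

theorem E13_c0_t1 : CovD 1 gE13 [(6414139392, 917504000), (412316860416, 137438953472), (431805169664, 431805169664)] :=
  covD_split 2 (by decide +kernel) E13_c0_t2 E13_c0_t3

theorem E13_c0 : CovD 1 gE13 [(6414139392, 917504000), (412316860416, 137438953472), (863610339328, 863610339328)] :=
  covD_split 2 (by decide +kernel) E13_c0_t1 E13_c0_t8

end Pool.Agent.helper14.NS.Q150b
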