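import Pool.Agent.helper14.NS.Q150b.PZ

/-!
Generated: certificates.
-/

namespace Pool.Agent.helper14.NS.Q150b

open Pool.Agent.helper31.IA (Z)
open Pool.Agent.helper31.IX (Op XOps runX Cov CovD cov_split covD_split)
open Pool.Agent.helper31.IC (TD)
open Pool.Agent.helper63.RG (reloc)
open Pool.Agent.helper63.NF hiding TD
open Pool.Agent.helper4.NS
open Pool.Agent.helper14.CF (xE covD_E)
open Pool.Agent.helper14.NR (share)

mutual
theorem Z_c0_t5 : CovD 1 gZ [(5955387392, 458752000), (309237645312, 34359738368), (122037469184, 122037469184)] :=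
  covD_E kZ_eq (.n 2 (.n 2 (.n 2 (.l 0) (.l 0)) (.n 2 (.l 0) (.l 0))) (.n 2 (.n 2 (.l 0) (.l 0)) (.n 2 (.l 0) (.l 0))))
    [(5955387392, 458752000), (309237645312, 34359738368), (122037469184, 122037469184)] rfl (by decide +kernel)
theorem Z_c0_t6 : CovD 1 gZ [(5955387392, 458752000), (309237645312, 34359738368), (366112407552, 122037469184)] :=
  covD_E kZ_eq (.n 2 (.n 2 (.n 2 (.l 0) (.l 0)) (.n 2 (.l 0) (.l 0))) (.n 2 (.n 1 (.n 2 (.l 0) (.l 0)) (.n 2 (.l 0) (.l 0))) (.n 2 (.n 1 (.l 0) (.l 0)) (.n 2 (.l 0) (.l 0)))))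
    [(5955387392, 458752000), (309237645312, 34359738368), (366112407552, 122037469184)] rfl (by decide +kernel)
end

mutual
theorem Z_c0_t8 : CovD 1 gZ [(5955387392, 458752000), (309237645312, 34359738368), (610187345920, 122037469184)] :=
  covD_E kZ_eq (.n 2 (.n 2 (.n 2 (.n 2 (.l 0) (.l 0)) (.n 2 (.l 0) (.l 0))) (.n 2 (.n 2 (.l 0) (.l 0)) (.n 2 (.l 0) (.l 0)))) (.n 2 (.n 2 (.n 2 (.l 0) (.l 0)) (.n 2 (.l 0) (.l 0))) (.n 2 (.n 2 (.l 0) (.l 0)) (.n 2 (.l 0) (.l 0)))))
    [(5955387392, 458752000), (309237645312, 34359738368), (610187345920, 122037469184)] rfl (by decide +kernel)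
theorem Z_c0_t10 : CovD 1 gZ [(5955387392, 458752000), (309237645312, 34359738368), (793243549696, 61018734592)] :=
  covD_E kZ_eq (.n 2 (.n 2 (.n 2 (.l 0) (.l 0)) (.n 2 (.l 0) (.l 0))) (.n 2 (.n 2 (.l 0) (.l 0)) (.n 2 (.l 0) (.l 0))))
    [(5955387392, 458752000), (309237645312, 34359738368), (793243549696, 61018734592)] rfl (by decide +kernel)
end

mutual
theorem Z_c0_t11 : CovD 1 gZ [(5955387392, 458752000), (309237645312, 34359738368), (915281018880, 61018734592)] :=
  covD_E kZ_eq (.n 2 (.n 2 (.n 2 (.l 0) (.l 0)) (.n 2 (.l 0) (.l 0))) (.n 0 (.n 2 (.n 2 (.l 0) (.l 0)) (.n 2 (.l 0) (.l 0))) (.n 2 (.n 2 (.l 0) (.l 0)) (.n 2 (.l 0) (.l 0)))))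
    [(5955387392, 458752000), (309237645312, 34359738368), (915281018880, 61018734592)] rfl (by decide +kernel)
theorem Z_c0_t14 : CovD 1 gZ [(6872891392, 458752000), (309237645312, 34359738368), (122037469184, 122037469184)] :=
  covD_E kZ_eq (.n 2 (.n 2 (.n 2 (.l 0) (.l 0)) (.n 2 (.l 0) (.l 0))) (.n 1 (.n 2 (.l 0) (.l 0)) (.n 2 (.l 0) (.l 0))))
    [(6872891392, 458752000), (309237645312, 34359738368), (122037469184, 122037469184)] rfl (by decide +kernel)
end

mutual
theorem Z_c0_t15 : CovD 1 gZ [(6872891392, 458752000), (309237645312, 34359738368), (366112407552, 122037469184)] :=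
  covD_E kZ_eq (.n 2 (.n 2 (.n 1 (.l 0) (.l 0)) (.n 2 (.l 0) (.l 0))) (.n 2 (.n 2 (.l 0) (.l 0)) (.n 0 (.n 2 (.l 0) (.l 0)) (.n 2 (.l 0) (.l 0)))))
    [(6872891392, 458752000), (309237645312, 34359738368), (366112407552, 122037469184)] rfl (by decide +kernel)
theorem Z_c0_t17 : CovD 1 gZ [(6872891392, 458752000), (309237645312, 34359738368), (610187345920, 122037469184)] :=
  covD_E kZ_eq (.n 2 (.n 2 (.n 2 (.n 0 (.l 0) (.l 0)) (.l 0)) (.n 2 (.l 0) (.l 0))) (.n 0 (.n 2 (.n 2 (.l 0) (.l 0)) (.n 2 (.l 0) (.l 0))) (.n 2 (.n 2 (.l 0) (.l 0)) (.n 2 (.l 0) (.l 0)))))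
    [(6872891392, 458752000), (309237645312, 34359738368), (610187345920, 122037469184)] rfl (by decide +kernel)
end

mutual
theorem Z_c0_t19 : CovD 1 gZ [(6872891392, 458752000), (309237645312, 34359738368), (793243549696, 61018734592)] :=
  covD_E kZ_eq (.n 0 (.n 2 (.n 2 (.l 0) (.l 0)) (.n 2 (.l 0) (.l 0))) (.n 2 (.n 2 (.l 0) (.l 0)) (.n 2 (.l 0) (.l 0))))
    [(6872891392, 458752000), (309237645312, 34359738368), (793243549696, 61018734592)] rfl (by decide +kernel)
theorem Z_c0_t20 : CovD 1 gZ [(6872891392, 458752000), (309237645312, 34359738368), (915281018880, 61018734592)] :=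
  covD_E kZ_eq (.n 2 (.n 2 (.n 0 (.l 0) (.l 0)) (.n 2 (.l 0) (.l 0))) (.n 2 (.n 2 (.l 0) (.n 0 (.l 0) (.l 0))) (.n 0 (.n 2 (.l 0) (.n 1 (.l 0) (.l 0))) (.n 1 (.n 2 (.l 0) (.n 2 (.l 0) (.l 0))) (.n 2 (.l 0) (.n 2 (.l 0) (.l 0)))))))
    [(6872891392, 458752000), (309237645312, 34359738368), (915281018880, 61018734592)] rfl (by decide +kernel)
end

mutual
theorem Z_c0_t23 : CovD 1 gZ [(6414139392, 917504000), (377957122048, 34359738368), (122037469184, 122037469184)] :=
  covD_E kZ_eq (.n 0 (.n 2 (.n 2 (.n 2 (.l 0) (.l 0)) (.n 2 (.l 0) (.l 0))) (.n 2 (.n 2 (.l 0) (.l 0)) (.n 2 (.l 0) (.l 0)))) (.n 2 (.n 2 (.n 2 (.l 0) (.l 0)) (.n 2 (.l 0) (.l 0))) (.n 2 (.n 2 (.l 0) (.l 0)) (.n 1 (.l 0) (.l 0)))))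
    [(6414139392, 917504000), (377957122048, 34359738368), (122037469184, 122037469184)] rfl (by decide +kernel)
theorem Z_c0_t24 : CovD 1 gZ [(6414139392, 917504000), (377957122048, 34359738368), (366112407552, 122037469184)] :=
  covD_E kZ_eq (.n 2 (.n 2 (.n 2 (.l 0) (.l 0)) (.n 0 (.n 2 (.l 0) (.l 0)) (.n 2 (.l 0) (.l 0)))) (.n 0 (.n 2 (.n 2 (.l 0) (.l 0)) (.n 2 (.l 0) (.l 0))) (.n 2 (.n 2 (.l 0) (.l 0)) (.n 2 (.l 0) (.l 0)))))
    [(6414139392, 917504000), (377957122048, 34359738368), (366112407552, 122037469184)] rfl (by decide +kernel)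
end

mutual
theorem Z_c0_t27 : CovD 1 gZ [(5955387392, 458752000), (377957122048, 34359738368), (610187345920, 122037469184)] :=
  covD_E kZ_eq (.n 2 (.n 2 (.n 2 (.l 0) (.l 0)) (.n 2 (.l 0) (.l 0))) (.n 2 (.n 2 (.l 0) (.l 0)) (.n 2 (.l 0) (.l 0))))
    [(5955387392, 458752000), (377957122048, 34359738368), (610187345920, 122037469184)] rfl (by decide +kernel)
theorem Z_c0_t28 : CovD 1 gZ [(5955387392, 458752000), (377957122048, 34359738368), (854262284288, 122037469184)] :=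
  covD_E kZ_eq (.n 2 (.n 2 (.n 2 (.l 0) (.l 0)) (.n 2 (.l 0) (.l 0))) (.n 2 (.n 0 (.n 2 (.l 0) (.l 0)) (.n 2 (.l 0) (.l 0))) (.n 2 (.n 0 (.l 0) (.l 0)) (.n 2 (.l 0) (.n 0 (.l 0) (.l 0))))))
    [(5955387392, 458752000), (377957122048, 34359738368), (854262284288, 122037469184)] rfl (by decide +kernel)
end

mutual
theorem Z_c0_t30 : CovD 1 gZ [(6872891392, 458752000), (377957122048, 34359738368), (610187345920, 122037469184)] :=
  covD_E kZ_eq (.n 2 (.n 2 (.n 2 (.l 0) (.l 0)) (.n 2 (.l 0) (.l 0))) (.n 2 (.n 2 (.l 0) (.l 0)) (.n 2 (.l 0) (.l 0))))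
    [(6872891392, 458752000), (377957122048, 34359738368), (610187345920, 122037469184)] rfl (by decide +kernel)
theorem Z_c0_t31 : CovD 1 gZ [(6872891392, 458752000), (377957122048, 34359738368), (854262284288, 122037469184)] :=
  covD_E kZ_eq (.n 2 (.n 2 (.n 2 (.l 0) (.l 0)) (.n 2 (.l 0) (.l 0))) (.n 2 (.n 2 (.l 0) (.l 0)) (.n 2 (.n 2 (.l 0) (.l 0)) (.n 0 (.n 2 (.l 0) (.n 0 (.l 0) (.l 0))) (.n 2 (.l 0) (.n 2 (.l 0) (.n 1 (.l 0) (.l 0))))))))
    [(6872891392, 458752000), (377957122048, 34359738368), (854262284288, 122037469184)] rfl (by decide +kernel)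
end

mutual
theorem Z_c0_t35 : CovD 1 gZ [(6414139392, 917504000), (446676598784, 34359738368), (122037469184, 122037469184)] :=
  covD_E kZ_eq (.n 2 (.n 0 (.n 2 (.n 2 (.l 0) (.l 0)) (.n 2 (.l 0) (.l 0))) (.n 2 (.n 2 (.l 0) (.l 0)) (.n 2 (.l 0) (.l 0)))) (.n 2 (.n 2 (.n 0 (.l 0) (.l 0)) (.l 0)) (.n 2 (.l 0) (.l 0))))
    [(6414139392, 917504000), (446676598784, 34359738368), (122037469184, 122037469184)] rfl (by decide +kernel)
theorem Z_c0_t36 : CovD 1 gZ [(6414139392, 917504000), (446676598784, 34359738368), (366112407552, 122037469184)] :=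
  covD_E kZ_eq (.n 2 (.n 2 (.n 2 (.l 0) (.l 0)) (.n 2 (.l 0) (.l 0))) (.n 2 (.n 2 (.l 0) (.l 0)) (.n 2 (.l 0) (.l 0))))
    [(6414139392, 917504000), (446676598784, 34359738368), (366112407552, 122037469184)] rfl (by decide +kernel)
end

mutual
theorem Z_c0_t37 : CovD 1 gZ [(6414139392, 917504000), (515396075520, 34359738368), (244074938368, 244074938368)] :=
  covD_E kZ_eq (.n 2 (.n 2 (.n 2 (.n 2 (.l 0) (.n 0 (.l 0) (.l 0))) (.n 2 (.n 0 (.l 0) (.l 0)) (.l 0))) (.n 2 (.n 2 (.l 0) (.l 0)) (.n 2 (.l 0) (.l 0)))) (.n 2 (.n 0 (.n 2 (.l 0) (.l 0)) (.n 2 (.l 0) (.l 0))) (.n 2 (.l 0) (.l 0))))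
    [(6414139392, 917504000), (515396075520, 34359738368), (244074938368, 244074938368)] rfl (by decide +kernel)
theorem Z_c0_t39 : CovD 1 gZ [(6414139392, 917504000), (481036337152, 68719476736), (610187345920, 122037469184)] :=
  covD_E kZ_eq (.n 1 (.n 0 (.n 2 (.n 2 (.l 0) (.l 0)) (.n 2 (.l 0) (.l 0))) (.n 2 (.n 2 (.l 0) (.l 0)) (.n 2 (.l 0) (.l 0)))) (.n 2 (.n 2 (.l 0) (.l 0)) (.n 2 (.l 0) (.l 0))))
    [(6414139392, 917504000), (481036337152, 68719476736), (610187345920, 122037469184)] rfl (by decide +kernel)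
end

mutual
theorem Z_c0_t41 : CovD 1 gZ [(6414139392, 917504000), (481036337152, 68719476736), (793243549696, 61018734592)] :=
  covD_E kZ_eq (.n 2 (.n 2 (.l 0) (.l 0)) (.n 0 (.n 2 (.l 0) (.l 0)) (.n 2 (.l 0) (.l 0))))
    [(6414139392, 917504000), (481036337152, 68719476736), (793243549696, 61018734592)] rfl (by decide +kernel)
theorem Z_c0_t43 : CovD 1 gZ [(5955387392, 458752000), (481036337152, 68719476736), (915281018880, 61018734592)] :=
  covD_E kZ_eq (.n 2 (.n 2 (.l 0) (.l 0)) (.n 2 (.n 0 (.l 0) (.l 0)) (.n 2 (.l 0) (.n 1 (.l 0) (.l 0)))))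
    [(5955387392, 458752000), (481036337152, 68719476736), (915281018880, 61018734592)] rfl (by decide +kernel)
end

mutual
theorem Z_c0_t44 : CovD 1 gZ [(6872891392, 458752000), (481036337152, 68719476736), (915281018880, 61018734592)] :=
  covD_E kZ_eq (.n 2 (.n 2 (.l 0) (.l 0)) (.n 1 (.n 2 (.l 0) (.n 2 (.l 0) (.n 0 (.l 0) (.n 0 (.l 0) (.l 0))))) (.n 2 (.l 0) (.n 2 (.l 0) (.l 0)))))
    [(6872891392, 458752000), (481036337152, 68719476736), (915281018880, 61018734592)] rfl (by decide +kernel)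
theorem T_c0 : CovD 1 gT [(6414139392, 917504000), (412316860416, 137438953472)] :=
  covD_E kT_eq (.l 0)
    [(6414139392, 917504000), (412316860416, 137438953472)] rfl (by decide +kernel)
end

theorem S_c0 : CovD 0 gS [(6414139392, 917504000), (412316860416, 137438953472)] :=
  covD_E kS_eq (.l 0)
    [(6414139392, 917504000), (412316860416, 137438953472)] rfl (by decide +kernel)

theorem Z_c0_t4 : CovD 1 gZ [(5955387392, 458752000), (309237645312, 34359738368), (244074938368, 244074938368)] :=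
  covD_split 2 (by decide +kernel) Z_c0_t5 Z_c0_t6

theorem Z_c0_t9 : CovD 1 gZ [(5955387392, 458752000), (309237645312, 34359738368), (854262284288, 122037469184)] :=
  covD_split 2 (by decide +kernel) Z_c0_t10 Z_c0_t11

theorem Z_c0_t7 : CovD 1 gZ [(5955387392, 458752000), (309237645312, 34359738368), (732224815104, 244074938368)] :=
  covD_split 2 (by decide +kernel) Z_c0_t8 Z_c0_t9

theorem Z_c0_t3 : CovD 1 gZ [(5955387392, 458752000), (309237645312, 34359738368), (488149876736, 488149876736)] :=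
  covD_split 2 (by decide +kernel) Z_c0_t4 Z_c0_t7

theorem Z_c0_t13 : CovD 1 gZ [(6872891392, 458752000), (309237645312, 34359738368), (244074938368, 244074938368)] :=
  covD_split 2 (by decide +kernel) Z_c0_t14 Z_c0_t15

theorem Z_c0_t18 : CovD 1 gZ [(6872891392, 458752000), (309237645312, 34359738368), (854262284288, 122037469184)] :=
  covD_split 2 (by decide +kernel) Z_c0_t19 Z_c0_t20

theorem Z_c0_t16 : CovD 1 gZ [(6872891392, 458752000), (309237645312, 34359738368), (732224815104, 244074938368)] :=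
  covD_split 2 (by decide +kernel) Z_c0_t17 Z_c0_t18

theorem Z_c0_t12 : CovD 1 gZ [(6872891392, 458752000), (309237645312, 34359738368), (488149876736, 488149876736)] :=
  covD_split 2 (by decide +kernel) Z_c0_t13 Z_c0_t16

theorem Z_c0_t2 : CovD 1 gZ [(6414139392, 917504000), (309237645312, 34359738368), (488149876736, 488149876736)] :=
  covD_split 0 (by decide +kernel) Z_c0_t3 Z_c0_t12

theorem Z_c0_t22 : CovD 1 gZ [(6414139392, 917504000), (377957122048, 34359738368), (244074938368, 244074938368)] :=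
  covD_split 2 (by decide +kernel) Z_c0_t23 Z_c0_t24

theorem Z_c0_t26 : CovD 1 gZ [(5955387392, 458752000), (377957122048, 34359738368), (732224815104, 244074938368)] :=
  covD_split 2 (by decide +kernel) Z_c0_t27 Z_c0_t28

theorem Z_c0_t29 : CovD 1 gZ [(6872891392, 458752000), (377957122048, 34359738368), (732224815104, 244074938368)] :=
  covD_split 2 (by decide +kernel) Z_c0_t30 Z_c0_t31

theorem Z_c0_t25 : CovD 1 gZ [(6414139392, 917504000), (377957122048, 34359738368), (732224815104, 244074938368)] :=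
  covD_split 0 (by decide +kernel) Z_c0_t26 Z_c0_t29

theorem Z_c0_t21 : CovD 1 gZ [(6414139392, 917504000), (377957122048, 34359738368), (488149876736, 488149876736)] :=
  covD_split 2 (by decide +kernel) Z_c0_t22 Z_c0_t25

theorem Z_c0_t1 : CovD 1 gZ [(6414139392, 917504000), (343597383680, 68719476736), (488149876736, 488149876736)] :=
  covD_split 1 (by decide +kernel) Z_c0_t2 Z_c0_t21

theorem Z_c0_t34 : CovD 1 gZ [(6414139392, 917504000), (446676598784, 34359738368), (244074938368, 244074938368)] :=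
  covD_split 2 (by decide +kernel) Z_c0_t35 Z_c0_t36

theorem Z_c0_t33 : CovD 1 gZ [(6414139392, 917504000), (481036337152, 68719476736), (244074938368, 244074938368)] :=
  covD_split 1 (by decide +kernel) Z_c0_t34 Z_c0_t37

theorem Z_c0_t42 : CovD 1 gZ [(6414139392, 917504000), (481036337152, 68719476736), (915281018880, 61018734592)] :=
  covD_split 0 (by decide +kernel) Z_c0_t43 Z_c0_t44

theorem Z_c0_t40 : CovD 1 gZ [(6414139392, 917504000), (481036337152, 68719476736), (854262284288, 122037469184)] :=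
  covD_split 2 (by decide +kernel) Z_c0_t41 Z_c0_t42

theorem Z_c0_t38 : CovD 1 gZ [(6414139392, 917504000), (481036337152, 68719476736), (732224815104, 244074938368)] :=
  covD_split 2 (by decide +kernel) Z_c0_t39 Z_c0_t40

theorem Z_c0_t32 : CovD 1 gZ [(6414139392, 917504000), (481036337152, 68719476736), (488149876736, 488149876736)] :=
  covD_split 2 (by decide +kernel) Z_c0_t33 Z_c0_t38

theorem Z_c0 : CovD 1 gZ [(6414139392, 917504000), (412316860416, 137438953472), (488149876736, 488149876736)] :=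
  covD_split 1 (by decide +kernel) Z_c0_t1 Z_c0_t32

end Pool.Agent.helper14.NS.Q150b
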