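import Pool.Agent.helper14.NS.Q150b.Tab
import Pool.Agent.helper14.NR.Share

/-!
Generated: programs and compiled forms.
-/

namespace Pool.Agent.helper14.NS.Q150b

open Pool.Agent.helper31.IA (Z)
open Pool.Agent.helper31.IX (Op XOps runX Cov CovD cov_split covD_split)
open Pool.Agent.helper31.IC (TD)
open Pool.Agent.helper63.RG (reloc)
open Pool.Agent.helper63.NF hiding TD
open Pool.Agent.helper4.NS
open Pool.Agent.helper14.CF (xE covD_E)
open Pool.Agent.helper14.NR (share)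

def p_Z_0 : List Op := [
  .const ⟨1099511627776, 0, 0, 0⟩,
  .mul 1 2,
  .scale ⟨2199023255552, 0, 0, 0⟩ 0,
  .exp 1,
  .neg 2,
  .exp 0,
  .mul 2 2,
  .mul 1 1,
  .mul 0 0,
  .add 2 1,
  .scale ⟨549755813888, 0, 0, 0⟩ 0,
  .scale ⟨2199023255552, 0, 0, 0⟩ 12,
  .mul 10 10,
  .lt 0 68719476736,
  .scale ⟨9162596898, 0, 0, 0⟩ 0,
  .const ⟨183251937962, 0, 0, 0⟩,
  .add 1 0,
  .mul 0 3,
  .const ⟨1099511627776, 0, 0, 0⟩,
  .add 1 0,
  .const ⟨65536, 0, 0, 0⟩,
  .rball 1 0,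
  .mul 9 0,
  .add 18 16,
  .scale ⟨549755813888, 0, 0, 0⟩ 0,
  .mul 2 0,
  .mul 3 3,
  .mul 26 0,
  .mul 2 2,
  .mul 28 0,
  .neg 17,
  .exp 0,
  .add 0 30,
  .pos 0,
  .log 0,
  .const ⟨6408896512, 0, 0, 0⟩,
  .sub 34 0,
  .const ⟨412316860416, 0, 0, 0⟩,
  .sub 37 0,
  .mul 0 0,
  .mul 0 1,
  .mul 4 2,
  .mul 5 5,
  .scale ⟨0, 1554103104, 0, 0⟩ 4,
  .scale ⟨4106794944, 0, 0, 0⟩ 4,
  .add 1 0,
  .scale ⟨0, 5343595136, 0, 0⟩ 5,
  .add 1 0,
  .scale ⟨0, 537303622400, 0, 0⟩ 11,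
  .add 1 0,
  .scale ⟨0, 73627061248, 0, 0⟩ 8,
  .add 1 0,
  .scale ⟨158549437023040, 0, 0, 0⟩ 9,
  .add 1 0,
  .const ⟨549505173504, 0, 0, 0⟩,
  .add 1 0,
  .scale ⟨0, 940695616, 0, 0⟩ 17,
  .scale ⟨619109120, 0, 0, 0⟩ 17,
  .add 1 0,
  .scale ⟨0, 321937005696, 0, 0⟩ 22,
  .add 1 0,
  .scale ⟨0, 447056750208, 0, 0⟩ 19,
  .add 1 0,
  .const ⟨0, 307767808, 0, 0⟩,
  .add 1 0,
  .scale ⟨314128256, 0, 0, 0⟩ 26,
  .scale ⟨445276480, 0, 0, 0⟩ 26,
  .add 1 0,
  .scale ⟨66451595712, 0, 0, 0⟩ 31,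
  .add 1 0,
  .const ⟨0, 317982400, 0, 0⟩,
  .add 1 0,
  .scale ⟨0, 41137152, 0, 0⟩ 33,
  .scale ⟨0, 8821378880, 0, 0⟩ 36,
  .add 1 0,
  .const ⟨105969728, 0, 0, 0⟩,
  .add 1 0,
  .scale ⟨3839424, 0, 0, 0⟩ 38,
  .const ⟨0, 16761600, 0, 0⟩,
  .add 1 0,
  .scale ⟨0, 0, 1099511627776, 0⟩ 80,
  .scale ⟨549755813888, 0, 0, 0⟩ 0,
  .add 0 79,
  .inv 0,
  .mul 3 0,
  .scale ⟨0, 34495765861184, 0, 0⟩ 0,
  .const ⟨64474301117568, 0, 0, 0⟩,
  .add 1 0,
  .mul 3 0,
  .const ⟨0, 100122293988992, 0, 0⟩,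
  .add 1 0,
  .mul 6 0,
  .const ⟨90199925461760, 0, 0, 0⟩,
  .add 1 0,
  .mul 9 0,
  .const ⟨0, 71781001845120, 0, 0⟩,
  .add 1 0,
  .mul 12 0,
  .const ⟨38549726804608, 0, 0, 0⟩,
  .add 1 0,
  .mul 15 0,
  .scale ⟨243301045440, 0, 0, 0⟩ 62,
  .scale ⟨0, 117764088521536, 0, 0⟩ 65,
  .add 1 0,
  .const ⟨0, 18710625767424, 0, 0⟩,
  .add 1 0,
  .add 5 0,
  .mul 22 0,
  .scale ⟨0, 22456941120, 0, 0⟩ 69,
  .scale ⟨254442660523968, 0, 0, 0⟩ 72,
  .add 1 0,
  .const ⟨6219925250944, 0, 0, 0⟩,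
  .add 1 0,
  .add 5 0,
  .mul 29 0,
  .scale ⟨40151361344, 0, 0, 0⟩ 76,
  .scale ⟨0, 260294851522688, 0, 0⟩ 79,
  .add 1 0,
  .const ⟨0, 1561303606592, 0, 0⟩,
  .add 1 0,
  .add 5 0,
  .mul 36 0,
  .scale ⟨0, 52038176640, 0, 0⟩ 83,
  .scale ⟨132391790434496, 0, 0, 0⟩ 86,
  .add 1 0,
  .const ⟨1080492807680, 0, 0, 0⟩,
  .add 1 0,
  .add 5 0,
  .mul 43 0,
  .scale ⟨33752478336, 0, 0, 0⟩ 90,
  .scale ⟨0, 60392710244224, 0, 0⟩ 93,
  .add 1 0,
  .const ⟨1601486825536, 0, 0, 0⟩,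
  .add 1 0,
  .add 5 0,
  .mul 50 0,
  .scale ⟨0, 21457378304, 0, 0⟩ 97,
  .scale ⟨10703731292864, 0, 0, 0⟩ 100,
  .add 1 0,
  .const ⟨3454378155584, 0, 0, 0⟩,
  .add 1 0,
  .add 5 0,
  .mul 57 0,
  .scale ⟨32803343872, 0, 0, 0⟩ 104,
  .scale ⟨0, 7964554944, 0, 0⟩ 104,
  .add 1 0,
  .scale ⟨1164376228288, 0, 0, 0⟩ 109,
  .add 1 0,
  .scale ⟨16495104649664, 0, 0, 0⟩ 106,
  .add 1 0,
  .scale ⟨0, 860335796473408, 0, 0⟩ 107,
  .add 1 0,
  .const ⟨9715980288, 0, 0, 0⟩,
  .add 1 0,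
  .mul 0 153,
  .add 12 0,
  .mul 154 154,
  .scale ⟨5703716569088, 0, 0, 0⟩ 0,
  .const ⟨1726576852992, 0, 0, 0⟩,
  .add 1 0,
  .scale ⟨4398046511104, 0, 0, 0⟩ 159,
  .mul 76 1,
  .scale ⟨4398046511104, 0, 0, 0⟩ 0,
  .add 2 0,
  .scale ⟨123901050880, 0, 0, 0⟩ 125,
  .scale ⟨0, 947978240, 0, 0⟩ 125,
  .add 1 0,
  .scale ⟨0, 6272838533120, 0, 0⟩ 126,
  .add 1 0,
  .scale ⟨0, 14423118315520, 0, 0⟩ 132,
  .add 1 0,
  .scale ⟨0, 3707309064192, 0, 0⟩ 129,
  .add 1 0,
  .const ⟨191177883648, 0, 0, 0⟩,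
  .add 1 0,
  .scale ⟨0, 4260607557632, 0, 0⟩ 170,
  .neg 0,
  .exp 0,
  .mul 3 0,
  .mul 0 15,
  .scale ⟨879662989312, 0, 0, 0⟩ 16,
  .add 0 178,
  .pos 0,
  .inv 0,
  .mul 3 0,
  .neg 28,
  .exp 0,
  .add 0 183,
  .pos 0,
  .log 0,
  .mul 4 189,
  .sub 186 0,
  .pos 0,
  .log 0,
  .mul 5 2,
  .add 0 189,
  .pos 0,
  .log 0,
  .sub 6 0,
  .add 194 160,
  .sub 1 0,
  .mul 0 195,
  .exp 0,
  .sub 5 8,
  .add 0 44,
  .mul 0 199,
  .exp 0,
  .mul 179 179,
  .scale ⟨274877906944, 0, 0, 0⟩ 0,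
  .mul 48 0,
  .scale ⟨1649267441664, 0, 0, 0⟩ 0,
  .add 0 204,
  .mul 48 0,
  .mul 209 0,
  .scale ⟨0, 0, 1099511627776, 0⟩ 0,
  .mul 0 0,
  .sub 7 0,
  .mul 14 14,
  .mul 0 1,
  .mul 58 0,
  .scale ⟨4398046511104, 0, 0, 0⟩ 0,
  .sub 214 0,
  .pos 0,
  .log 0,
  .scale ⟨549755813888, 0, 0, 0⟩ 0,
  .exp 0,
  .mul 219 7,
  .mul 17 19,
  .scale ⟨2199023255552, 0, 0, 0⟩ 10,
  .add 1 0,
  .mul 3 0,
  .mul 15 5,
  .mul 28 0,
  .add 2 0,
  .mul 26 0,
  .scale ⟨4398046511104, 0, 0, 0⟩ 0,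
  .mul 229 0,
  .add 0 229,
  .pos 0,
  .log 0,
  .scale ⟨549755813888, 0, 0, 0⟩ 0,
  .exp 0,
  .add 0 233,
  .pos 0,
  .inv 0,
  .mul 7 0,
  .scale ⟨549755813888, 0, 0, 0⟩ 210,
  .sub 1 0,
  .const ⟨9011915128832, 0, 0, 0⟩,
  .add 212 0,
  .pos 0,
  .mul 2 2,
  .sub 0 214,
  .inv 2,
  .mul 1 0,
  .lt 0 1099510579200,
  .mul 245 48,
  .mul 0 37,
  .scale ⟨2199023255552, 0, 0, 0⟩ 0,
  .sub 29 0,
  .pos 0,
  .add 245 243,
  .mul 41 0,
  .mul 251 0,
  .add 0 241,
  .pos 0,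
  .inv 0,
  .mul 243 3,
  .add 0 226,
  .mul 2 0,
  .pos 257,
  .inv 257,
  .sub 19 1,
  .mul 0 1,
  .add 9 235,
  .mul 253 8,
  .inv 1,
  .mul 1 0,
  .mul 0 4,
  .mul 265 0,
  .add 0 265,
  .scale ⟨13108641792, 0, 0, 0⟩ 230,
  .scale ⟨0, 50882936832, 0, 0⟩ 230,
  .add 1 0,
  .scale ⟨37800312832, 0, 0, 0⟩ 231,
  .add 1 0,
  .scale ⟨1340043493376, 0, 0, 0⟩ 237,
  .add 1 0,
  .scale ⟨0, 324324622336, 0, 0⟩ 234,
  .add 1 0,
  .const ⟨1798059851776, 0, 0, 0⟩,
  .add 1 0,
  .scale ⟨2199023255552, 0, 0, 0⟩ 13,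
  .inv 12,
  .mul 16 0,
  .mul 2 0,
  .mul 275 275,
  .inv 5,
  .mul 1 0,
  .mul 3 0,
  .lt 0 1099510579200,
  .mul 286 47,
  .add 0 276,
  .pos 0,
  .inv 0,
  .mul 281 0,
  .sub 51 265,
  .add 283 2,
  .mul 1 0,
  .mul 3 0,
  .mul 286 269,
  .scale ⟨2199023255552, 0, 0, 0⟩ 0,
  .add 2 0,
  .scale ⟨0, 65781719105536, 0, 0⟩ 262,
  .const ⟨0, 766920097792, 0, 0⟩,
  .add 1 0,
  .sub 3 0,
  .pos 0,
  .inv 0,
  .scale ⟨31362867265536, 0, 0, 0⟩ 0,
  .add 2 0,
  .pos 0,
  .inv 0,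
  .scale ⟨0, 3564089472, 0, 0⟩ 268,
  .scale ⟨8586365167872, 0, 0, 0⟩ 271,
  .add 1 0,
  .const ⟨34458489728, 0, 0, 0⟩,
  .add 1 0,
  .scale ⟨145254496128, 0, 0, 0⟩ 273,
  .scale ⟨19149068681728, 0, 0, 0⟩ 276,
  .add 1 0,
  .const ⟨3420294144, 0, 0, 0⟩,
  .add 1 0,
  .mul 13 0,
  .add 6 0,
  .mul 0 12,
  .scale ⟨0, 26368, 0, 0⟩ 21,
  .const ⟨1203584, 0, 0, 0⟩,
  .add 1 0,
  .mul 24 0,
  .add 0 244,
  .mul 26 0,
  .add 0 249,
  .mul 28 0,
  .add 0 256,
  .mul 30 0,
  .add 0 265,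
  .mul 32 0,
  .add 12 276,
  .add 1 0,
  .mul 38 0,
  .add 0 321,
  .neg 0,
  .exp 0,
  .add 0 335,
  .pos 0,
  .log 0,
  .add 184 152,
  .sub 0 1,
  .scale ⟨549755813888, 0, 0, 0⟩ 108,
  .mul 0 83,
  .sub 2 0,
  .exp 0,
  .scale ⟨0, 70064537600, 0, 0⟩ 261,
  .const ⟨0, 124069937152, 0, 0⟩,
  .add 1 0,
  .mul 264 0,
  .const ⟨84081246208, 0, 0, 0⟩,
  .add 1 0,
  .mul 267 0,
  .scale ⟨5063901184, 0, 0, 0⟩ 314,
  .scale ⟨12378965082112, 0, 0, 0⟩ 317,
  .add 1 0,
  .const ⟨0, 48919937024, 0, 0⟩,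
  .add 1 0,
  .add 5 0,
  .mul 274 0,
  .scale ⟨2882732032, 0, 0, 0⟩ 321,
  .scale ⟨56051957760, 0, 0, 0⟩ 324,
  .add 1 0,
  .const ⟨18194169856, 0, 0, 0⟩,
  .add 1 0,
  .add 5 0,
  .mul 281 0,
  .scale ⟨3725066240, 0, 0, 0⟩ 328,
  .scale ⟨9149677568, 0, 0, 0⟩ 328,
  .add 1 0,
  .scale ⟨2347873271808, 0, 0, 0⟩ 333,
  .add 1 0,
  .scale ⟨2543888826368, 0, 0, 0⟩ 330,
  .add 1 0,
  .scale ⟨1328927453544448, 0, 0, 0⟩ 331,
  .add 1 0,
  .const ⟨1095501086720, 0, 0, 0⟩,
  .add 1 0,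
  .add 11 0,
  .inv 199,
  .mul 0 198,
  .scale ⟨879662989312, 0, 0, 0⟩ 140,
  .add 0 379,
  .pos 0,
  .scale ⟨36969644032, 0, 0, 0⟩ 344,
  .scale ⟨0, 225070284800, 0, 0⟩ 344,
  .add 1 0,
  .scale ⟨0, 2127789096960, 0, 0⟩ 345,
  .add 1 0,
  .scale ⟨0, 2896820895744, 0, 0⟩ 351,
  .add 1 0,
  .scale ⟨23708043378688, 0, 0, 0⟩ 348,
  .add 1 0,
  .const ⟨116237271040, 0, 0, 0⟩,
  .add 1 0,
  .scale ⟨91534343012352, 0, 0, 0⟩ 389,
  .neg 0,
  .exp 0,
  .mul 3 0,
  .scale ⟨2199023255552, 0, 0, 0⟩ 0,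
  .add 158 372,
  .mul 1 0,
  .inv 18,
  .mul 1 0,
  .const ⟨0, 0, 0, 0⟩,
  .mul 25 58,
  .mul 0 67,
  .mul 3 25,
  .mul 1 0,
  .rball 4 0,
  .sub 406 30,
  .mul 411 0,
  .sub 408 65,
  .mul 0 31,
  .mul 34 0,
  .add 3 0,
  .add 0 6,
  .lt 0 1099510579200]

set_option maxRecDepth 1000000 in
noncomputable def c_Z_0 {α : Type} (cst : Z → α) (add sub mul : α → α → α) (scale : Z → α → α)
    (neg inv exp log : α → α) (ok : α → Bool) (isPos : Nat → α → Bool) (isLt : α → Nat → Bool)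
    (ball : Nat → α → α) (rball : α → α → α) : List α → Bool
  | [x0, x1, x2, x3] =>
  let v0 := cst ⟨1099511627776, 0, 0, 0⟩; ok v0 && (
  let v1 := mul x0 x1; ok v1 && (
  let v2 := scale ⟨2199023255552, 0, 0, 0⟩ v1; ok v2 && (
  let v3 := exp v1; ok v3 && (
  let v4 := neg v1; ok v4 && (
  let v5 := exp v4; ok v5 && (
  let v6 := mul v3 v3; ok v6 && (
  let v7 := mul v5 v5; ok v7 && (
  let v8 := mul v7 v7; ok v8 && (
  let v9 := add v6 v7; ok v9 && (
  let v10 := scale ⟨549755813888, 0, 0, 0⟩ v9; ok v10 && (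
  let v11 := scale ⟨2199023255552, 0, 0, 0⟩ x1; ok v11 && (
  let v12 := mul v1 v1; ok v12 && (
  isLt v12 68719476736 && (
  let v13 := scale ⟨9162596898, 0, 0, 0⟩ v12; ok v13 && (
  let v14 := cst ⟨183251937962, 0, 0, 0⟩; ok v14 && (
  let v15 := add v13 v14; ok v15 && (
  let v16 := mul v15 v12; ok v16 && (
  let v17 := cst ⟨1099511627776, 0, 0, 0⟩; ok v17 && (
  let v18 := add v16 v17; ok v18 && (
  let v19 := cst ⟨65536, 0, 0, 0⟩; ok v19 && (
  let v20 := rball v18 v19; ok v20 && (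
  let v21 := mul v11 v20; ok v21 && (
  let v22 := add v3 v5; ok v22 && (
  let v23 := scale ⟨549755813888, 0, 0, 0⟩ v22; ok v23 && (
  let v24 := mul v21 v23; ok v24 && (
  let v25 := mul v21 v21; ok v25 && (
  let v26 := mul x0 v25; ok v26 && (
  let v27 := mul v24 v24; ok v27 && (
  let v28 := mul x0 v27; ok v28 && (
  let v29 := neg v11; ok v29 && (
  let v30 := exp v29; ok v30 && (
  let v31 := add v30 v0; ok v31 && (
  isPos 3 v31 && (
  let v32 := log v31; ok v32 && (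
  let v33 := cst ⟨6408896512, 0, 0, 0⟩; ok v33 && (
  let v34 := sub x0 v33; ok v34 && (
  let v35 := cst ⟨412316860416, 0, 0, 0⟩; ok v35 && (
  let v36 := sub x1 v35; ok v36 && (
  let v37 := mul v36 v36; ok v37 && (
  let v38 := mul v37 v36; ok v38 && (
  let v39 := mul v34 v36; ok v39 && (
  let v40 := mul v34 v34; ok v40 && (
  let v41 := scale ⟨0, 1554103104, 0, 0⟩ v36; ok v41 && (
  let v42 := scale ⟨4106794944, 0, 0, 0⟩ v37; ok v42 && (
  let v43 := add v41 v42; ok v43 && (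
  let v44 := scale ⟨0, 5343595136, 0, 0⟩ v38; ok v44 && (
  let v45 := add v43 v44; ok v45 && (
  let v46 := scale ⟨0, 537303622400, 0, 0⟩ v34; ok v46 && (
  let v47 := add v45 v46; ok v47 && (
  let v48 := scale ⟨0, 73627061248, 0, 0⟩ v39; ok v48 && (
  let v49 := add v47 v48; ok v49 && (
  let v50 := scale ⟨158549437023040, 0, 0, 0⟩ v40; ok v50 && (
  let v51 := add v49 v50; ok v51 && (
  let v52 := cst ⟨549505173504, 0, 0, 0⟩; ok v52 && (
  let v53 := add v51 v52; ok v53 && (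
  let v54 := scale ⟨0, 940695616, 0, 0⟩ v36; ok v54 && (
  let v55 := scale ⟨619109120, 0, 0, 0⟩ v37; ok v55 && (
  let v56 := add v54 v55; ok v56 && (
  let v57 := scale ⟨0, 321937005696, 0, 0⟩ v34; ok v57 && (
  let v58 := add v56 v57; ok v58 && (
  let v59 := scale ⟨0, 447056750208, 0, 0⟩ v39; ok v59 && (
  let v60 := add v58 v59; ok v60 && (
  let v61 := cst ⟨0, 307767808, 0, 0⟩; ok v61 && (
  let v62 := add v60 v61; ok v62 && (
  let v63 := scale ⟨314128256, 0, 0, 0⟩ v36; ok v63 && (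
  let v64 := scale ⟨445276480, 0, 0, 0⟩ v37; ok v64 && (
  let v65 := add v63 v64; ok v65 && (
  let v66 := scale ⟨66451595712, 0, 0, 0⟩ v34; ok v66 && (
  let v67 := add v65 v66; ok v67 && (
  let v68 := cst ⟨0, 317982400, 0, 0⟩; ok v68 && (
  let v69 := add v67 v68; ok v69 && (
  let v70 := scale ⟨0, 41137152, 0, 0⟩ v36; ok v70 && (
  let v71 := scale ⟨0, 8821378880, 0, 0⟩ v34; ok v71 && (
  let v72 := add v70 v71; ok v72 && (
  let v73 := cst ⟨105969728, 0, 0, 0⟩; ok v73 && (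
  let v74 := add v72 v73; ok v74 && (
  let v75 := scale ⟨3839424, 0, 0, 0⟩ v36; ok v75 && (
  let v76 := cst ⟨0, 16761600, 0, 0⟩; ok v76 && (
  let v77 := add v75 v76; ok v77 && (
  let v78 := scale ⟨0, 0, 1099511627776, 0⟩ x2; ok v78 && (
  let v79 := scale ⟨549755813888, 0, 0, 0⟩ v78; ok v79 && (
  let v80 := add v79 v0; ok v80 && (
  let v81 := inv v80; ok v81 && (
  let v82 := mul v78 v81; ok v82 && (
  let v83 := scale ⟨0, 34495765861184, 0, 0⟩ v82; ok v83 && (
  let v84 := cst ⟨64474301117568, 0, 0, 0⟩; ok v84 && (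
  let v85 := add v83 v84; ok v85 && (
  let v86 := mul v82 v85; ok v86 && (
  let v87 := cst ⟨0, 100122293988992, 0, 0⟩; ok v87 && (
  let v88 := add v86 v87; ok v88 && (
  let v89 := mul v82 v88; ok v89 && (
  let v90 := cst ⟨90199925461760, 0, 0, 0⟩; ok v90 && (
  let v91 := add v89 v90; ok v91 && (
  let v92 := mul v82 v91; ok v92 && (
  let v93 := cst ⟨0, 71781001845120, 0, 0⟩; ok v93 && (
  let v94 := add v92 v93; ok v94 && (
  let v95 := mul v82 v94; ok v95 && (
  let v96 := cst ⟨38549726804608, 0, 0, 0⟩; ok v96 && (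
  let v97 := add v95 v96; ok v97 && (
  let v98 := mul v82 v97; ok v98 && (
  let v99 := scale ⟨243301045440, 0, 0, 0⟩ v36; ok v99 && (
  let v100 := scale ⟨0, 117764088521536, 0, 0⟩ v34; ok v100 && (
  let v101 := add v99 v100; ok v101 && (
  let v102 := cst ⟨0, 18710625767424, 0, 0⟩; ok v102 && (
  let v103 := add v101 v102; ok v103 && (
  let v104 := add v98 v103; ok v104 && (
  let v105 := mul v82 v104; ok v105 && (
  let v106 := scale ⟨0, 22456941120, 0, 0⟩ v36; ok v106 && (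
  let v107 := scale ⟨254442660523968, 0, 0, 0⟩ v34; ok v107 && (
  let v108 := add v106 v107; ok v108 && (
  let v109 := cst ⟨6219925250944, 0, 0, 0⟩; ok v109 && (
  let v110 := add v108 v109; ok v110 && (
  let v111 := add v105 v110; ok v111 && (
  let v112 := mul v82 v111; ok v112 && (
  let v113 := scale ⟨40151361344, 0, 0, 0⟩ v36; ok v113 && (
  let v114 := scale ⟨0, 260294851522688, 0, 0⟩ v34; ok v114 && (
  let v115 := add v113 v114; ok v115 && (
  let v116 := cst ⟨0, 1561303606592, 0, 0⟩; ok v116 && (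
  let v117 := add v115 v116; ok v117 && (
  let v118 := add v112 v117; ok v118 && (
  let v119 := mul v82 v118; ok v119 && (
  let v120 := scale ⟨0, 52038176640, 0, 0⟩ v36; ok v120 && (
  let v121 := scale ⟨132391790434496, 0, 0, 0⟩ v34; ok v121 && (
  let v122 := add v120 v121; ok v122 && (
  let v123 := cst ⟨1080492807680, 0, 0, 0⟩; ok v123 && (
  let v124 := add v122 v123; ok v124 && (
  let v125 := add v119 v124; ok v125 && (
  let v126 := mul v82 v125; ok v126 && (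
  let v127 := scale ⟨33752478336, 0, 0, 0⟩ v36; ok v127 && (
  let v128 := scale ⟨0, 60392710244224, 0, 0⟩ v34; ok v128 && (
  let v129 := add v127 v128; ok v129 && (
  let v130 := cst ⟨1601486825536, 0, 0, 0⟩; ok v130 && (
  let v131 := add v129 v130; ok v131 && (
  let v132 := add v126 v131; ok v132 && (
  let v133 := mul v82 v132; ok v133 && (
  let v134 := scale ⟨0, 21457378304, 0, 0⟩ v36; ok v134 && (
  let v135 := scale ⟨10703731292864, 0, 0, 0⟩ v34; ok v135 && (
  let v136 := add v134 v135; ok v136 && (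
  let v137 := cst ⟨3454378155584, 0, 0, 0⟩; ok v137 && (
  let v138 := add v136 v137; ok v138 && (
  let v139 := add v133 v138; ok v139 && (
  let v140 := mul v82 v139; ok v140 && (
  let v141 := scale ⟨32803343872, 0, 0, 0⟩ v36; ok v141 && (
  let v142 := scale ⟨0, 7964554944, 0, 0⟩ v37; ok v142 && (
  let v143 := add v141 v142; ok v143 && (
  let v144 := scale ⟨1164376228288, 0, 0, 0⟩ v34; ok v144 && (
  let v145 := add v143 v144; ok v145 && (
  let v146 := scale ⟨16495104649664, 0, 0, 0⟩ v39; ok v146 && (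
  let v147 := add v145 v146; ok v147 && (
  let v148 := scale ⟨0, 860335796473408, 0, 0⟩ v40; ok v148 && (
  let v149 := add v147 v148; ok v149 && (
  let v150 := cst ⟨9715980288, 0, 0, 0⟩; ok v150 && (
  let v151 := add v149 v150; ok v151 && (
  let v152 := mul v151 x1; ok v152 && (
  let v153 := add v140 v152; ok v153 && (
  let v154 := mul x0 x0; ok v154 && (
  let v155 := scale ⟨5703716569088, 0, 0, 0⟩ v154; ok v155 && (
  let v156 := cst ⟨1726576852992, 0, 0, 0⟩; ok v156 && (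
  let v157 := add v155 v156; ok v157 && (
  let v158 := scale ⟨4398046511104, 0, 0, 0⟩ x1; ok v158 && (
  let v159 := mul v82 v157; ok v159 && (
  let v160 := scale ⟨4398046511104, 0, 0, 0⟩ v159; ok v160 && (
  let v161 := add v158 v160; ok v161 && (
  let v162 := scale ⟨123901050880, 0, 0, 0⟩ v36; ok v162 && (
  let v163 := scale ⟨0, 947978240, 0, 0⟩ v37; ok v163 && (
  let v164 := add v162 v163; ok v164 && (
  let v165 := scale ⟨0, 6272838533120, 0, 0⟩ v38; ok v165 && (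
  let v166 := add v164 v165; ok v166 && (
  let v167 := scale ⟨0, 14423118315520, 0, 0⟩ v34; ok v167 && (
  let v168 := add v166 v167; ok v168 && (
  let v169 := scale ⟨0, 3707309064192, 0, 0⟩ v39; ok v169 && (
  let v170 := add v168 v169; ok v170 && (
  let v171 := cst ⟨191177883648, 0, 0, 0⟩; ok v171 && (
  let v172 := add v170 v171; ok v172 && (
  let v173 := scale ⟨0, 4260607557632, 0, 0⟩ v2; ok v173 && (
  let v174 := neg v173; ok v174 && (
  let v175 := exp v174; ok v175 && (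
  let v176 := mul v172 v175; ok v176 && (
  let v177 := mul v176 v161; ok v177 && (
  let v178 := scale ⟨879662989312, 0, 0, 0⟩ v161; ok v178 && (
  let v179 := add v178 v0; ok v179 && (
  isPos 3 v179 && (
  let v180 := inv v179; ok v180 && (
  let v181 := mul v177 v180; ok v181 && (
  let v182 := neg v153; ok v182 && (
  let v183 := exp v182; ok v183 && (
  let v184 := add v183 v0; ok v184 && (
  isPos 3 v184 && (
  let v185 := log v184; ok v185 && (
  let v186 := mul v181 x3; ok v186 && (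
  let v187 := sub v0 v186; ok v187 && (
  isPos 3 v187 && (
  let v188 := log v187; ok v188 && (
  let v189 := mul v183 v186; ok v189 && (
  let v190 := add v189 v0; ok v190 && (
  isPos 3 v190 && (
  let v191 := log v190; ok v191 && (
  let v192 := sub v185 v191; ok v192 && (
  let v193 := add x1 v32; ok v193 && (
  let v194 := sub v192 v193; ok v194 && (
  let v195 := mul v194 x0; ok v195 && (
  let v196 := exp v195; ok v196 && (
  let v197 := sub v191 v188; ok v197 && (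
  let v198 := add v197 v153; ok v198 && (
  let v199 := mul v198 x0; ok v199 && (
  let v200 := exp v199; ok v200 && (
  let v201 := mul v21 v21; ok v201 && (
  let v202 := scale ⟨274877906944, 0, 0, 0⟩ v201; ok v202 && (
  let v203 := mul v154 v202; ok v203 && (
  let v204 := scale ⟨1649267441664, 0, 0, 0⟩ v203; ok v204 && (
  let v205 := add v204 v0; ok v205 && (
  let v206 := mul v157 v205; ok v206 && (
  let v207 := mul x2 v206; ok v207 && (
  let v208 := scale ⟨0, 0, 1099511627776, 0⟩ v207; ok v208 && (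
  let v209 := mul v208 v208; ok v209 && (
  let v210 := sub v202 v209; ok v210 && (
  let v211 := mul v196 v196; ok v211 && (
  let v212 := mul v211 v210; ok v212 && (
  let v213 := mul v154 v212; ok v213 && (
  let v214 := scale ⟨4398046511104, 0, 0, 0⟩ v213; ok v214 && (
  let v215 := sub v0 v214; ok v215 && (
  isPos 3 v215 && (
  let v216 := log v215; ok v216 && (
  let v217 := scale ⟨549755813888, 0, 0, 0⟩ v216; ok v217 && (
  let v218 := exp v217; ok v218 && (
  let v219 := mul x0 v211; ok v219 && (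
  let v220 := mul v202 v200; ok v220 && (
  let v221 := scale ⟨2199023255552, 0, 0, 0⟩ v210; ok v221 && (
  let v222 := add v220 v221; ok v222 && (
  let v223 := mul v219 v222; ok v223 && (
  let v224 := mul v208 v218; ok v224 && (
  let v225 := mul v196 v224; ok v225 && (
  let v226 := add v223 v225; ok v226 && (
  let v227 := mul v200 v226; ok v227 && (
  let v228 := scale ⟨4398046511104, 0, 0, 0⟩ v227; ok v228 && (
  let v229 := mul x0 v228; ok v229 && (
  let v230 := add v229 v0; ok v230 && (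
  isPos 3 v230 && (
  let v231 := log v230; ok v231 && (
  let v232 := scale ⟨549755813888, 0, 0, 0⟩ v231; ok v232 && (
  let v233 := exp v232; ok v233 && (
  let v234 := add v233 v0; ok v234 && (
  isPos 3 v234 && (
  let v235 := inv v234; ok v235 && (
  let v236 := mul v228 v235; ok v236 && (
  let v237 := scale ⟨549755813888, 0, 0, 0⟩ v26; ok v237 && (
  let v238 := sub v236 v237; ok v238 && (
  let v239 := cst ⟨9011915128832, 0, 0, 0⟩; ok v239 && (
  let v240 := add v27 v239; ok v240 && (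
  isPos 3 v240 && (
  let v241 := mul v238 v238; ok v241 && (
  let v242 := sub v241 v27; ok v242 && (
  let v243 := inv v240; ok v243 && (
  let v244 := mul v242 v243; ok v244 && (
  isLt v244 1099510579200 && (
  let v245 := mul x0 v196; ok v245 && (
  let v246 := mul v245 v208; ok v246 && (
  let v247 := scale ⟨2199023255552, 0, 0, 0⟩ v246; ok v247 && (
  let v248 := sub v218 v247; ok v248 && (
  isPos 3 v248 && (
  let v249 := add v3 v5; ok v249 && (
  let v250 := mul v208 v249; ok v250 && (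
  let v251 := mul x0 v250; ok v251 && (
  let v252 := add v251 v10; ok v252 && (
  isPos 3 v252 && (
  let v253 := inv v252; ok v253 && (
  let v254 := mul v10 v250; ok v254 && (
  let v255 := add v254 v28; ok v255 && (
  let v256 := mul v253 v255; ok v256 && (
  isPos 3 x0 && (
  let v257 := inv x0; ok v257 && (
  let v258 := sub v238 v256; ok v258 && (
  let v259 := mul v258 v257; ok v259 && (
  let v260 := add v250 v24; ok v260 && (
  let v261 := mul v7 v252; ok v261 && (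
  let v262 := inv v260; ok v262 && (
  let v263 := mul v261 v262; ok v263 && (
  let v264 := mul v263 v259; ok v264 && (
  let v265 := mul x0 v264; ok v265 && (
  let v266 := add v265 v0; ok v266 && (
  let v267 := scale ⟨13108641792, 0, 0, 0⟩ v36; ok v267 && (
  let v268 := scale ⟨0, 50882936832, 0, 0⟩ v37; ok v268 && (
  let v269 := add v267 v268; ok v269 && (
  let v270 := scale ⟨37800312832, 0, 0, 0⟩ v38; ok v270 && (
  let v271 := add v269 v270; ok v271 && (
  let v272 := scale ⟨1340043493376, 0, 0, 0⟩ v34; ok v272 && (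
  let v273 := add v271 v272; ok v273 && (
  let v274 := scale ⟨0, 324324622336, 0, 0⟩ v39; ok v274 && (
  let v275 := add v273 v274; ok v275 && (
  let v276 := cst ⟨1798059851776, 0, 0, 0⟩; ok v276 && (
  let v277 := add v275 v276; ok v277 && (
  let v278 := scale ⟨2199023255552, 0, 0, 0⟩ v264; ok v278 && (
  let v279 := inv v266; ok v279 && (
  let v280 := mul v263 v279; ok v280 && (
  let v281 := mul v278 v280; ok v281 && (
  let v282 := mul v6 v6; ok v282 && (
  let v283 := inv v277; ok v283 && (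
  let v284 := mul v282 v283; ok v284 && (
  let v285 := mul v281 v284; ok v285 && (
  isLt v285 1099510579200 && (
  let v286 := mul x0 v238; ok v286 && (
  let v287 := add v286 v10; ok v287 && (
  isPos 3 v287 && (
  let v288 := inv v287; ok v288 && (
  let v289 := mul v7 v288; ok v289 && (
  let v290 := sub v238 v24; ok v290 && (
  let v291 := add v7 v288; ok v291 && (
  let v292 := mul v290 v291; ok v292 && (
  let v293 := mul v289 v292; ok v293 && (
  let v294 := mul v7 v24; ok v294 && (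
  let v295 := scale ⟨2199023255552, 0, 0, 0⟩ v294; ok v295 && (
  let v296 := add v293 v295; ok v296 && (
  let v297 := scale ⟨0, 65781719105536, 0, 0⟩ v34; ok v297 && (
  let v298 := cst ⟨0, 766920097792, 0, 0⟩; ok v298 && (
  let v299 := add v297 v298; ok v299 && (
  let v300 := sub v296 v299; ok v300 && (
  isPos 3 v300 && (
  let v301 := inv v300; ok v301 && (
  let v302 := scale ⟨31362867265536, 0, 0, 0⟩ v301; ok v302 && (
  let v303 := add v300 v302; ok v303 && (
  isPos 3 v303 && (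
  let v304 := inv v303; ok v304 && (
  let v305 := scale ⟨0, 3564089472, 0, 0⟩ v36; ok v305 && (
  let v306 := scale ⟨8586365167872, 0, 0, 0⟩ v34; ok v306 && (
  let v307 := add v305 v306; ok v307 && (
  let v308 := cst ⟨34458489728, 0, 0, 0⟩; ok v308 && (
  let v309 := add v307 v308; ok v309 && (
  let v310 := scale ⟨145254496128, 0, 0, 0⟩ v36; ok v310 && (
  let v311 := scale ⟨19149068681728, 0, 0, 0⟩ v34; ok v311 && (
  let v312 := add v310 v311; ok v312 && (
  let v313 := cst ⟨3420294144, 0, 0, 0⟩; ok v313 && (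
  let v314 := add v312 v313; ok v314 && (
  let v315 := mul v301 v314; ok v315 && (
  let v316 := add v309 v315; ok v316 && (
  let v317 := mul v316 v304; ok v317 && (
  let v318 := scale ⟨0, 26368, 0, 0⟩ v296; ok v318 && (
  let v319 := cst ⟨1203584, 0, 0, 0⟩; ok v319 && (
  let v320 := add v318 v319; ok v320 && (
  let v321 := mul v296 v320; ok v321 && (
  let v322 := add v321 v77; ok v322 && (
  let v323 := mul v296 v322; ok v323 && (
  let v324 := add v323 v74; ok v324 && (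
  let v325 := mul v296 v324; ok v325 && (
  let v326 := add v325 v69; ok v326 && (
  let v327 := mul v296 v326; ok v327 && (
  let v328 := add v327 v62; ok v328 && (
  let v329 := mul v296 v328; ok v329 && (
  let v330 := add v317 v53; ok v330 && (
  let v331 := add v329 v330; ok v331 && (
  let v332 := mul v293 v331; ok v332 && (
  let v333 := add v332 v11; ok v333 && (
  let v334 := neg v333; ok v334 && (
  let v335 := exp v334; ok v335 && (
  let v336 := add v335 v0; ok v336 && (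
  isPos 3 v336 && (
  let v337 := log v336; ok v337 && (
  let v338 := add v153 v185; ok v338 && (
  let v339 := sub v338 v337; ok v339 && (
  let v340 := scale ⟨549755813888, 0, 0, 0⟩ v231; ok v340 && (
  let v341 := mul v340 v257; ok v341 && (
  let v342 := sub v339 v341; ok v342 && (
  let v343 := exp v342; ok v343 && (
  let v344 := scale ⟨0, 70064537600, 0, 0⟩ v82; ok v344 && (
  let v345 := cst ⟨0, 124069937152, 0, 0⟩; ok v345 && (
  let v346 := add v344 v345; ok v346 && (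
  let v347 := mul v82 v346; ok v347 && (
  let v348 := cst ⟨84081246208, 0, 0, 0⟩; ok v348 && (
  let v349 := add v347 v348; ok v349 && (
  let v350 := mul v82 v349; ok v350 && (
  let v351 := scale ⟨5063901184, 0, 0, 0⟩ v36; ok v351 && (
  let v352 := scale ⟨12378965082112, 0, 0, 0⟩ v34; ok v352 && (
  let v353 := add v351 v352; ok v353 && (
  let v354 := cst ⟨0, 48919937024, 0, 0⟩; ok v354 && (
  let v355 := add v353 v354; ok v355 && (
  let v356 := add v350 v355; ok v356 && (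
  let v357 := mul v82 v356; ok v357 && (
  let v358 := scale ⟨2882732032, 0, 0, 0⟩ v36; ok v358 && (
  let v359 := scale ⟨56051957760, 0, 0, 0⟩ v34; ok v359 && (
  let v360 := add v358 v359; ok v360 && (
  let v361 := cst ⟨18194169856, 0, 0, 0⟩; ok v361 && (
  let v362 := add v360 v361; ok v362 && (
  let v363 := add v357 v362; ok v363 && (
  let v364 := mul v82 v363; ok v364 && (
  let v365 := scale ⟨3725066240, 0, 0, 0⟩ v36; ok v365 && (
  let v366 := scale ⟨9149677568, 0, 0, 0⟩ v37; ok v366 && (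
  let v367 := add v365 v366; ok v367 && (
  let v368 := scale ⟨2347873271808, 0, 0, 0⟩ v34; ok v368 && (
  let v369 := add v367 v368; ok v369 && (
  let v370 := scale ⟨2543888826368, 0, 0, 0⟩ v39; ok v370 && (
  let v371 := add v369 v370; ok v371 && (
  let v372 := scale ⟨1328927453544448, 0, 0, 0⟩ v40; ok v372 && (
  let v373 := add v371 v372; ok v373 && (
  let v374 := cst ⟨1095501086720, 0, 0, 0⟩; ok v374 && (
  let v375 := add v373 v374; ok v375 && (
  let v376 := add v364 v375; ok v376 && (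
  let v377 := inv v177; ok v377 && (
  let v378 := mul v377 v179; ok v378 && (
  let v379 := scale ⟨879662989312, 0, 0, 0⟩ v238; ok v379 && (
  let v380 := add v379 v0; ok v380 && (
  isPos 3 v380 && (
  let v381 := scale ⟨36969644032, 0, 0, 0⟩ v36; ok v381 && (
  let v382 := scale ⟨0, 225070284800, 0, 0⟩ v37; ok v382 && (
  let v383 := add v381 v382; ok v383 && (
  let v384 := scale ⟨0, 2127789096960, 0, 0⟩ v38; ok v384 && (
  let v385 := add v383 v384; ok v385 && (
  let v386 := scale ⟨0, 2896820895744, 0, 0⟩ v34; ok v386 && (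
  let v387 := add v385 v386; ok v387 && (
  let v388 := scale ⟨23708043378688, 0, 0, 0⟩ v39; ok v388 && (
  let v389 := add v387 v388; ok v389 && (
  let v390 := cst ⟨116237271040, 0, 0, 0⟩; ok v390 && (
  let v391 := add v389 v390; ok v391 && (
  let v392 := scale ⟨91534343012352, 0, 0, 0⟩ v2; ok v392 && (
  let v393 := neg v392; ok v393 && (
  let v394 := exp v393; ok v394 && (
  let v395 := mul v391 v394; ok v395 && (
  let v396 := scale ⟨2199023255552, 0, 0, 0⟩ v395; ok v396 && (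
  let v397 := add v238 v24; ok v397 && (
  let v398 := mul v396 v397; ok v398 && (
  let v399 := inv v380; ok v399 && (
  let v400 := mul v398 v399; ok v400 && (
  let v401 := cst ⟨0, 0, 0, 0⟩; ok v401 && (
  let v402 := mul v376 v343; ok v402 && (
  let v403 := mul v402 v335; ok v403 && (
  let v404 := mul v400 v378; ok v404 && (
  let v405 := mul v403 v404; ok v405 && (
  let v406 := rball v401 v405; ok v406 && (
  let v407 := sub v0 v376; ok v407 && (
  let v408 := mul x3 v407; ok v408 && (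
  let v409 := sub v0 v343; ok v409 && (
  let v410 := mul v409 v378; ok v410 && (
  let v411 := mul v376 v410; ok v411 && (
  let v412 := add v408 v411; ok v412 && (
  let v413 := add v412 v406; ok v413 && (
  isLt v413 1099510579200 && (
  true)))))))))))))))))))))))))))))))))))))))))))))))))))))))))))))))))))))))))))))))))))))))))))))))))))))))))))))))))))))))))))))))))))))))))))))))))))))))))))))))))))))))))))))))))))))))))))))))))))))))))))))))))))))))))))))))))))))))))))))))))))))))))))))))))))))))))))))))))))))))))))))))))))))))))))))))))))))))))))))))))))))))))))))))))))))))))))))))))))))))))))))))))))))))))))))))))))))))))))))))))))))))))))))))))))))))))))))))))))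
  | _ => false

set_option maxRecDepth 1000000 in
theorem c_Z_0_eq (X : XOps) (m : List X.O.α)
    (h : c_Z_0 X.O.cst X.O.add X.O.sub X.O.mul X.O.scale X.O.neg X.O.inv X.O.exp X.O.log X.O.ok
      X.O.isPos X.O.isLt X.ball X.rball m = true) :
    runX X 3 p_Z_0 m = true := by
  match m, h with
  | [x0, x1, x2, x3], h => exact h

abbrev gZ : List (List Op) := [p_Z_0]

noncomputable abbrev kZ : List (List xE.O.α → Bool) := [c_Z_0 xE.O.cst xE.O.add xE.O.sub xE.O.mul xE.O.scale xE.O.neg xE.O.inv xE.O.exp xE.O.log xE.O.ok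
      xE.O.isPos xE.O.isLt xE.ball xE.rball]

theorem kZ_eq : List.Forall₂ (fun (ops : List Op) (chk : List xE.O.α → Bool) =>
    ∀ m, chk m = true → runX xE 3 ops m = true) gZ kZ :=
  List.Forall₂.cons (c_Z_0_eq xE) List.Forall₂.nil

theorem gZ_eq : gZ = [comp (PS0 tab) ρ4 4] := by decide +kernel

def p_T_0 : List Op := [
  .const ⟨1099511627776, 0, 0, 0⟩,
  .mul 1 2,
  .scale ⟨2199023255552, 0, 0, 0⟩ 0,
  .exp 1,
  .neg 2,
  .exp 0,
  .mul 2 2,
  .mul 1 1,
  .mul 0 0,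
  .add 2 1,
  .scale ⟨549755813888, 0, 0, 0⟩ 0,
  .scale ⟨2199023255552, 0, 0, 0⟩ 12,
  .mul 10 10,
  .lt 0 68719476736,
  .scale ⟨9162596898, 0, 0, 0⟩ 0,
  .const ⟨183251937962, 0, 0, 0⟩,
  .add 1 0,
  .mul 0 3,
  .const ⟨1099511627776, 0, 0, 0⟩,
  .add 1 0,
  .const ⟨65536, 0, 0, 0⟩,
  .rball 1 0,
  .mul 9 0,
  .add 18 16,
  .scale ⟨549755813888, 0, 0, 0⟩ 0,
  .mul 2 0,
  .mul 3 3,
  .mul 26 0,
  .mul 2 2,
  .mul 28 0,
  .neg 17,
  .exp 0,
  .add 0 30,
  .pos 0,
  .log 0,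
  .const ⟨6408896512, 0, 0, 0⟩,
  .sub 34 0,
  .const ⟨412316860416, 0, 0, 0⟩,
  .sub 37 0,
  .mul 0 0,
  .mul 0 1,
  .mul 4 2,
  .mul 5 5,
  .const ⟨976299753472, 0, 0, 0⟩,
  .scale ⟨0, 0, 1099511627776, 0⟩ 0,
  .scale ⟨549755813888, 0, 0, 0⟩ 0,
  .add 0 43,
  .inv 0,
  .mul 3 0,
  .scale ⟨0, 34495765861184, 0, 0⟩ 0,
  .const ⟨64474301117568, 0, 0, 0⟩,
  .add 1 0,
  .mul 3 0,
  .const ⟨0, 100122293988992, 0, 0⟩,
  .add 1 0,
  .mul 6 0,
  .const ⟨90199925461760, 0, 0, 0⟩,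
  .add 1 0,
  .mul 9 0,
  .const ⟨0, 71781001845120, 0, 0⟩,
  .add 1 0,
  .mul 12 0,
  .const ⟨38549726804608, 0, 0, 0⟩,
  .add 1 0,
  .mul 15 0,
  .scale ⟨243301045440, 0, 0, 0⟩ 26,
  .scale ⟨0, 117764088521536, 0, 0⟩ 29,
  .add 1 0,
  .const ⟨0, 18710625767424, 0, 0⟩,
  .add 1 0,
  .add 5 0,
  .mul 22 0,
  .scale ⟨0, 22456941120, 0, 0⟩ 33,
  .scale ⟨254442660523968, 0, 0, 0⟩ 36,
  .add 1 0,
  .const ⟨6219925250944, 0, 0, 0⟩,
  .add 1 0,
  .add 5 0,
  .mul 29 0,
  .scale ⟨40151361344, 0, 0, 0⟩ 40,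
  .scale ⟨0, 260294851522688, 0, 0⟩ 43,
  .add 1 0,
  .const ⟨0, 1561303606592, 0, 0⟩,
  .add 1 0,
  .add 5 0,
  .mul 36 0,
  .scale ⟨0, 52038176640, 0, 0⟩ 47,
  .scale ⟨132391790434496, 0, 0, 0⟩ 50,
  .add 1 0,
  .const ⟨1080492807680, 0, 0, 0⟩,
  .add 1 0,
  .add 5 0,
  .mul 43 0,
  .scale ⟨33752478336, 0, 0, 0⟩ 54,
  .scale ⟨0, 60392710244224, 0, 0⟩ 57,
  .add 1 0,
  .const ⟨1601486825536, 0, 0, 0⟩,
  .add 1 0,
  .add 5 0,
  .mul 50 0,
  .scale ⟨0, 21457378304, 0, 0⟩ 61,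
  .scale ⟨10703731292864, 0, 0, 0⟩ 64,
  .add 1 0,
  .const ⟨3454378155584, 0, 0, 0⟩,
  .add 1 0,
  .add 5 0,
  .mul 57 0,
  .scale ⟨32803343872, 0, 0, 0⟩ 68,
  .scale ⟨0, 7964554944, 0, 0⟩ 68,
  .add 1 0,
  .scale ⟨1164376228288, 0, 0, 0⟩ 73,
  .add 1 0,
  .scale ⟨16495104649664, 0, 0, 0⟩ 70,
  .add 1 0,
  .scale ⟨0, 860335796473408, 0, 0⟩ 71,
  .add 1 0,
  .const ⟨9715980288, 0, 0, 0⟩,
  .add 1 0,
  .mul 0 117,
  .add 12 0,
  .mul 118 118,
  .scale ⟨5703716569088, 0, 0, 0⟩ 0,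
  .const ⟨1726576852992, 0, 0, 0⟩,
  .add 1 0,
  .scale ⟨4398046511104, 0, 0, 0⟩ 123,
  .mul 76 1,
  .scale ⟨4398046511104, 0, 0, 0⟩ 0,
  .add 2 0,
  .scale ⟨123901050880, 0, 0, 0⟩ 89,
  .scale ⟨0, 947978240, 0, 0⟩ 89,
  .add 1 0,
  .scale ⟨0, 6272838533120, 0, 0⟩ 90,
  .add 1 0,
  .scale ⟨0, 14423118315520, 0, 0⟩ 96,
  .add 1 0,
  .scale ⟨0, 3707309064192, 0, 0⟩ 93,
  .add 1 0,
  .const ⟨191177883648, 0, 0, 0⟩,
  .add 1 0,
  .scale ⟨0, 4260607557632, 0, 0⟩ 134,
  .neg 0,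
  .exp 0,
  .mul 3 0,
  .mul 0 15,
  .scale ⟨879662989312, 0, 0, 0⟩ 16,
  .add 0 142,
  .pos 0,
  .inv 0,
  .mul 3 0,
  .neg 28,
  .exp 0,
  .add 0 147,
  .pos 0,
  .log 0,
  .mul 4 152,
  .sub 150 0,
  .pos 0,
  .log 0,
  .mul 5 2,
  .add 0 153,
  .pos 0,
  .log 0,
  .sub 6 0,
  .add 158 124,
  .sub 1 0,
  .mul 0 159,
  .exp 0,
  .sub 5 8,
  .add 0 44,
  .mul 0 163,
  .exp 0,
  .mul 143 143,
  .scale ⟨274877906944, 0, 0, 0⟩ 0,
  .mul 48 0,
  .scale ⟨1649267441664, 0, 0, 0⟩ 0,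
  .add 0 168,
  .mul 48 0,
  .mul 129 0,
  .scale ⟨0, 0, 1099511627776, 0⟩ 0,
  .mul 0 0,
  .sub 7 0,
  .mul 14 14,
  .mul 0 1,
  .mul 58 0,
  .scale ⟨4398046511104, 0, 0, 0⟩ 0,
  .sub 178 0,
  .pos 0,
  .log 0,
  .scale ⟨549755813888, 0, 0, 0⟩ 0,
  .exp 0,
  .mul 183 22,
  .mul 0 11,
  .scale ⟨2199023255552, 0, 0, 0⟩ 0,
  .sub 3 0,
  .pos 0,
  .pos 187,
  .inv 187,
  .const ⟨549755813888, 0, 0, 0⟩,
  .sub 33 39,
  .log 3,
  .mul 0 3,
  .add 2 0,
  .exp 0,
  .sub 5 0,
  .pos 0]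

set_option maxRecDepth 1000000 in
noncomputable def c_T_0 {α : Type} (cst : Z → α) (add sub mul : α → α → α) (scale : Z → α → α)
    (neg inv exp log : α → α) (ok : α → Bool) (isPos : Nat → α → Bool) (isLt : α → Nat → Bool)
    (ball : Nat → α → α) (rball : α → α → α) : List α → Bool
  | [x0, x1, x2] =>
  let v0 := cst ⟨1099511627776, 0, 0, 0⟩; ok v0 && (
  let v1 := mul x0 x1; ok v1 && (
  let v2 := scale ⟨2199023255552, 0, 0, 0⟩ v1; ok v2 && (
  let v3 := exp v1; ok v3 && (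
  let v4 := neg v1; ok v4 && (
  let v5 := exp v4; ok v5 && (
  let v6 := mul v3 v3; ok v6 && (
  let v7 := mul v5 v5; ok v7 && (
  let v8 := mul v7 v7; ok v8 && (
  let v9 := add v6 v7; ok v9 && (
  let v10 := scale ⟨549755813888, 0, 0, 0⟩ v9; ok v10 && (
  let v11 := scale ⟨2199023255552, 0, 0, 0⟩ x1; ok v11 && (
  let v12 := mul v1 v1; ok v12 && (
  isLt v12 68719476736 && (
  let v13 := scale ⟨9162596898, 0, 0, 0⟩ v12; ok v13 && (
  let v14 := cst ⟨183251937962, 0, 0, 0⟩; ok v14 && (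
  let v15 := add v13 v14; ok v15 && (
  let v16 := mul v15 v12; ok v16 && (
  let v17 := cst ⟨1099511627776, 0, 0, 0⟩; ok v17 && (
  let v18 := add v16 v17; ok v18 && (
  let v19 := cst ⟨65536, 0, 0, 0⟩; ok v19 && (
  let v20 := rball v18 v19; ok v20 && (
  let v21 := mul v11 v20; ok v21 && (
  let v22 := add v3 v5; ok v22 && (
  let v23 := scale ⟨549755813888, 0, 0, 0⟩ v22; ok v23 && (
  let v24 := mul v21 v23; ok v24 && (
  let v25 := mul v21 v21; ok v25 && (
  let v26 := mul x0 v25; ok v26 && (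
  let v27 := mul v24 v24; ok v27 && (
  let v28 := mul x0 v27; ok v28 && (
  let v29 := neg v11; ok v29 && (
  let v30 := exp v29; ok v30 && (
  let v31 := add v30 v0; ok v31 && (
  isPos 2 v31 && (
  let v32 := log v31; ok v32 && (
  let v33 := cst ⟨6408896512, 0, 0, 0⟩; ok v33 && (
  let v34 := sub x0 v33; ok v34 && (
  let v35 := cst ⟨412316860416, 0, 0, 0⟩; ok v35 && (
  let v36 := sub x1 v35; ok v36 && (
  let v37 := mul v36 v36; ok v37 && (
  let v38 := mul v37 v36; ok v38 && (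
  let v39 := mul v34 v36; ok v39 && (
  let v40 := mul v34 v34; ok v40 && (
  let v41 := cst ⟨976299753472, 0, 0, 0⟩; ok v41 && (
  let v42 := scale ⟨0, 0, 1099511627776, 0⟩ v41; ok v42 && (
  let v43 := scale ⟨549755813888, 0, 0, 0⟩ v42; ok v43 && (
  let v44 := add v43 v0; ok v44 && (
  let v45 := inv v44; ok v45 && (
  let v46 := mul v42 v45; ok v46 && (
  let v47 := scale ⟨0, 34495765861184, 0, 0⟩ v46; ok v47 && (
  let v48 := cst ⟨64474301117568, 0, 0, 0⟩; ok v48 && (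
  let v49 := add v47 v48; ok v49 && (
  let v50 := mul v46 v49; ok v50 && (
  let v51 := cst ⟨0, 100122293988992, 0, 0⟩; ok v51 && (
  let v52 := add v50 v51; ok v52 && (
  let v53 := mul v46 v52; ok v53 && (
  let v54 := cst ⟨90199925461760, 0, 0, 0⟩; ok v54 && (
  let v55 := add v53 v54; ok v55 && (
  let v56 := mul v46 v55; ok v56 && (
  let v57 := cst ⟨0, 71781001845120, 0, 0⟩; ok v57 && (
  let v58 := add v56 v57; ok v58 && (
  let v59 := mul v46 v58; ok v59 && (
  let v60 := cst ⟨38549726804608, 0, 0, 0⟩; ok v60 && (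
  let v61 := add v59 v60; ok v61 && (
  let v62 := mul v46 v61; ok v62 && (
  let v63 := scale ⟨243301045440, 0, 0, 0⟩ v36; ok v63 && (
  let v64 := scale ⟨0, 117764088521536, 0, 0⟩ v34; ok v64 && (
  let v65 := add v63 v64; ok v65 && (
  let v66 := cst ⟨0, 18710625767424, 0, 0⟩; ok v66 && (
  let v67 := add v65 v66; ok v67 && (
  let v68 := add v62 v67; ok v68 && (
  let v69 := mul v46 v68; ok v69 && (
  let v70 := scale ⟨0, 22456941120, 0, 0⟩ v36; ok v70 && (
  let v71 := scale ⟨254442660523968, 0, 0, 0⟩ v34; ok v71 && (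
  let v72 := add v70 v71; ok v72 && (
  let v73 := cst ⟨6219925250944, 0, 0, 0⟩; ok v73 && (
  let v74 := add v72 v73; ok v74 && (
  let v75 := add v69 v74; ok v75 && (
  let v76 := mul v46 v75; ok v76 && (
  let v77 := scale ⟨40151361344, 0, 0, 0⟩ v36; ok v77 && (
  let v78 := scale ⟨0, 260294851522688, 0, 0⟩ v34; ok v78 && (
  let v79 := add v77 v78; ok v79 && (
  let v80 := cst ⟨0, 1561303606592, 0, 0⟩; ok v80 && (
  let v81 := add v79 v80; ok v81 && (
  let v82 := add v76 v81; ok v82 && (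
  let v83 := mul v46 v82; ok v83 && (
  let v84 := scale ⟨0, 52038176640, 0, 0⟩ v36; ok v84 && (
  let v85 := scale ⟨132391790434496, 0, 0, 0⟩ v34; ok v85 && (
  let v86 := add v84 v85; ok v86 && (
  let v87 := cst ⟨1080492807680, 0, 0, 0⟩; ok v87 && (
  let v88 := add v86 v87; ok v88 && (
  let v89 := add v83 v88; ok v89 && (
  let v90 := mul v46 v89; ok v90 && (
  let v91 := scale ⟨33752478336, 0, 0, 0⟩ v36; ok v91 && (
  let v92 := scale ⟨0, 60392710244224, 0, 0⟩ v34; ok v92 && (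
  let v93 := add v91 v92; ok v93 && (
  let v94 := cst ⟨1601486825536, 0, 0, 0⟩; ok v94 && (
  let v95 := add v93 v94; ok v95 && (
  let v96 := add v90 v95; ok v96 && (
  let v97 := mul v46 v96; ok v97 && (
  let v98 := scale ⟨0, 21457378304, 0, 0⟩ v36; ok v98 && (
  let v99 := scale ⟨10703731292864, 0, 0, 0⟩ v34; ok v99 && (
  let v100 := add v98 v99; ok v100 && (
  let v101 := cst ⟨3454378155584, 0, 0, 0⟩; ok v101 && (
  let v102 := add v100 v101; ok v102 && (
  let v103 := add v97 v102; ok v103 && (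
  let v104 := mul v46 v103; ok v104 && (
  let v105 := scale ⟨32803343872, 0, 0, 0⟩ v36; ok v105 && (
  let v106 := scale ⟨0, 7964554944, 0, 0⟩ v37; ok v106 && (
  let v107 := add v105 v106; ok v107 && (
  let v108 := scale ⟨1164376228288, 0, 0, 0⟩ v34; ok v108 && (
  let v109 := add v107 v108; ok v109 && (
  let v110 := scale ⟨16495104649664, 0, 0, 0⟩ v39; ok v110 && (
  let v111 := add v109 v110; ok v111 && (
  let v112 := scale ⟨0, 860335796473408, 0, 0⟩ v40; ok v112 && (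
  let v113 := add v111 v112; ok v113 && (
  let v114 := cst ⟨9715980288, 0, 0, 0⟩; ok v114 && (
  let v115 := add v113 v114; ok v115 && (
  let v116 := mul v115 x1; ok v116 && (
  let v117 := add v104 v116; ok v117 && (
  let v118 := mul x0 x0; ok v118 && (
  let v119 := scale ⟨5703716569088, 0, 0, 0⟩ v118; ok v119 && (
  let v120 := cst ⟨1726576852992, 0, 0, 0⟩; ok v120 && (
  let v121 := add v119 v120; ok v121 && (
  let v122 := scale ⟨4398046511104, 0, 0, 0⟩ x1; ok v122 && (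
  let v123 := mul v46 v121; ok v123 && (
  let v124 := scale ⟨4398046511104, 0, 0, 0⟩ v123; ok v124 && (
  let v125 := add v122 v124; ok v125 && (
  let v126 := scale ⟨123901050880, 0, 0, 0⟩ v36; ok v126 && (
  let v127 := scale ⟨0, 947978240, 0, 0⟩ v37; ok v127 && (
  let v128 := add v126 v127; ok v128 && (
  let v129 := scale ⟨0, 6272838533120, 0, 0⟩ v38; ok v129 && (
  let v130 := add v128 v129; ok v130 && (
  let v131 := scale ⟨0, 14423118315520, 0, 0⟩ v34; ok v131 && (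
  let v132 := add v130 v131; ok v132 && (
  let v133 := scale ⟨0, 3707309064192, 0, 0⟩ v39; ok v133 && (
  let v134 := add v132 v133; ok v134 && (
  let v135 := cst ⟨191177883648, 0, 0, 0⟩; ok v135 && (
  let v136 := add v134 v135; ok v136 && (
  let v137 := scale ⟨0, 4260607557632, 0, 0⟩ v2; ok v137 && (
  let v138 := neg v137; ok v138 && (
  let v139 := exp v138; ok v139 && (
  let v140 := mul v136 v139; ok v140 && (
  let v141 := mul v140 v125; ok v141 && (
  let v142 := scale ⟨879662989312, 0, 0, 0⟩ v125; ok v142 && (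
  let v143 := add v142 v0; ok v143 && (
  isPos 2 v143 && (
  let v144 := inv v143; ok v144 && (
  let v145 := mul v141 v144; ok v145 && (
  let v146 := neg v117; ok v146 && (
  let v147 := exp v146; ok v147 && (
  let v148 := add v147 v0; ok v148 && (
  isPos 2 v148 && (
  let v149 := log v148; ok v149 && (
  let v150 := mul v145 x2; ok v150 && (
  let v151 := sub v0 v150; ok v151 && (
  isPos 2 v151 && (
  let v152 := log v151; ok v152 && (
  let v153 := mul v147 v150; ok v153 && (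
  let v154 := add v153 v0; ok v154 && (
  isPos 2 v154 && (
  let v155 := log v154; ok v155 && (
  let v156 := sub v149 v155; ok v156 && (
  let v157 := add x1 v32; ok v157 && (
  let v158 := sub v156 v157; ok v158 && (
  let v159 := mul v158 x0; ok v159 && (
  let v160 := exp v159; ok v160 && (
  let v161 := sub v155 v152; ok v161 && (
  let v162 := add v161 v117; ok v162 && (
  let v163 := mul v162 x0; ok v163 && (
  let v164 := exp v163; ok v164 && (
  let v165 := mul v21 v21; ok v165 && (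
  let v166 := scale ⟨274877906944, 0, 0, 0⟩ v165; ok v166 && (
  let v167 := mul v118 v166; ok v167 && (
  let v168 := scale ⟨1649267441664, 0, 0, 0⟩ v167; ok v168 && (
  let v169 := add v168 v0; ok v169 && (
  let v170 := mul v121 v169; ok v170 && (
  let v171 := mul v41 v170; ok v171 && (
  let v172 := scale ⟨0, 0, 1099511627776, 0⟩ v171; ok v172 && (
  let v173 := mul v172 v172; ok v173 && (
  let v174 := sub v166 v173; ok v174 && (
  let v175 := mul v160 v160; ok v175 && (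
  let v176 := mul v175 v174; ok v176 && (
  let v177 := mul v118 v176; ok v177 && (
  let v178 := scale ⟨4398046511104, 0, 0, 0⟩ v177; ok v178 && (
  let v179 := sub v0 v178; ok v179 && (
  isPos 2 v179 && (
  let v180 := log v179; ok v180 && (
  let v181 := scale ⟨549755813888, 0, 0, 0⟩ v180; ok v181 && (
  let v182 := exp v181; ok v182 && (
  let v183 := mul x0 v160; ok v183 && (
  let v184 := mul v183 v172; ok v184 && (
  let v185 := scale ⟨2199023255552, 0, 0, 0⟩ v184; ok v185 && (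
  let v186 := sub v182 v185; ok v186 && (
  isPos 2 v186 && (
  isPos 2 x0 && (
  let v187 := inv x0; ok v187 && (
  let v188 := cst ⟨549755813888, 0, 0, 0⟩; ok v188 && (
  let v189 := sub v155 v149; ok v189 && (
  let v190 := log v186; ok v190 && (
  let v191 := mul v190 v187; ok v191 && (
  let v192 := add v189 v191; ok v192 && (
  let v193 := exp v192; ok v193 && (
  let v194 := sub v188 v193; ok v194 && (
  isPos 2 v194 && (
  true)))))))))))))))))))))))))))))))))))))))))))))))))))))))))))))))))))))))))))))))))))))))))))))))))))))))))))))))))))))))))))))))))))))))))))))))))))))))))))))))))))))))))))))))))))))))))))))))))))))))))))))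
  | _ => false

set_option maxRecDepth 1000000 in
theorem c_T_0_eq (X : XOps) (m : List X.O.α)
    (h : c_T_0 X.O.cst X.O.add X.O.sub X.O.mul X.O.scale X.O.neg X.O.inv X.O.exp X.O.log X.O.ok
      X.O.isPos X.O.isLt X.ball X.rball m = true) :
    runX X 2 p_T_0 m = true := by
  match m, h with
  | [x0, x1, x2], h => exact h

abbrev gT : List (List Op) := [p_T_0]

noncomputable abbrev kT : List (List xE.O.α → Bool) := [c_T_0 xE.O.cst xE.O.add xE.O.sub xE.O.mul xE.O.scale xE.O.neg xE.O.inv xE.O.exp xE.O.log xE.O.ok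
      xE.O.isPos xE.O.isLt xE.ball xE.rball]

theorem kT_eq : List.Forall₂ (fun (ops : List Op) (chk : List xE.O.α → Bool) =>
    ∀ m, chk m = true → runX xE 2 ops m = true) gT kT :=
  List.Forall₂.cons (c_T_0_eq xE) List.Forall₂.nil

theorem gT_eq : gT = [comp (PST tab 976299753472) ρ3 3] := by decide +kernel

def p_S_0 : List Op := [
  .const ⟨1099511627776, 0, 0, 0⟩,
  .mul 1 2,
  .exp 0,
  .neg 1,
  .exp 0,
  .mul 3 3,
  .lt 0 68719476736,
  .scale ⟨9162596898, 0, 0, 0⟩ 0,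
  .const ⟨183251937962, 0, 0, 0⟩,
  .add 1 0,
  .mul 0 3,
  .const ⟨1099511627776, 0, 0, 0⟩,
  .add 1 0,
  .const ⟨65536, 0, 0, 0⟩,
  .rball 1 0,
  .scale ⟨2199023255552, 0, 0, 0⟩ 15,
  .mul 0 1,
  .add 13 11,
  .scale ⟨549755813888, 0, 0, 0⟩ 0,
  .mul 2 0,
  .mul 0 0,
  .const ⟨6408896512, 0, 0, 0⟩,
  .sub 21 0,
  .const ⟨412316860416, 0, 0, 0⟩,
  .sub 24 0,
  .mul 0 0,
  .mul 0 1,
  .mul 4 2,
  .scale ⟨13108641792, 0, 0, 0⟩ 3,
  .scale ⟨0, 50882936832, 0, 0⟩ 3,
  .add 1 0,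
  .scale ⟨37800312832, 0, 0, 0⟩ 4,
  .add 1 0,
  .scale ⟨1340043493376, 0, 0, 0⟩ 10,
  .add 1 0,
  .scale ⟨0, 324324622336, 0, 0⟩ 7,
  .add 1 0,
  .const ⟨1798059851776, 0, 0, 0⟩,
  .add 1 0,
  .pos 0,
  .const ⟨9011915128832, 0, 0, 0⟩,
  .add 19 0,
  .pos 0,
  .const ⟨6408896512, 0, 0, 0⟩,
  .sub 41 0,
  .const ⟨412316860416, 0, 0, 0⟩,
  .sub 44 0,
  .mul 0 0,
  .mul 0 1,
  .mul 4 2,
  .mul 42 42,
  .mul 0 0,
  .scale ⟨4398046511104, 0, 0, 0⟩ 47,
  .neg 0,
  .exp 0,
  .scale ⟨13108641792, 0, 0, 0⟩ 8,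
  .scale ⟨0, 50882936832, 0, 0⟩ 8,
  .add 1 0,
  .scale ⟨37800312832, 0, 0, 0⟩ 9,
  .add 1 0,
  .scale ⟨1340043493376, 0, 0, 0⟩ 15,
  .add 1 0,
  .scale ⟨0, 324324622336, 0, 0⟩ 12,
  .add 1 0,
  .const ⟨1798059851776, 0, 0, 0⟩,
  .add 1 0,
  .mul 63 44,
  .mul 0 1,
  .add 0 64,
  .mul 14 0,
  .scale ⟨2199023255552, 0, 0, 0⟩ 19,
  .mul 5 16,
  .sub 1 0,
  .pos 0,
  .scale ⟨0, 827745763328, 0, 0⟩ 26,
  .scale ⟨206230978560, 0, 0, 0⟩ 26,
  .add 1 0,
  .scale ⟨0, 7719200292864, 0, 0⟩ 27,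
  .add 1 0,
  .scale ⟨0, 39776875118592, 0, 0⟩ 33,
  .add 1 0,
  .scale ⟨105220166909952, 0, 0, 0⟩ 30,
  .add 1 0,
  .const ⟨512683147264, 0, 0, 0⟩,
  .add 1 0,
  .pos 0,
  .const ⟨9671192608768, 0, 0, 0⟩,
  .add 62 0,
  .pos 0,
  .const ⟨6408896512, 0, 0, 0⟩,
  .sub 84 0,
  .const ⟨412316860416, 0, 0, 0⟩,
  .sub 87 0,
  .mul 0 0,
  .mul 0 1,
  .mul 4 2,
  .mul 85 85,
  .mul 0 0,
  .scale ⟨8796093022208, 0, 0, 0⟩ 90,
  .neg 0,
  .exp 0,
  .scale ⟨0, 814637121536, 0, 0⟩ 8,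
  .scale ⟨155348041728, 0, 0, 0⟩ 8,
  .add 1 0,
  .scale ⟨0, 7681399980032, 0, 0⟩ 9,
  .add 1 0,
  .scale ⟨0, 38436831625216, 0, 0⟩ 15,
  .add 1 0,
  .scale ⟨104895842287616, 0, 0, 0⟩ 12,
  .add 1 0,
  .const ⟨2310742999040, 0, 0, 0⟩,
  .add 1 0,
  .mul 106 87,
  .mul 0 1,
  .add 0 107,
  .mul 14 0,
  .scale ⟨1099511627776, 0, 0, 0⟩ 18,
  .add 0 110,
  .mul 21 0,
  .scale ⟨2199023255552, 0, 0, 0⟩ 0,
  .mul 8 19,
  .sub 1 0,
  .pos 0,
  .scale ⟨0, 745073410048, 0, 0⟩ 29,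
  .scale ⟨258124087296, 0, 0, 0⟩ 29,
  .add 1 0,
  .scale ⟨0, 6177705885696, 0, 0⟩ 30,
  .add 1 0,
  .scale ⟨0, 35234719006720, 0, 0⟩ 36,
  .add 1 0,
  .scale ⟨85283087253504, 0, 0, 0⟩ 33,
  .add 1 0,
  .const ⟨454657114112, 0, 0, 0⟩,
  .add 1 0,
  .pos 0,
  .const ⟨10364829827072, 0, 0, 0⟩,
  .add 108 0,
  .pos 0,
  .const ⟨6408896512, 0, 0, 0⟩,
  .sub 130 0,
  .const ⟨412316860416, 0, 0, 0⟩,
  .sub 133 0,
  .mul 0 0,
  .mul 0 1,
  .mul 4 2,
  .mul 131 131,
  .mul 0 0,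
  .scale ⟨13194139533312, 0, 0, 0⟩ 136,
  .neg 0,
  .exp 0,
  .scale ⟨0, 1559710531584, 0, 0⟩ 8,
  .scale ⟨413472129024, 0, 0, 0⟩ 8,
  .add 1 0,
  .scale ⟨0, 13859105865728, 0, 0⟩ 9,
  .add 1 0,
  .scale ⟨0, 73671550631936, 0, 0⟩ 15,
  .add 1 0,
  .scale ⟨190178929541120, 0, 0, 0⟩ 12,
  .add 1 0,
  .const ⟨2765400113152, 0, 0, 0⟩,
  .add 1 0,
  .mul 152 133,
  .mul 0 1,
  .add 0 153,
  .mul 14 0,
  .scale ⟨1099511627776, 0, 0, 0⟩ 18,
  .add 0 156,
  .mul 20 0,
  .add 0 158,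
  .mul 23 0,
  .scale ⟨2199023255552, 0, 0, 0⟩ 0,
  .mul 10 21,
  .sub 1 0,
  .pos 0,
  .scale ⟨0, 684454707200, 0, 0⟩ 31,
  .scale ⟨209456201728, 0, 0, 0⟩ 31,
  .add 1 0,
  .scale ⟨0, 5737452535808, 0, 0⟩ 32,
  .add 1 0,
  .scale ⟨0, 32713814048768, 0, 0⟩ 38,
  .add 1 0,
  .scale ⟨82574059765760, 0, 0, 0⟩ 35,
  .add 1 0,
  .const ⟨417480245248, 0, 0, 0⟩,
  .add 1 0,
  .pos 0,
  .const ⟨11091753041920, 0, 0, 0⟩,
  .add 156 0,
  .pos 0,
  .const ⟨6408896512, 0, 0, 0⟩,
  .sub 178 0,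
  .const ⟨412316860416, 0, 0, 0⟩,
  .sub 181 0,
  .mul 0 0,
  .mul 0 1,
  .mul 4 2,
  .mul 179 179,
  .mul 0 0,
  .scale ⟨17592186044416, 0, 0, 0⟩ 184,
  .neg 0,
  .exp 0,
  .scale ⟨0, 2244165238784, 0, 0⟩ 8,
  .scale ⟨622928330752, 0, 0, 0⟩ 8,
  .add 1 0,
  .scale ⟨0, 19596558401536, 0, 0⟩ 9,
  .add 1 0,
  .scale ⟨0, 106385364680704, 0, 0⟩ 15,
  .add 1 0,
  .scale ⟨272752989306880, 0, 0, 0⟩ 12,
  .add 1 0,
  .const ⟨3182880358400, 0, 0, 0⟩,
  .add 1 0,
  .mul 200 181,
  .mul 0 1,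
  .add 0 201,
  .mul 14 0,
  .scale ⟨1099511627776, 0, 0, 0⟩ 18,
  .add 0 204,
  .mul 20 0,
  .add 0 206,
  .mul 22 0,
  .add 0 208,
  .mul 25 0,
  .scale ⟨2199023255552, 0, 0, 0⟩ 0,
  .mul 12 23,
  .sub 1 0,
  .pos 0,
  .scale ⟨0, 625963565056, 0, 0⟩ 33,
  .scale ⟨143477702656, 0, 0, 0⟩ 33,
  .add 1 0,
  .scale ⟨0, 5851618344960, 0, 0⟩ 34,
  .add 1 0,
  .scale ⟨0, 30274675474432, 0, 0⟩ 40,
  .add 1 0,
  .scale ⟨81305421873152, 0, 0, 0⟩ 37,
  .add 1 0,
  .const ⟨388634247168, 0, 0, 0⟩,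
  .add 1 0,
  .pos 0,
  .const ⟨11857330962432, 0, 0, 0⟩,
  .add 206 0,
  .pos 0,
  .const ⟨6408896512, 0, 0, 0⟩,
  .sub 228 0,
  .const ⟨412316860416, 0, 0, 0⟩,
  .sub 231 0,
  .mul 0 0,
  .mul 0 1,
  .mul 4 2,
  .mul 229 229,
  .mul 0 0,
  .scale ⟨21990232555520, 0, 0, 0⟩ 234,
  .neg 0,
  .exp 0,
  .scale ⟨0, 2870128803840, 0, 0⟩ 8,
  .scale ⟨766406033408, 0, 0, 0⟩ 8,
  .add 1 0,
  .scale ⟨0, 25448176746496, 0, 0⟩ 9,
  .add 1 0,
  .scale ⟨0, 136660040155136, 0, 0⟩ 15,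
  .add 1 0,
  .scale ⟨354058411180032, 0, 0, 0⟩ 12,
  .add 1 0,
  .const ⟨3571514605568, 0, 0, 0⟩,
  .add 1 0,
  .mul 250 231,
  .mul 0 1,
  .add 0 251,
  .mul 14 0,
  .scale ⟨1099511627776, 0, 0, 0⟩ 18,
  .add 0 254,
  .mul 20 0,
  .add 0 256,
  .mul 22 0,
  .add 0 258,
  .mul 24 0,
  .add 0 260,
  .mul 27 0,
  .scale ⟨2199023255552, 0, 0, 0⟩ 0,
  .mul 14 25,
  .sub 1 0,
  .pos 0,
  .scale ⟨0, 591724150784, 0, 0⟩ 35,
  .scale ⟨182654599168, 0, 0, 0⟩ 35,
  .add 1 0,
  .scale ⟨0, 4792037933056, 0, 0⟩ 36,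
  .add 1 0,
  .scale ⟨0, 29009514397696, 0, 0⟩ 42,
  .add 1 0,
  .scale ⟨76653956104192, 0, 0, 0⟩ 39,
  .add 1 0,
  .const ⟨364169330688, 0, 0, 0⟩,
  .add 1 0,
  .pos 0,
  .const ⟨12661563588608, 0, 0, 0⟩,
  .add 258 0,
  .pos 0,
  .const ⟨6408896512, 0, 0, 0⟩,
  .sub 280 0,
  .const ⟨412316860416, 0, 0, 0⟩,
  .sub 283 0,
  .mul 0 0,
  .mul 0 1,
  .mul 4 2,
  .mul 281 281,
  .mul 0 0,
  .scale ⟨26388279066624, 0, 0, 0⟩ 286,
  .neg 0,
  .exp 0,
  .scale ⟨0, 3461852954624, 0, 0⟩ 8,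
  .scale ⟨949060632576, 0, 0, 0⟩ 8,
  .add 1 0,
  .scale ⟨0, 30240214679552, 0, 0⟩ 9,
  .add 1 0,
  .scale ⟨0, 165669554552832, 0, 0⟩ 15,
  .add 1 0,
  .scale ⟨430712367284224, 0, 0, 0⟩ 12,
  .add 1 0,
  .const ⟨3935683936256, 0, 0, 0⟩,
  .add 1 0,
  .mul 302 283,
  .mul 0 1,
  .add 0 303,
  .mul 14 0,
  .scale ⟨1099511627776, 0, 0, 0⟩ 18,
  .add 0 306,
  .mul 20 0,
  .add 0 308,
  .mul 22 0,
  .add 0 310,
  .mul 24 0,
  .add 0 312,
  .mul 26 0,
  .add 0 314,
  .mul 29 0,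
  .scale ⟨2199023255552, 0, 0, 0⟩ 0,
  .mul 16 27,
  .sub 1 0,
  .pos 0,
  .scale ⟨0, 567992647680, 0, 0⟩ 37,
  .scale ⟨214538452992, 0, 0, 0⟩ 37,
  .add 1 0,
  .scale ⟨0, 3126140403712, 0, 0⟩ 38,
  .add 1 0,
  .scale ⟨0, 28439324459008, 0, 0⟩ 44,
  .add 1 0,
  .scale ⟨71228938452992, 0, 0, 0⟩ 41,
  .add 1 0,
  .const ⟨342161162240, 0, 0, 0⟩,
  .add 1 0,
  .pos 0,
  .const ⟨13504450920448, 0, 0, 0⟩,
  .add 312 0,
  .pos 0,
  .const ⟨6408896512, 0, 0, 0⟩,
  .sub 334 0,
  .const ⟨412316860416, 0, 0, 0⟩,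
  .sub 337 0,
  .mul 0 0,
  .mul 0 1,
  .mul 4 2,
  .mul 335 335,
  .mul 0 0,
  .scale ⟨30786325577728, 0, 0, 0⟩ 340,
  .neg 0,
  .exp 0,
  .scale ⟨0, 4029845602304, 0, 0⟩ 8,
  .scale ⟨1163599085568, 0, 0, 0⟩ 8,
  .add 1 0,
  .scale ⟨0, 33366355083264, 0, 0⟩ 9,
  .add 1 0,
  .scale ⟨0, 194108879011840, 0, 0⟩ 15,
  .add 1 0,
  .scale ⟨501941305737216, 0, 0, 0⟩ 12,
  .add 1 0,
  .const ⟨4277845098496, 0, 0, 0⟩,
  .add 1 0,
  .mul 356 337,
  .mul 0 1,
  .add 0 357,
  .mul 14 0,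
  .scale ⟨1099511627776, 0, 0, 0⟩ 18,
  .add 0 360,
  .mul 20 0,
  .add 0 362,
  .mul 22 0,
  .add 0 364,
  .mul 24 0,
  .add 0 366,
  .mul 26 0,
  .add 0 368,
  .mul 28 0,
  .add 0 370,
  .mul 31 0,
  .scale ⟨2199023255552, 0, 0, 0⟩ 0,
  .mul 18 29,
  .sub 1 0,
  .pos 0,
  .scale ⟨0, 543497650176, 0, 0⟩ 39,
  .scale ⟨288986365952, 0, 0, 0⟩ 39,
  .add 1 0,
  .scale ⟨0, 1456474226688, 0, 0⟩ 40,
  .add 1 0,
  .scale ⟨0, 27583265767424, 0, 0⟩ 46,
  .add 1 0,
  .scale ⟨66392840404992, 0, 0, 0⟩ 43,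
  .add 1 0,
  .const ⟨319859785728, 0, 0, 0⟩,
  .add 1 0,
  .pos 0,
  .const ⟨14384919216128, 0, 0, 0⟩,
  .add 368 0,
  .pos 0,
  .const ⟨6408896512, 0, 0, 0⟩,
  .sub 390 0,
  .const ⟨412316860416, 0, 0, 0⟩,
  .sub 393 0,
  .mul 0 0,
  .mul 0 1,
  .mul 4 2,
  .mul 391 391,
  .mul 0 0,
  .scale ⟨35184372088832, 0, 0, 0⟩ 396,
  .neg 0,
  .exp 0,
  .scale ⟨0, 4573343252480, 0, 0⟩ 8,
  .scale ⟨1452585451520, 0, 0, 0⟩ 8,
  .add 1 0,
  .scale ⟨0, 34822829309952, 0, 0⟩ 9,
  .add 1 0,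
  .scale ⟨0, 221692144779264, 0, 0⟩ 15,
  .add 1 0,
  .scale ⟨568334146142208, 0, 0, 0⟩ 12,
  .add 1 0,
  .const ⟨4597704884224, 0, 0, 0⟩,
  .add 1 0,
  .mul 412 393,
  .mul 0 1,
  .add 0 413,
  .mul 14 0,
  .scale ⟨1099511627776, 0, 0, 0⟩ 18,
  .add 0 416,
  .mul 20 0,
  .add 0 418,
  .mul 22 0,
  .add 0 420,
  .mul 24 0,
  .add 0 422,
  .mul 26 0,
  .add 0 424,
  .mul 28 0,
  .add 0 426,
  .mul 30 0,
  .add 0 428,
  .mul 33 0,
  .scale ⟨2199023255552, 0, 0, 0⟩ 0,
  .mul 20 31,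
  .sub 1 0,
  .pos 0,
  .scale ⟨0, 496916824064, 0, 0⟩ 41,
  .scale ⟨384334495744, 0, 0, 0⟩ 41,
  .add 1 0,
  .scale ⟨0, 1042976407552, 0, 0⟩ 42,
  .add 1 0,
  .scale ⟨0, 27054619754496, 0, 0⟩ 48,
  .add 1 0,
  .scale ⟨65348874534912, 0, 0, 0⟩ 45,
  .add 1 0,
  .const ⟨298367909888, 0, 0, 0⟩,
  .add 1 0,
  .pos 0,
  .const ⟨15302968475648, 0, 0, 0⟩,
  .add 426 0,
  .pos 0,
  .const ⟨6408896512, 0, 0, 0⟩,
  .sub 448 0,
  .const ⟨412316860416, 0, 0, 0⟩,
  .sub 451 0,
  .mul 0 0,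
  .mul 0 1,
  .mul 4 2,
  .mul 449 449,
  .mul 0 0,
  .scale ⟨39582418599936, 0, 0, 0⟩ 454,
  .neg 0,
  .exp 0,
  .scale ⟨0, 5070260076544, 0, 0⟩ 8,
  .scale ⟨1836919947264, 0, 0, 0⟩ 8,
  .add 1 0,
  .scale ⟨0, 35865805717504, 0, 0⟩ 9,
  .add 1 0,
  .scale ⟨0, 248746764533760, 0, 0⟩ 15,
  .add 1 0,
  .scale ⟨633683020677120, 0, 0, 0⟩ 12,
  .add 1 0,
  .const ⟨4896072794112, 0, 0, 0⟩,
  .add 1 0,
  .mul 470 451,
  .mul 0 1,
  .add 0 471,
  .mul 14 0,
  .scale ⟨1099511627776, 0, 0, 0⟩ 18,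
  .add 0 474,
  .mul 20 0,
  .add 0 476,
  .mul 22 0,
  .add 0 478,
  .mul 24 0,
  .add 0 480,
  .mul 26 0,
  .add 0 482,
  .mul 28 0,
  .add 0 484,
  .mul 30 0,
  .add 0 486,
  .mul 32 0,
  .add 0 488,
  .mul 35 0,
  .scale ⟨2199023255552, 0, 0, 0⟩ 0,
  .mul 22 33,
  .sub 1 0,
  .pos 0,
  .scale ⟨0, 453184192512, 0, 0⟩ 43,
  .scale ⟨421122080768, 0, 0, 0⟩ 43,
  .add 1 0,
  .scale ⟨0, 191486951424, 0, 0⟩ 44,
  .add 1 0,
  .scale ⟨0, 26837648539648, 0, 0⟩ 50,
  .add 1 0,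
  .scale ⟨68546861072384, 0, 0, 0⟩ 47,
  .add 1 0,
  .const ⟨278115254272, 0, 0, 0⟩,
  .add 1 0,
  .pos 0,
  .const ⟨16255377473536, 0, 0, 0⟩,
  .add 486 0,
  .pos 0,
  .const ⟨6408896512, 0, 0, 0⟩,
  .sub 508 0,
  .const ⟨412316860416, 0, 0, 0⟩,
  .sub 511 0,
  .mul 0 0,
  .mul 0 1,
  .mul 4 2,
  .mul 509 509,
  .mul 0 0,
  .scale ⟨43980465111040, 0, 0, 0⟩ 514,
  .neg 0,
  .exp 0,
  .scale ⟨0, 5523444269056, 0, 0⟩ 8,
  .scale ⟨2258042028032, 0, 0, 0⟩ 8,
  .add 1 0,
  .scale ⟨0, 36057292668928, 0, 0⟩ 9,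
  .add 1 0,
  .scale ⟨0, 275584413073408, 0, 0⟩ 15,
  .add 1 0,
  .scale ⟨702229881749504, 0, 0, 0⟩ 12,
  .add 1 0,
  .const ⟨5174188048384, 0, 0, 0⟩,
  .add 1 0,
  .mul 530 511,
  .mul 0 1,
  .add 0 531,
  .mul 14 0,
  .scale ⟨1099511627776, 0, 0, 0⟩ 18,
  .add 0 534,
  .mul 20 0,
  .add 0 536,
  .mul 22 0,
  .add 0 538,
  .mul 24 0,
  .add 0 540,
  .mul 26 0,
  .add 0 542,
  .mul 28 0,
  .add 0 544,
  .mul 30 0,
  .add 0 546,
  .mul 32 0,
  .add 0 548,
  .mul 34 0,
  .add 0 550,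
  .mul 37 0,
  .scale ⟨2199023255552, 0, 0, 0⟩ 0,
  .mul 24 35,
  .sub 1 0,
  .pos 0,
  .scale ⟨0, 407515234304, 0, 0⟩ 45,
  .scale ⟨571071594496, 0, 0, 0⟩ 45,
  .add 1 0,
  .scale ⟨44003557376, 0, 0, 0⟩ 46,
  .add 1 0,
  .scale ⟨0, 25032867512320, 0, 0⟩ 52,
  .add 1 0,
  .scale ⟨59931767537664, 0, 0, 0⟩ 49,
  .add 1 0,
  .const ⟨258730491904, 0, 0, 0⟩,
  .add 1 0,
  .pos 0,
  .const ⟨17241072467968, 0, 0, 0⟩,
  .add 548 0,
  .pos 0,
  .const ⟨6408896512, 0, 0, 0⟩,
  .sub 570 0,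
  .const ⟨412316860416, 0, 0, 0⟩,
  .sub 573 0,
  .mul 0 0,
  .mul 0 1,
  .mul 4 2,
  .mul 571 571,
  .mul 0 0,
  .scale ⟨48378511622144, 0, 0, 0⟩ 576,
  .neg 0,
  .exp 0,
  .scale ⟨0, 5930959503360, 0, 0⟩ 8,
  .scale ⟨2829113622528, 0, 0, 0⟩ 8,
  .add 1 0,
  .scale ⟨0, 36013289111552, 0, 0⟩ 9,
  .add 1 0,
  .scale ⟨0, 300617280585728, 0, 0⟩ 15,
  .add 1 0,
  .scale ⟨762161649287168, 0, 0, 0⟩ 12,
  .add 1 0,
  .const ⟨5432918540288, 0, 0, 0⟩,
  .add 1 0,
  .mul 592 573,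
  .mul 0 1,
  .add 0 593,
  .mul 14 0,
  .scale ⟨1099511627776, 0, 0, 0⟩ 18,
  .add 0 596,
  .mul 20 0,
  .add 0 598,
  .mul 22 0,
  .add 0 600,
  .mul 24 0,
  .add 0 602,
  .mul 26 0,
  .add 0 604,
  .mul 28 0,
  .add 0 606,
  .mul 30 0,
  .add 0 608,
  .mul 32 0,
  .add 0 610,
  .mul 34 0,
  .add 0 612,
  .mul 36 0,
  .add 0 614,
  .mul 39 0,
  .scale ⟨2199023255552, 0, 0, 0⟩ 0,
  .mul 26 37,
  .sub 1 0,
  .pos 0,
  .scale ⟨0, 366771044352, 0, 0⟩ 47,
  .scale ⟨628303724544, 0, 0, 0⟩ 47,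
  .add 1 0,
  .scale ⟨681705865216, 0, 0, 0⟩ 48,
  .add 1 0,
  .scale ⟨0, 22475707383808, 0, 0⟩ 54,
  .add 1 0,
  .scale ⟨57611597709312, 0, 0, 0⟩ 51,
  .add 1 0,
  .const ⟨241170251776, 0, 0, 0⟩,
  .add 1 0,
  .pos 0,
  .const ⟨18256832233472, 0, 0, 0⟩,
  .add 612 0,
  .pos 0,
  .const ⟨6408896512, 0, 0, 0⟩,
  .sub 634 0,
  .const ⟨412316860416, 0, 0, 0⟩,
  .sub 637 0,
  .mul 0 0,
  .mul 0 1,
  .mul 4 2,
  .mul 635 635,
  .mul 0 0,
  .scale ⟨52776558133248, 0, 0, 0⟩ 640,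
  .neg 0,
  .exp 0,
  .scale ⟨0, 6297730547712, 0, 0⟩ 8,
  .scale ⟨3457417347072, 0, 0, 0⟩ 8,
  .add 1 0,
  .scale ⟨0, 35331583246336, 0, 0⟩ 9,
  .add 1 0,
  .scale ⟨0, 323092987969536, 0, 0⟩ 15,
  .add 1 0,
  .scale ⟨819773246996480, 0, 0, 0⟩ 12,
  .add 1 0,
  .const ⟨5674088792064, 0, 0, 0⟩,
  .add 1 0,
  .mul 656 637,
  .mul 0 1,
  .add 0 657,
  .mul 14 0,
  .scale ⟨1099511627776, 0, 0, 0⟩ 18,
  .add 0 660,
  .mul 20 0,
  .add 0 662,
  .mul 22 0,
  .add 0 664,
  .mul 24 0,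
  .add 0 666,
  .mul 26 0,
  .add 0 668,
  .mul 28 0,
  .add 0 670,
  .mul 30 0,
  .add 0 672,
  .mul 32 0,
  .add 0 674,
  .mul 34 0,
  .add 0 676,
  .mul 36 0,
  .add 0 678,
  .mul 38 0,
  .add 0 680,
  .mul 41 0,
  .scale ⟨2199023255552, 0, 0, 0⟩ 0,
  .mul 28 39,
  .sub 1 0,
  .pos 0,
  .scale ⟨0, 325130190848, 0, 0⟩ 49,
  .scale ⟨660249968640, 0, 0, 0⟩ 49,
  .add 1 0,
  .scale ⟨1591076454400, 0, 0, 0⟩ 50,
  .add 1 0,
  .scale ⟨0, 20752089939968, 0, 0⟩ 56,
  .add 1 0,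
  .scale ⟨34235723087872, 0, 0, 0⟩ 53,
  .add 1 0,
  .const ⟨226258649088, 0, 0, 0⟩,
  .add 1 0,
  .pos 0,
  .const ⟨19298361802752, 0, 0, 0⟩,
  .add 678 0,
  .pos 0,
  .const ⟨6408896512, 0, 0, 0⟩,
  .sub 700 0,
  .const ⟨412316860416, 0, 0, 0⟩,
  .sub 703 0,
  .mul 0 0,
  .mul 0 1,
  .mul 4 2,
  .mul 701 701,
  .mul 0 0,
  .scale ⟨57174604644352, 0, 0, 0⟩ 706,
  .neg 0,
  .exp 0,
  .scale ⟨0, 6622860738560, 0, 0⟩ 8,
  .scale ⟨4117667315712, 0, 0, 0⟩ 8,
  .add 1 0,
  .scale ⟨0, 33740506791936, 0, 0⟩ 9,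
  .add 1 0,
  .scale ⟨0, 343845077909504, 0, 0⟩ 15,
  .add 1 0,
  .scale ⟨854008970084352, 0, 0, 0⟩ 12,
  .add 1 0,
  .const ⟨5900347441152, 0, 0, 0⟩,
  .add 1 0,
  .mul 722 703,
  .mul 0 1,
  .add 0 723,
  .mul 14 0,
  .scale ⟨1099511627776, 0, 0, 0⟩ 18,
  .add 0 726,
  .mul 20 0,
  .add 0 728,
  .mul 22 0,
  .add 0 730,
  .mul 24 0,
  .add 0 732,
  .mul 26 0,
  .add 0 734,
  .mul 28 0,
  .add 0 736,
  .mul 30 0,
  .add 0 738,
  .mul 32 0,
  .add 0 740,
  .mul 34 0,
  .add 0 742,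
  .mul 36 0,
  .add 0 744,
  .mul 38 0,
  .add 0 746,
  .mul 40 0,
  .add 0 748,
  .mul 43 0,
  .scale ⟨2199023255552, 0, 0, 0⟩ 0,
  .mul 30 41,
  .sub 1 0,
  .pos 0,
  .scale ⟨0, 254271488000, 0, 0⟩ 51,
  .scale ⟨693449261056, 0, 0, 0⟩ 51,
  .add 1 0,
  .scale ⟨555209523200, 0, 0, 0⟩ 52,
  .add 1 0,
  .scale ⟨0, 22274921529344, 0, 0⟩ 58,
  .add 1 0,
  .scale ⟨0, 5784263720960, 0, 0⟩ 55,
  .add 1 0,
  .const ⟨214340599808, 0, 0, 0⟩,
  .add 1 0,
  .pos 0,
  .const ⟨20362439950336, 0, 0, 0⟩,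
  .add 746 0,
  .pos 0,
  .const ⟨6408896512, 0, 0, 0⟩,
  .sub 768 0,
  .const ⟨412316860416, 0, 0, 0⟩,
  .sub 771 0,
  .mul 0 0,
  .mul 0 1,
  .mul 4 2,
  .mul 769 769,
  .mul 0 0,
  .scale ⟨61572651155456, 0, 0, 0⟩ 774,
  .neg 0,
  .exp 0,
  .scale ⟨0, 6877132226560, 0, 0⟩ 8,
  .scale ⟨4811116576768, 0, 0, 0⟩ 8,
  .add 1 0,
  .scale ⟨0, 33185297268736, 0, 0⟩ 9,
  .add 1 0,
  .scale ⟨0, 366119999438848, 0, 0⟩ 15,
  .add 1 0,
  .scale ⟨848224706363392, 0, 0, 0⟩ 12,
  .add 1 0,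
  .const ⟨6114688040960, 0, 0, 0⟩,
  .add 1 0,
  .mul 790 771,
  .mul 0 1,
  .add 0 791,
  .mul 14 0,
  .scale ⟨1099511627776, 0, 0, 0⟩ 18,
  .add 0 794,
  .mul 20 0,
  .add 0 796,
  .mul 22 0,
  .add 0 798,
  .mul 24 0,
  .add 0 800,
  .mul 26 0,
  .add 0 802,
  .mul 28 0,
  .add 0 804,
  .mul 30 0,
  .add 0 806,
  .mul 32 0,
  .add 0 808,
  .mul 34 0,
  .add 0 810,
  .mul 36 0,
  .add 0 812,
  .mul 38 0,
  .add 0 814,
  .mul 40 0,
  .add 0 816,
  .mul 42 0,
  .add 0 818,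
  .mul 45 0,
  .scale ⟨2199023255552, 0, 0, 0⟩ 0,
  .mul 32 43,
  .sub 1 0,
  .pos 0,
  .mul 824 805,
  .mul 0 35,
  .add 0 825,
  .scale ⟨24189255811072, 0, 0, 0⟩ 825,
  .neg 0,
  .exp 0,
  .mul 3 0,
  .lt 0 1099511627520]

set_option maxRecDepth 1000000 in
noncomputable def c_S_0 {α : Type} (cst : Z → α) (add sub mul : α → α → α) (scale : Z → α → α)
    (neg inv exp log : α → α) (ok : α → Bool) (isPos : Nat → α → Bool) (isLt : α → Nat → Bool)
    (ball : Nat → α → α) (rball : α → α → α) : List α → Bool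
  | [x0, x1] =>
  let v0 := cst ⟨1099511627776, 0, 0, 0⟩; ok v0 && (
  let v1 := mul x0 x1; ok v1 && (
  let v2 := exp v1; ok v2 && (
  let v3 := neg v1; ok v3 && (
  let v4 := exp v3; ok v4 && (
  let v5 := mul v1 v1; ok v5 && (
  isLt v5 68719476736 && (
  let v6 := scale ⟨9162596898, 0, 0, 0⟩ v5; ok v6 && (
  let v7 := cst ⟨183251937962, 0, 0, 0⟩; ok v7 && (
  let v8 := add v6 v7; ok v8 && (
  let v9 := mul v8 v5; ok v9 && (
  let v10 := cst ⟨1099511627776, 0, 0, 0⟩; ok v10 && (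
  let v11 := add v9 v10; ok v11 && (
  let v12 := cst ⟨65536, 0, 0, 0⟩; ok v12 && (
  let v13 := rball v11 v12; ok v13 && (
  let v14 := scale ⟨2199023255552, 0, 0, 0⟩ x1; ok v14 && (
  let v15 := mul v14 v13; ok v15 && (
  let v16 := add v2 v4; ok v16 && (
  let v17 := scale ⟨549755813888, 0, 0, 0⟩ v16; ok v17 && (
  let v18 := mul v15 v17; ok v18 && (
  let v19 := mul v18 v18; ok v19 && (
  let v20 := cst ⟨6408896512, 0, 0, 0⟩; ok v20 && (
  let v21 := sub x0 v20; ok v21 && (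
  let v22 := cst ⟨412316860416, 0, 0, 0⟩; ok v22 && (
  let v23 := sub x1 v22; ok v23 && (
  let v24 := mul v23 v23; ok v24 && (
  let v25 := mul v24 v23; ok v25 && (
  let v26 := mul v21 v23; ok v26 && (
  let v27 := scale ⟨13108641792, 0, 0, 0⟩ v23; ok v27 && (
  let v28 := scale ⟨0, 50882936832, 0, 0⟩ v24; ok v28 && (
  let v29 := add v27 v28; ok v29 && (
  let v30 := scale ⟨37800312832, 0, 0, 0⟩ v25; ok v30 && (
  let v31 := add v29 v30; ok v31 && (
  let v32 := scale ⟨1340043493376, 0, 0, 0⟩ v21; ok v32 && (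
  let v33 := add v31 v32; ok v33 && (
  let v34 := scale ⟨0, 324324622336, 0, 0⟩ v26; ok v34 && (
  let v35 := add v33 v34; ok v35 && (
  let v36 := cst ⟨1798059851776, 0, 0, 0⟩; ok v36 && (
  let v37 := add v35 v36; ok v37 && (
  isPos 2 v37 && (
  let v38 := cst ⟨9011915128832, 0, 0, 0⟩; ok v38 && (
  let v39 := add v19 v38; ok v39 && (
  isPos 2 v39 && (
  let v40 := cst ⟨6408896512, 0, 0, 0⟩; ok v40 && (
  let v41 := sub x0 v40; ok v41 && (
  let v42 := cst ⟨412316860416, 0, 0, 0⟩; ok v42 && (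
  let v43 := sub x1 v42; ok v43 && (
  let v44 := mul v43 v43; ok v44 && (
  let v45 := mul v44 v43; ok v45 && (
  let v46 := mul v41 v43; ok v46 && (
  let v47 := mul v4 v4; ok v47 && (
  let v48 := mul v47 v47; ok v48 && (
  let v49 := scale ⟨4398046511104, 0, 0, 0⟩ v1; ok v49 && (
  let v50 := neg v49; ok v50 && (
  let v51 := exp v50; ok v51 && (
  let v52 := scale ⟨13108641792, 0, 0, 0⟩ v43; ok v52 && (
  let v53 := scale ⟨0, 50882936832, 0, 0⟩ v44; ok v53 && (
  let v54 := add v52 v53; ok v54 && (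
  let v55 := scale ⟨37800312832, 0, 0, 0⟩ v45; ok v55 && (
  let v56 := add v54 v55; ok v56 && (
  let v57 := scale ⟨1340043493376, 0, 0, 0⟩ v41; ok v57 && (
  let v58 := add v56 v57; ok v58 && (
  let v59 := scale ⟨0, 324324622336, 0, 0⟩ v46; ok v59 && (
  let v60 := add v58 v59; ok v60 && (
  let v61 := cst ⟨1798059851776, 0, 0, 0⟩; ok v61 && (
  let v62 := add v60 v61; ok v62 && (
  let v63 := mul x0 v18; ok v63 && (
  let v64 := mul v63 v62; ok v64 && (
  let v65 := add v64 v0; ok v65 && (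
  let v66 := mul v51 v65; ok v66 && (
  let v67 := scale ⟨2199023255552, 0, 0, 0⟩ v47; ok v67 && (
  let v68 := mul v62 v51; ok v68 && (
  let v69 := sub v67 v68; ok v69 && (
  isPos 2 v69 && (
  let v70 := scale ⟨0, 827745763328, 0, 0⟩ v43; ok v70 && (
  let v71 := scale ⟨206230978560, 0, 0, 0⟩ v44; ok v71 && (
  let v72 := add v70 v71; ok v72 && (
  let v73 := scale ⟨0, 7719200292864, 0, 0⟩ v45; ok v73 && (
  let v74 := add v72 v73; ok v74 && (
  let v75 := scale ⟨0, 39776875118592, 0, 0⟩ v41; ok v75 && (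
  let v76 := add v74 v75; ok v76 && (
  let v77 := scale ⟨105220166909952, 0, 0, 0⟩ v46; ok v77 && (
  let v78 := add v76 v77; ok v78 && (
  let v79 := cst ⟨512683147264, 0, 0, 0⟩; ok v79 && (
  let v80 := add v78 v79; ok v80 && (
  isPos 2 v80 && (
  let v81 := cst ⟨9671192608768, 0, 0, 0⟩; ok v81 && (
  let v82 := add v19 v81; ok v82 && (
  isPos 2 v82 && (
  let v83 := cst ⟨6408896512, 0, 0, 0⟩; ok v83 && (
  let v84 := sub x0 v83; ok v84 && (
  let v85 := cst ⟨412316860416, 0, 0, 0⟩; ok v85 && (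
  let v86 := sub x1 v85; ok v86 && (
  let v87 := mul v86 v86; ok v87 && (
  let v88 := mul v87 v86; ok v88 && (
  let v89 := mul v84 v86; ok v89 && (
  let v90 := mul v4 v4; ok v90 && (
  let v91 := mul v90 v90; ok v91 && (
  let v92 := scale ⟨8796093022208, 0, 0, 0⟩ v1; ok v92 && (
  let v93 := neg v92; ok v93 && (
  let v94 := exp v93; ok v94 && (
  let v95 := scale ⟨0, 814637121536, 0, 0⟩ v86; ok v95 && (
  let v96 := scale ⟨155348041728, 0, 0, 0⟩ v87; ok v96 && (
  let v97 := add v95 v96; ok v97 && (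
  let v98 := scale ⟨0, 7681399980032, 0, 0⟩ v88; ok v98 && (
  let v99 := add v97 v98; ok v99 && (
  let v100 := scale ⟨0, 38436831625216, 0, 0⟩ v84; ok v100 && (
  let v101 := add v99 v100; ok v101 && (
  let v102 := scale ⟨104895842287616, 0, 0, 0⟩ v89; ok v102 && (
  let v103 := add v101 v102; ok v103 && (
  let v104 := cst ⟨2310742999040, 0, 0, 0⟩; ok v104 && (
  let v105 := add v103 v104; ok v105 && (
  let v106 := mul x0 v18; ok v106 && (
  let v107 := mul v106 v105; ok v107 && (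
  let v108 := add v107 v0; ok v108 && (
  let v109 := mul v94 v108; ok v109 && (
  let v110 := scale ⟨1099511627776, 0, 0, 0⟩ v91; ok v110 && (
  let v111 := add v110 v0; ok v111 && (
  let v112 := mul v90 v111; ok v112 && (
  let v113 := scale ⟨2199023255552, 0, 0, 0⟩ v112; ok v113 && (
  let v114 := mul v105 v94; ok v114 && (
  let v115 := sub v113 v114; ok v115 && (
  isPos 2 v115 && (
  let v116 := scale ⟨0, 745073410048, 0, 0⟩ v86; ok v116 && (
  let v117 := scale ⟨258124087296, 0, 0, 0⟩ v87; ok v117 && (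
  let v118 := add v116 v117; ok v118 && (
  let v119 := scale ⟨0, 6177705885696, 0, 0⟩ v88; ok v119 && (
  let v120 := add v118 v119; ok v120 && (
  let v121 := scale ⟨0, 35234719006720, 0, 0⟩ v84; ok v121 && (
  let v122 := add v120 v121; ok v122 && (
  let v123 := scale ⟨85283087253504, 0, 0, 0⟩ v89; ok v123 && (
  let v124 := add v122 v123; ok v124 && (
  let v125 := cst ⟨454657114112, 0, 0, 0⟩; ok v125 && (
  let v126 := add v124 v125; ok v126 && (
  isPos 2 v126 && (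
  let v127 := cst ⟨10364829827072, 0, 0, 0⟩; ok v127 && (
  let v128 := add v19 v127; ok v128 && (
  isPos 2 v128 && (
  let v129 := cst ⟨6408896512, 0, 0, 0⟩; ok v129 && (
  let v130 := sub x0 v129; ok v130 && (
  let v131 := cst ⟨412316860416, 0, 0, 0⟩; ok v131 && (
  let v132 := sub x1 v131; ok v132 && (
  let v133 := mul v132 v132; ok v133 && (
  let v134 := mul v133 v132; ok v134 && (
  let v135 := mul v130 v132; ok v135 && (
  let v136 := mul v4 v4; ok v136 && (
  let v137 := mul v136 v136; ok v137 && (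
  let v138 := scale ⟨13194139533312, 0, 0, 0⟩ v1; ok v138 && (
  let v139 := neg v138; ok v139 && (
  let v140 := exp v139; ok v140 && (
  let v141 := scale ⟨0, 1559710531584, 0, 0⟩ v132; ok v141 && (
  let v142 := scale ⟨413472129024, 0, 0, 0⟩ v133; ok v142 && (
  let v143 := add v141 v142; ok v143 && (
  let v144 := scale ⟨0, 13859105865728, 0, 0⟩ v134; ok v144 && (
  let v145 := add v143 v144; ok v145 && (
  let v146 := scale ⟨0, 73671550631936, 0, 0⟩ v130; ok v146 && (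
  let v147 := add v145 v146; ok v147 && (
  let v148 := scale ⟨190178929541120, 0, 0, 0⟩ v135; ok v148 && (
  let v149 := add v147 v148; ok v149 && (
  let v150 := cst ⟨2765400113152, 0, 0, 0⟩; ok v150 && (
  let v151 := add v149 v150; ok v151 && (
  let v152 := mul x0 v18; ok v152 && (
  let v153 := mul v152 v151; ok v153 && (
  let v154 := add v153 v0; ok v154 && (
  let v155 := mul v140 v154; ok v155 && (
  let v156 := scale ⟨1099511627776, 0, 0, 0⟩ v137; ok v156 && (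
  let v157 := add v156 v0; ok v157 && (
  let v158 := mul v137 v157; ok v158 && (
  let v159 := add v158 v0; ok v159 && (
  let v160 := mul v136 v159; ok v160 && (
  let v161 := scale ⟨2199023255552, 0, 0, 0⟩ v160; ok v161 && (
  let v162 := mul v151 v140; ok v162 && (
  let v163 := sub v161 v162; ok v163 && (
  isPos 2 v163 && (
  let v164 := scale ⟨0, 684454707200, 0, 0⟩ v132; ok v164 && (
  let v165 := scale ⟨209456201728, 0, 0, 0⟩ v133; ok v165 && (
  let v166 := add v164 v165; ok v166 && (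
  let v167 := scale ⟨0, 5737452535808, 0, 0⟩ v134; ok v167 && (
  let v168 := add v166 v167; ok v168 && (
  let v169 := scale ⟨0, 32713814048768, 0, 0⟩ v130; ok v169 && (
  let v170 := add v168 v169; ok v170 && (
  let v171 := scale ⟨82574059765760, 0, 0, 0⟩ v135; ok v171 && (
  let v172 := add v170 v171; ok v172 && (
  let v173 := cst ⟨417480245248, 0, 0, 0⟩; ok v173 && (
  let v174 := add v172 v173; ok v174 && (
  isPos 2 v174 && (
  let v175 := cst ⟨11091753041920, 0, 0, 0⟩; ok v175 && (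
  let v176 := add v19 v175; ok v176 && (
  isPos 2 v176 && (
  let v177 := cst ⟨6408896512, 0, 0, 0⟩; ok v177 && (
  let v178 := sub x0 v177; ok v178 && (
  let v179 := cst ⟨412316860416, 0, 0, 0⟩; ok v179 && (
  let v180 := sub x1 v179; ok v180 && (
  let v181 := mul v180 v180; ok v181 && (
  let v182 := mul v181 v180; ok v182 && (
  let v183 := mul v178 v180; ok v183 && (
  let v184 := mul v4 v4; ok v184 && (
  let v185 := mul v184 v184; ok v185 && (
  let v186 := scale ⟨17592186044416, 0, 0, 0⟩ v1; ok v186 && (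
  let v187 := neg v186; ok v187 && (
  let v188 := exp v187; ok v188 && (
  let v189 := scale ⟨0, 2244165238784, 0, 0⟩ v180; ok v189 && (
  let v190 := scale ⟨622928330752, 0, 0, 0⟩ v181; ok v190 && (
  let v191 := add v189 v190; ok v191 && (
  let v192 := scale ⟨0, 19596558401536, 0, 0⟩ v182; ok v192 && (
  let v193 := add v191 v192; ok v193 && (
  let v194 := scale ⟨0, 106385364680704, 0, 0⟩ v178; ok v194 && (
  let v195 := add v193 v194; ok v195 && (
  let v196 := scale ⟨272752989306880, 0, 0, 0⟩ v183; ok v196 && (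
  let v197 := add v195 v196; ok v197 && (
  let v198 := cst ⟨3182880358400, 0, 0, 0⟩; ok v198 && (
  let v199 := add v197 v198; ok v199 && (
  let v200 := mul x0 v18; ok v200 && (
  let v201 := mul v200 v199; ok v201 && (
  let v202 := add v201 v0; ok v202 && (
  let v203 := mul v188 v202; ok v203 && (
  let v204 := scale ⟨1099511627776, 0, 0, 0⟩ v185; ok v204 && (
  let v205 := add v204 v0; ok v205 && (
  let v206 := mul v185 v205; ok v206 && (
  let v207 := add v206 v0; ok v207 && (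
  let v208 := mul v185 v207; ok v208 && (
  let v209 := add v208 v0; ok v209 && (
  let v210 := mul v184 v209; ok v210 && (
  let v211 := scale ⟨2199023255552, 0, 0, 0⟩ v210; ok v211 && (
  let v212 := mul v199 v188; ok v212 && (
  let v213 := sub v211 v212; ok v213 && (
  isPos 2 v213 && (
  let v214 := scale ⟨0, 625963565056, 0, 0⟩ v180; ok v214 && (
  let v215 := scale ⟨143477702656, 0, 0, 0⟩ v181; ok v215 && (
  let v216 := add v214 v215; ok v216 && (
  let v217 := scale ⟨0, 5851618344960, 0, 0⟩ v182; ok v217 && (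
  let v218 := add v216 v217; ok v218 && (
  let v219 := scale ⟨0, 30274675474432, 0, 0⟩ v178; ok v219 && (
  let v220 := add v218 v219; ok v220 && (
  let v221 := scale ⟨81305421873152, 0, 0, 0⟩ v183; ok v221 && (
  let v222 := add v220 v221; ok v222 && (
  let v223 := cst ⟨388634247168, 0, 0, 0⟩; ok v223 && (
  let v224 := add v222 v223; ok v224 && (
  isPos 2 v224 && (
  let v225 := cst ⟨11857330962432, 0, 0, 0⟩; ok v225 && (
  let v226 := add v19 v225; ok v226 && (
  isPos 2 v226 && (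
  let v227 := cst ⟨6408896512, 0, 0, 0⟩; ok v227 && (
  let v228 := sub x0 v227; ok v228 && (
  let v229 := cst ⟨412316860416, 0, 0, 0⟩; ok v229 && (
  let v230 := sub x1 v229; ok v230 && (
  let v231 := mul v230 v230; ok v231 && (
  let v232 := mul v231 v230; ok v232 && (
  let v233 := mul v228 v230; ok v233 && (
  let v234 := mul v4 v4; ok v234 && (
  let v235 := mul v234 v234; ok v235 && (
  let v236 := scale ⟨21990232555520, 0, 0, 0⟩ v1; ok v236 && (
  let v237 := neg v236; ok v237 && (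
  let v238 := exp v237; ok v238 && (
  let v239 := scale ⟨0, 2870128803840, 0, 0⟩ v230; ok v239 && (
  let v240 := scale ⟨766406033408, 0, 0, 0⟩ v231; ok v240 && (
  let v241 := add v239 v240; ok v241 && (
  let v242 := scale ⟨0, 25448176746496, 0, 0⟩ v232; ok v242 && (
  let v243 := add v241 v242; ok v243 && (
  let v244 := scale ⟨0, 136660040155136, 0, 0⟩ v228; ok v244 && (
  let v245 := add v243 v244; ok v245 && (
  let v246 := scale ⟨354058411180032, 0, 0, 0⟩ v233; ok v246 && (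
  let v247 := add v245 v246; ok v247 && (
  let v248 := cst ⟨3571514605568, 0, 0, 0⟩; ok v248 && (
  let v249 := add v247 v248; ok v249 && (
  let v250 := mul x0 v18; ok v250 && (
  let v251 := mul v250 v249; ok v251 && (
  let v252 := add v251 v0; ok v252 && (
  let v253 := mul v238 v252; ok v253 && (
  let v254 := scale ⟨1099511627776, 0, 0, 0⟩ v235; ok v254 && (
  let v255 := add v254 v0; ok v255 && (
  let v256 := mul v235 v255; ok v256 && (
  let v257 := add v256 v0; ok v257 && (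
  let v258 := mul v235 v257; ok v258 && (
  let v259 := add v258 v0; ok v259 && (
  let v260 := mul v235 v259; ok v260 && (
  let v261 := add v260 v0; ok v261 && (
  let v262 := mul v234 v261; ok v262 && (
  let v263 := scale ⟨2199023255552, 0, 0, 0⟩ v262; ok v263 && (
  let v264 := mul v249 v238; ok v264 && (
  let v265 := sub v263 v264; ok v265 && (
  isPos 2 v265 && (
  let v266 := scale ⟨0, 591724150784, 0, 0⟩ v230; ok v266 && (
  let v267 := scale ⟨182654599168, 0, 0, 0⟩ v231; ok v267 && (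
  let v268 := add v266 v267; ok v268 && (
  let v269 := scale ⟨0, 4792037933056, 0, 0⟩ v232; ok v269 && (
  let v270 := add v268 v269; ok v270 && (
  let v271 := scale ⟨0, 29009514397696, 0, 0⟩ v228; ok v271 && (
  let v272 := add v270 v271; ok v272 && (
  let v273 := scale ⟨76653956104192, 0, 0, 0⟩ v233; ok v273 && (
  let v274 := add v272 v273; ok v274 && (
  let v275 := cst ⟨364169330688, 0, 0, 0⟩; ok v275 && (
  let v276 := add v274 v275; ok v276 && (
  isPos 2 v276 && (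
  let v277 := cst ⟨12661563588608, 0, 0, 0⟩; ok v277 && (
  let v278 := add v19 v277; ok v278 && (
  isPos 2 v278 && (
  let v279 := cst ⟨6408896512, 0, 0, 0⟩; ok v279 && (
  let v280 := sub x0 v279; ok v280 && (
  let v281 := cst ⟨412316860416, 0, 0, 0⟩; ok v281 && (
  let v282 := sub x1 v281; ok v282 && (
  let v283 := mul v282 v282; ok v283 && (
  let v284 := mul v283 v282; ok v284 && (
  let v285 := mul v280 v282; ok v285 && (
  let v286 := mul v4 v4; ok v286 && (
  let v287 := mul v286 v286; ok v287 && (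
  let v288 := scale ⟨26388279066624, 0, 0, 0⟩ v1; ok v288 && (
  let v289 := neg v288; ok v289 && (
  let v290 := exp v289; ok v290 && (
  let v291 := scale ⟨0, 3461852954624, 0, 0⟩ v282; ok v291 && (
  let v292 := scale ⟨949060632576, 0, 0, 0⟩ v283; ok v292 && (
  let v293 := add v291 v292; ok v293 && (
  let v294 := scale ⟨0, 30240214679552, 0, 0⟩ v284; ok v294 && (
  let v295 := add v293 v294; ok v295 && (
  let v296 := scale ⟨0, 165669554552832, 0, 0⟩ v280; ok v296 && (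
  let v297 := add v295 v296; ok v297 && (
  let v298 := scale ⟨430712367284224, 0, 0, 0⟩ v285; ok v298 && (
  let v299 := add v297 v298; ok v299 && (
  let v300 := cst ⟨3935683936256, 0, 0, 0⟩; ok v300 && (
  let v301 := add v299 v300; ok v301 && (
  let v302 := mul x0 v18; ok v302 && (
  let v303 := mul v302 v301; ok v303 && (
  let v304 := add v303 v0; ok v304 && (
  let v305 := mul v290 v304; ok v305 && (
  let v306 := scale ⟨1099511627776, 0, 0, 0⟩ v287; ok v306 && (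
  let v307 := add v306 v0; ok v307 && (
  let v308 := mul v287 v307; ok v308 && (
  let v309 := add v308 v0; ok v309 && (
  let v310 := mul v287 v309; ok v310 && (
  let v311 := add v310 v0; ok v311 && (
  let v312 := mul v287 v311; ok v312 && (
  let v313 := add v312 v0; ok v313 && (
  let v314 := mul v287 v313; ok v314 && (
  let v315 := add v314 v0; ok v315 && (
  let v316 := mul v286 v315; ok v316 && (
  let v317 := scale ⟨2199023255552, 0, 0, 0⟩ v316; ok v317 && (
  let v318 := mul v301 v290; ok v318 && (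
  let v319 := sub v317 v318; ok v319 && (
  isPos 2 v319 && (
  let v320 := scale ⟨0, 567992647680, 0, 0⟩ v282; ok v320 && (
  let v321 := scale ⟨214538452992, 0, 0, 0⟩ v283; ok v321 && (
  let v322 := add v320 v321; ok v322 && (
  let v323 := scale ⟨0, 3126140403712, 0, 0⟩ v284; ok v323 && (
  let v324 := add v322 v323; ok v324 && (
  let v325 := scale ⟨0, 28439324459008, 0, 0⟩ v280; ok v325 && (
  let v326 := add v324 v325; ok v326 && (
  let v327 := scale ⟨71228938452992, 0, 0, 0⟩ v285; ok v327 && (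
  let v328 := add v326 v327; ok v328 && (
  let v329 := cst ⟨342161162240, 0, 0, 0⟩; ok v329 && (
  let v330 := add v328 v329; ok v330 && (
  isPos 2 v330 && (
  let v331 := cst ⟨13504450920448, 0, 0, 0⟩; ok v331 && (
  let v332 := add v19 v331; ok v332 && (
  isPos 2 v332 && (
  let v333 := cst ⟨6408896512, 0, 0, 0⟩; ok v333 && (
  let v334 := sub x0 v333; ok v334 && (
  let v335 := cst ⟨412316860416, 0, 0, 0⟩; ok v335 && (
  let v336 := sub x1 v335; ok v336 && (
  let v337 := mul v336 v336; ok v337 && (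
  let v338 := mul v337 v336; ok v338 && (
  let v339 := mul v334 v336; ok v339 && (
  let v340 := mul v4 v4; ok v340 && (
  let v341 := mul v340 v340; ok v341 && (
  let v342 := scale ⟨30786325577728, 0, 0, 0⟩ v1; ok v342 && (
  let v343 := neg v342; ok v343 && (
  let v344 := exp v343; ok v344 && (
  let v345 := scale ⟨0, 4029845602304, 0, 0⟩ v336; ok v345 && (
  let v346 := scale ⟨1163599085568, 0, 0, 0⟩ v337; ok v346 && (
  let v347 := add v345 v346; ok v347 && (
  let v348 := scale ⟨0, 33366355083264, 0, 0⟩ v338; ok v348 && (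
  let v349 := add v347 v348; ok v349 && (
  let v350 := scale ⟨0, 194108879011840, 0, 0⟩ v334; ok v350 && (
  let v351 := add v349 v350; ok v351 && (
  let v352 := scale ⟨501941305737216, 0, 0, 0⟩ v339; ok v352 && (
  let v353 := add v351 v352; ok v353 && (
  let v354 := cst ⟨4277845098496, 0, 0, 0⟩; ok v354 && (
  let v355 := add v353 v354; ok v355 && (
  let v356 := mul x0 v18; ok v356 && (
  let v357 := mul v356 v355; ok v357 && (
  let v358 := add v357 v0; ok v358 && (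
  let v359 := mul v344 v358; ok v359 && (
  let v360 := scale ⟨1099511627776, 0, 0, 0⟩ v341; ok v360 && (
  let v361 := add v360 v0; ok v361 && (
  let v362 := mul v341 v361; ok v362 && (
  let v363 := add v362 v0; ok v363 && (
  let v364 := mul v341 v363; ok v364 && (
  let v365 := add v364 v0; ok v365 && (
  let v366 := mul v341 v365; ok v366 && (
  let v367 := add v366 v0; ok v367 && (
  let v368 := mul v341 v367; ok v368 && (
  let v369 := add v368 v0; ok v369 && (
  let v370 := mul v341 v369; ok v370 && (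
  let v371 := add v370 v0; ok v371 && (
  let v372 := mul v340 v371; ok v372 && (
  let v373 := scale ⟨2199023255552, 0, 0, 0⟩ v372; ok v373 && (
  let v374 := mul v355 v344; ok v374 && (
  let v375 := sub v373 v374; ok v375 && (
  isPos 2 v375 && (
  let v376 := scale ⟨0, 543497650176, 0, 0⟩ v336; ok v376 && (
  let v377 := scale ⟨288986365952, 0, 0, 0⟩ v337; ok v377 && (
  let v378 := add v376 v377; ok v378 && (
  let v379 := scale ⟨0, 1456474226688, 0, 0⟩ v338; ok v379 && (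
  let v380 := add v378 v379; ok v380 && (
  let v381 := scale ⟨0, 27583265767424, 0, 0⟩ v334; ok v381 && (
  let v382 := add v380 v381; ok v382 && (
  let v383 := scale ⟨66392840404992, 0, 0, 0⟩ v339; ok v383 && (
  let v384 := add v382 v383; ok v384 && (
  let v385 := cst ⟨319859785728, 0, 0, 0⟩; ok v385 && (
  let v386 := add v384 v385; ok v386 && (
  isPos 2 v386 && (
  let v387 := cst ⟨14384919216128, 0, 0, 0⟩; ok v387 && (
  let v388 := add v19 v387; ok v388 && (
  isPos 2 v388 && (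
  let v389 := cst ⟨6408896512, 0, 0, 0⟩; ok v389 && (
  let v390 := sub x0 v389; ok v390 && (
  let v391 := cst ⟨412316860416, 0, 0, 0⟩; ok v391 && (
  let v392 := sub x1 v391; ok v392 && (
  let v393 := mul v392 v392; ok v393 && (
  let v394 := mul v393 v392; ok v394 && (
  let v395 := mul v390 v392; ok v395 && (
  let v396 := mul v4 v4; ok v396 && (
  let v397 := mul v396 v396; ok v397 && (
  let v398 := scale ⟨35184372088832, 0, 0, 0⟩ v1; ok v398 && (
  let v399 := neg v398; ok v399 && (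
  let v400 := exp v399; ok v400 && (
  let v401 := scale ⟨0, 4573343252480, 0, 0⟩ v392; ok v401 && (
  let v402 := scale ⟨1452585451520, 0, 0, 0⟩ v393; ok v402 && (
  let v403 := add v401 v402; ok v403 && (
  let v404 := scale ⟨0, 34822829309952, 0, 0⟩ v394; ok v404 && (
  let v405 := add v403 v404; ok v405 && (
  let v406 := scale ⟨0, 221692144779264, 0, 0⟩ v390; ok v406 && (
  let v407 := add v405 v406; ok v407 && (
  let v408 := scale ⟨568334146142208, 0, 0, 0⟩ v395; ok v408 && (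
  let v409 := add v407 v408; ok v409 && (
  let v410 := cst ⟨4597704884224, 0, 0, 0⟩; ok v410 && (
  let v411 := add v409 v410; ok v411 && (
  let v412 := mul x0 v18; ok v412 && (
  let v413 := mul v412 v411; ok v413 && (
  let v414 := add v413 v0; ok v414 && (
  let v415 := mul v400 v414; ok v415 && (
  let v416 := scale ⟨1099511627776, 0, 0, 0⟩ v397; ok v416 && (
  let v417 := add v416 v0; ok v417 && (
  let v418 := mul v397 v417; ok v418 && (
  let v419 := add v418 v0; ok v419 && (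
  let v420 := mul v397 v419; ok v420 && (
  let v421 := add v420 v0; ok v421 && (
  let v422 := mul v397 v421; ok v422 && (
  let v423 := add v422 v0; ok v423 && (
  let v424 := mul v397 v423; ok v424 && (
  let v425 := add v424 v0; ok v425 && (
  let v426 := mul v397 v425; ok v426 && (
  let v427 := add v426 v0; ok v427 && (
  let v428 := mul v397 v427; ok v428 && (
  let v429 := add v428 v0; ok v429 && (
  let v430 := mul v396 v429; ok v430 && (
  let v431 := scale ⟨2199023255552, 0, 0, 0⟩ v430; ok v431 && (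
  let v432 := mul v411 v400; ok v432 && (
  let v433 := sub v431 v432; ok v433 && (
  isPos 2 v433 && (
  let v434 := scale ⟨0, 496916824064, 0, 0⟩ v392; ok v434 && (
  let v435 := scale ⟨384334495744, 0, 0, 0⟩ v393; ok v435 && (
  let v436 := add v434 v435; ok v436 && (
  let v437 := scale ⟨0, 1042976407552, 0, 0⟩ v394; ok v437 && (
  let v438 := add v436 v437; ok v438 && (
  let v439 := scale ⟨0, 27054619754496, 0, 0⟩ v390; ok v439 && (
  let v440 := add v438 v439; ok v440 && (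
  let v441 := scale ⟨65348874534912, 0, 0, 0⟩ v395; ok v441 && (
  let v442 := add v440 v441; ok v442 && (
  let v443 := cst ⟨298367909888, 0, 0, 0⟩; ok v443 && (
  let v444 := add v442 v443; ok v444 && (
  isPos 2 v444 && (
  let v445 := cst ⟨15302968475648, 0, 0, 0⟩; ok v445 && (
  let v446 := add v19 v445; ok v446 && (
  isPos 2 v446 && (
  let v447 := cst ⟨6408896512, 0, 0, 0⟩; ok v447 && (
  let v448 := sub x0 v447; ok v448 && (
  let v449 := cst ⟨412316860416, 0, 0, 0⟩; ok v449 && (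
  let v450 := sub x1 v449; ok v450 && (
  let v451 := mul v450 v450; ok v451 && (
  let v452 := mul v451 v450; ok v452 && (
  let v453 := mul v448 v450; ok v453 && (
  let v454 := mul v4 v4; ok v454 && (
  let v455 := mul v454 v454; ok v455 && (
  let v456 := scale ⟨39582418599936, 0, 0, 0⟩ v1; ok v456 && (
  let v457 := neg v456; ok v457 && (
  let v458 := exp v457; ok v458 && (
  let v459 := scale ⟨0, 5070260076544, 0, 0⟩ v450; ok v459 && (
  let v460 := scale ⟨1836919947264, 0, 0, 0⟩ v451; ok v460 && (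
  let v461 := add v459 v460; ok v461 && (
  let v462 := scale ⟨0, 35865805717504, 0, 0⟩ v452; ok v462 && (
  let v463 := add v461 v462; ok v463 && (
  let v464 := scale ⟨0, 248746764533760, 0, 0⟩ v448; ok v464 && (
  let v465 := add v463 v464; ok v465 && (
  let v466 := scale ⟨633683020677120, 0, 0, 0⟩ v453; ok v466 && (
  let v467 := add v465 v466; ok v467 && (
  let v468 := cst ⟨4896072794112, 0, 0, 0⟩; ok v468 && (
  let v469 := add v467 v468; ok v469 && (
  let v470 := mul x0 v18; ok v470 && (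
  let v471 := mul v470 v469; ok v471 && (
  let v472 := add v471 v0; ok v472 && (
  let v473 := mul v458 v472; ok v473 && (
  let v474 := scale ⟨1099511627776, 0, 0, 0⟩ v455; ok v474 && (
  let v475 := add v474 v0; ok v475 && (
  let v476 := mul v455 v475; ok v476 && (
  let v477 := add v476 v0; ok v477 && (
  let v478 := mul v455 v477; ok v478 && (
  let v479 := add v478 v0; ok v479 && (
  let v480 := mul v455 v479; ok v480 && (
  let v481 := add v480 v0; ok v481 && (
  let v482 := mul v455 v481; ok v482 && (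
  let v483 := add v482 v0; ok v483 && (
  let v484 := mul v455 v483; ok v484 && (
  let v485 := add v484 v0; ok v485 && (
  let v486 := mul v455 v485; ok v486 && (
  let v487 := add v486 v0; ok v487 && (
  let v488 := mul v455 v487; ok v488 && (
  let v489 := add v488 v0; ok v489 && (
  let v490 := mul v454 v489; ok v490 && (
  let v491 := scale ⟨2199023255552, 0, 0, 0⟩ v490; ok v491 && (
  let v492 := mul v469 v458; ok v492 && (
  let v493 := sub v491 v492; ok v493 && (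
  isPos 2 v493 && (
  let v494 := scale ⟨0, 453184192512, 0, 0⟩ v450; ok v494 && (
  let v495 := scale ⟨421122080768, 0, 0, 0⟩ v451; ok v495 && (
  let v496 := add v494 v495; ok v496 && (
  let v497 := scale ⟨0, 191486951424, 0, 0⟩ v452; ok v497 && (
  let v498 := add v496 v497; ok v498 && (
  let v499 := scale ⟨0, 26837648539648, 0, 0⟩ v448; ok v499 && (
  let v500 := add v498 v499; ok v500 && (
  let v501 := scale ⟨68546861072384, 0, 0, 0⟩ v453; ok v501 && (
  let v502 := add v500 v501; ok v502 && (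
  let v503 := cst ⟨278115254272, 0, 0, 0⟩; ok v503 && (
  let v504 := add v502 v503; ok v504 && (
  isPos 2 v504 && (
  let v505 := cst ⟨16255377473536, 0, 0, 0⟩; ok v505 && (
  let v506 := add v19 v505; ok v506 && (
  isPos 2 v506 && (
  let v507 := cst ⟨6408896512, 0, 0, 0⟩; ok v507 && (
  let v508 := sub x0 v507; ok v508 && (
  let v509 := cst ⟨412316860416, 0, 0, 0⟩; ok v509 && (
  let v510 := sub x1 v509; ok v510 && (
  let v511 := mul v510 v510; ok v511 && (
  let v512 := mul v511 v510; ok v512 && (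
  let v513 := mul v508 v510; ok v513 && (
  let v514 := mul v4 v4; ok v514 && (
  let v515 := mul v514 v514; ok v515 && (
  let v516 := scale ⟨43980465111040, 0, 0, 0⟩ v1; ok v516 && (
  let v517 := neg v516; ok v517 && (
  let v518 := exp v517; ok v518 && (
  let v519 := scale ⟨0, 5523444269056, 0, 0⟩ v510; ok v519 && (
  let v520 := scale ⟨2258042028032, 0, 0, 0⟩ v511; ok v520 && (
  let v521 := add v519 v520; ok v521 && (
  let v522 := scale ⟨0, 36057292668928, 0, 0⟩ v512; ok v522 && (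
  let v523 := add v521 v522; ok v523 && (
  let v524 := scale ⟨0, 275584413073408, 0, 0⟩ v508; ok v524 && (
  let v525 := add v523 v524; ok v525 && (
  let v526 := scale ⟨702229881749504, 0, 0, 0⟩ v513; ok v526 && (
  let v527 := add v525 v526; ok v527 && (
  let v528 := cst ⟨5174188048384, 0, 0, 0⟩; ok v528 && (
  let v529 := add v527 v528; ok v529 && (
  let v530 := mul x0 v18; ok v530 && (
  let v531 := mul v530 v529; ok v531 && (
  let v532 := add v531 v0; ok v532 && (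
  let v533 := mul v518 v532; ok v533 && (
  let v534 := scale ⟨1099511627776, 0, 0, 0⟩ v515; ok v534 && (
  let v535 := add v534 v0; ok v535 && (
  let v536 := mul v515 v535; ok v536 && (
  let v537 := add v536 v0; ok v537 && (
  let v538 := mul v515 v537; ok v538 && (
  let v539 := add v538 v0; ok v539 && (
  let v540 := mul v515 v539; ok v540 && (
  let v541 := add v540 v0; ok v541 && (
  let v542 := mul v515 v541; ok v542 && (
  let v543 := add v542 v0; ok v543 && (
  let v544 := mul v515 v543; ok v544 && (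
  let v545 := add v544 v0; ok v545 && (
  let v546 := mul v515 v545; ok v546 && (
  let v547 := add v546 v0; ok v547 && (
  let v548 := mul v515 v547; ok v548 && (
  let v549 := add v548 v0; ok v549 && (
  let v550 := mul v515 v549; ok v550 && (
  let v551 := add v550 v0; ok v551 && (
  let v552 := mul v514 v551; ok v552 && (
  let v553 := scale ⟨2199023255552, 0, 0, 0⟩ v552; ok v553 && (
  let v554 := mul v529 v518; ok v554 && (
  let v555 := sub v553 v554; ok v555 && (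
  isPos 2 v555 && (
  let v556 := scale ⟨0, 407515234304, 0, 0⟩ v510; ok v556 && (
  let v557 := scale ⟨571071594496, 0, 0, 0⟩ v511; ok v557 && (
  let v558 := add v556 v557; ok v558 && (
  let v559 := scale ⟨44003557376, 0, 0, 0⟩ v512; ok v559 && (
  let v560 := add v558 v559; ok v560 && (
  let v561 := scale ⟨0, 25032867512320, 0, 0⟩ v508; ok v561 && (
  let v562 := add v560 v561; ok v562 && (
  let v563 := scale ⟨59931767537664, 0, 0, 0⟩ v513; ok v563 && (
  let v564 := add v562 v563; ok v564 && (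
  let v565 := cst ⟨258730491904, 0, 0, 0⟩; ok v565 && (
  let v566 := add v564 v565; ok v566 && (
  isPos 2 v566 && (
  let v567 := cst ⟨17241072467968, 0, 0, 0⟩; ok v567 && (
  let v568 := add v19 v567; ok v568 && (
  isPos 2 v568 && (
  let v569 := cst ⟨6408896512, 0, 0, 0⟩; ok v569 && (
  let v570 := sub x0 v569; ok v570 && (
  let v571 := cst ⟨412316860416, 0, 0, 0⟩; ok v571 && (
  let v572 := sub x1 v571; ok v572 && (
  let v573 := mul v572 v572; ok v573 && (
  let v574 := mul v573 v572; ok v574 && (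
  let v575 := mul v570 v572; ok v575 && (
  let v576 := mul v4 v4; ok v576 && (
  let v577 := mul v576 v576; ok v577 && (
  let v578 := scale ⟨48378511622144, 0, 0, 0⟩ v1; ok v578 && (
  let v579 := neg v578; ok v579 && (
  let v580 := exp v579; ok v580 && (
  let v581 := scale ⟨0, 5930959503360, 0, 0⟩ v572; ok v581 && (
  let v582 := scale ⟨2829113622528, 0, 0, 0⟩ v573; ok v582 && (
  let v583 := add v581 v582; ok v583 && (
  let v584 := scale ⟨0, 36013289111552, 0, 0⟩ v574; ok v584 && (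
  let v585 := add v583 v584; ok v585 && (
  let v586 := scale ⟨0, 300617280585728, 0, 0⟩ v570; ok v586 && (
  let v587 := add v585 v586; ok v587 && (
  let v588 := scale ⟨762161649287168, 0, 0, 0⟩ v575; ok v588 && (
  let v589 := add v587 v588; ok v589 && (
  let v590 := cst ⟨5432918540288, 0, 0, 0⟩; ok v590 && (
  let v591 := add v589 v590; ok v591 && (
  let v592 := mul x0 v18; ok v592 && (
  let v593 := mul v592 v591; ok v593 && (
  let v594 := add v593 v0; ok v594 && (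
  let v595 := mul v580 v594; ok v595 && (
  let v596 := scale ⟨1099511627776, 0, 0, 0⟩ v577; ok v596 && (
  let v597 := add v596 v0; ok v597 && (
  let v598 := mul v577 v597; ok v598 && (
  let v599 := add v598 v0; ok v599 && (
  let v600 := mul v577 v599; ok v600 && (
  let v601 := add v600 v0; ok v601 && (
  let v602 := mul v577 v601; ok v602 && (
  let v603 := add v602 v0; ok v603 && (
  let v604 := mul v577 v603; ok v604 && (
  let v605 := add v604 v0; ok v605 && (
  let v606 := mul v577 v605; ok v606 && (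
  let v607 := add v606 v0; ok v607 && (
  let v608 := mul v577 v607; ok v608 && (
  let v609 := add v608 v0; ok v609 && (
  let v610 := mul v577 v609; ok v610 && (
  let v611 := add v610 v0; ok v611 && (
  let v612 := mul v577 v611; ok v612 && (
  let v613 := add v612 v0; ok v613 && (
  let v614 := mul v577 v613; ok v614 && (
  let v615 := add v614 v0; ok v615 && (
  let v616 := mul v576 v615; ok v616 && (
  let v617 := scale ⟨2199023255552, 0, 0, 0⟩ v616; ok v617 && (
  let v618 := mul v591 v580; ok v618 && (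
  let v619 := sub v617 v618; ok v619 && (
  isPos 2 v619 && (
  let v620 := scale ⟨0, 366771044352, 0, 0⟩ v572; ok v620 && (
  let v621 := scale ⟨628303724544, 0, 0, 0⟩ v573; ok v621 && (
  let v622 := add v620 v621; ok v622 && (
  let v623 := scale ⟨681705865216, 0, 0, 0⟩ v574; ok v623 && (
  let v624 := add v622 v623; ok v624 && (
  let v625 := scale ⟨0, 22475707383808, 0, 0⟩ v570; ok v625 && (
  let v626 := add v624 v625; ok v626 && (
  let v627 := scale ⟨57611597709312, 0, 0, 0⟩ v575; ok v627 && (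
  let v628 := add v626 v627; ok v628 && (
  let v629 := cst ⟨241170251776, 0, 0, 0⟩; ok v629 && (
  let v630 := add v628 v629; ok v630 && (
  isPos 2 v630 && (
  let v631 := cst ⟨18256832233472, 0, 0, 0⟩; ok v631 && (
  let v632 := add v19 v631; ok v632 && (
  isPos 2 v632 && (
  let v633 := cst ⟨6408896512, 0, 0, 0⟩; ok v633 && (
  let v634 := sub x0 v633; ok v634 && (
  let v635 := cst ⟨412316860416, 0, 0, 0⟩; ok v635 && (
  let v636 := sub x1 v635; ok v636 && (
  let v637 := mul v636 v636; ok v637 && (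
  let v638 := mul v637 v636; ok v638 && (
  let v639 := mul v634 v636; ok v639 && (
  let v640 := mul v4 v4; ok v640 && (
  let v641 := mul v640 v640; ok v641 && (
  let v642 := scale ⟨52776558133248, 0, 0, 0⟩ v1; ok v642 && (
  let v643 := neg v642; ok v643 && (
  let v644 := exp v643; ok v644 && (
  let v645 := scale ⟨0, 6297730547712, 0, 0⟩ v636; ok v645 && (
  let v646 := scale ⟨3457417347072, 0, 0, 0⟩ v637; ok v646 && (
  let v647 := add v645 v646; ok v647 && (
  let v648 := scale ⟨0, 35331583246336, 0, 0⟩ v638; ok v648 && (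
  let v649 := add v647 v648; ok v649 && (
  let v650 := scale ⟨0, 323092987969536, 0, 0⟩ v634; ok v650 && (
  let v651 := add v649 v650; ok v651 && (
  let v652 := scale ⟨819773246996480, 0, 0, 0⟩ v639; ok v652 && (
  let v653 := add v651 v652; ok v653 && (
  let v654 := cst ⟨5674088792064, 0, 0, 0⟩; ok v654 && (
  let v655 := add v653 v654; ok v655 && (
  let v656 := mul x0 v18; ok v656 && (
  let v657 := mul v656 v655; ok v657 && (
  let v658 := add v657 v0; ok v658 && (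
  let v659 := mul v644 v658; ok v659 && (
  let v660 := scale ⟨1099511627776, 0, 0, 0⟩ v641; ok v660 && (
  let v661 := add v660 v0; ok v661 && (
  let v662 := mul v641 v661; ok v662 && (
  let v663 := add v662 v0; ok v663 && (
  let v664 := mul v641 v663; ok v664 && (
  let v665 := add v664 v0; ok v665 && (
  let v666 := mul v641 v665; ok v666 && (
  let v667 := add v666 v0; ok v667 && (
  let v668 := mul v641 v667; ok v668 && (
  let v669 := add v668 v0; ok v669 && (
  let v670 := mul v641 v669; ok v670 && (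
  let v671 := add v670 v0; ok v671 && (
  let v672 := mul v641 v671; ok v672 && (
  let v673 := add v672 v0; ok v673 && (
  let v674 := mul v641 v673; ok v674 && (
  let v675 := add v674 v0; ok v675 && (
  let v676 := mul v641 v675; ok v676 && (
  let v677 := add v676 v0; ok v677 && (
  let v678 := mul v641 v677; ok v678 && (
  let v679 := add v678 v0; ok v679 && (
  let v680 := mul v641 v679; ok v680 && (
  let v681 := add v680 v0; ok v681 && (
  let v682 := mul v640 v681; ok v682 && (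
  let v683 := scale ⟨2199023255552, 0, 0, 0⟩ v682; ok v683 && (
  let v684 := mul v655 v644; ok v684 && (
  let v685 := sub v683 v684; ok v685 && (
  isPos 2 v685 && (
  let v686 := scale ⟨0, 325130190848, 0, 0⟩ v636; ok v686 && (
  let v687 := scale ⟨660249968640, 0, 0, 0⟩ v637; ok v687 && (
  let v688 := add v686 v687; ok v688 && (
  let v689 := scale ⟨1591076454400, 0, 0, 0⟩ v638; ok v689 && (
  let v690 := add v688 v689; ok v690 && (
  let v691 := scale ⟨0, 20752089939968, 0, 0⟩ v634; ok v691 && (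
  let v692 := add v690 v691; ok v692 && (
  let v693 := scale ⟨34235723087872, 0, 0, 0⟩ v639; ok v693 && (
  let v694 := add v692 v693; ok v694 && (
  let v695 := cst ⟨226258649088, 0, 0, 0⟩; ok v695 && (
  let v696 := add v694 v695; ok v696 && (
  isPos 2 v696 && (
  let v697 := cst ⟨19298361802752, 0, 0, 0⟩; ok v697 && (
  let v698 := add v19 v697; ok v698 && (
  isPos 2 v698 && (
  let v699 := cst ⟨6408896512, 0, 0, 0⟩; ok v699 && (
  let v700 := sub x0 v699; ok v700 && (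
  let v701 := cst ⟨412316860416, 0, 0, 0⟩; ok v701 && (
  let v702 := sub x1 v701; ok v702 && (
  let v703 := mul v702 v702; ok v703 && (
  let v704 := mul v703 v702; ok v704 && (
  let v705 := mul v700 v702; ok v705 && (
  let v706 := mul v4 v4; ok v706 && (
  let v707 := mul v706 v706; ok v707 && (
  let v708 := scale ⟨57174604644352, 0, 0, 0⟩ v1; ok v708 && (
  let v709 := neg v708; ok v709 && (
  let v710 := exp v709; ok v710 && (
  let v711 := scale ⟨0, 6622860738560, 0, 0⟩ v702; ok v711 && (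
  let v712 := scale ⟨4117667315712, 0, 0, 0⟩ v703; ok v712 && (
  let v713 := add v711 v712; ok v713 && (
  let v714 := scale ⟨0, 33740506791936, 0, 0⟩ v704; ok v714 && (
  let v715 := add v713 v714; ok v715 && (
  let v716 := scale ⟨0, 343845077909504, 0, 0⟩ v700; ok v716 && (
  let v717 := add v715 v716; ok v717 && (
  let v718 := scale ⟨854008970084352, 0, 0, 0⟩ v705; ok v718 && (
  let v719 := add v717 v718; ok v719 && (
  let v720 := cst ⟨5900347441152, 0, 0, 0⟩; ok v720 && (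
  let v721 := add v719 v720; ok v721 && (
  let v722 := mul x0 v18; ok v722 && (
  let v723 := mul v722 v721; ok v723 && (
  let v724 := add v723 v0; ok v724 && (
  let v725 := mul v710 v724; ok v725 && (
  let v726 := scale ⟨1099511627776, 0, 0, 0⟩ v707; ok v726 && (
  let v727 := add v726 v0; ok v727 && (
  let v728 := mul v707 v727; ok v728 && (
  let v729 := add v728 v0; ok v729 && (
  let v730 := mul v707 v729; ok v730 && (
  let v731 := add v730 v0; ok v731 && (
  let v732 := mul v707 v731; ok v732 && (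
  let v733 := add v732 v0; ok v733 && (
  let v734 := mul v707 v733; ok v734 && (
  let v735 := add v734 v0; ok v735 && (
  let v736 := mul v707 v735; ok v736 && (
  let v737 := add v736 v0; ok v737 && (
  let v738 := mul v707 v737; ok v738 && (
  let v739 := add v738 v0; ok v739 && (
  let v740 := mul v707 v739; ok v740 && (
  let v741 := add v740 v0; ok v741 && (
  let v742 := mul v707 v741; ok v742 && (
  let v743 := add v742 v0; ok v743 && (
  let v744 := mul v707 v743; ok v744 && (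
  let v745 := add v744 v0; ok v745 && (
  let v746 := mul v707 v745; ok v746 && (
  let v747 := add v746 v0; ok v747 && (
  let v748 := mul v707 v747; ok v748 && (
  let v749 := add v748 v0; ok v749 && (
  let v750 := mul v706 v749; ok v750 && (
  let v751 := scale ⟨2199023255552, 0, 0, 0⟩ v750; ok v751 && (
  let v752 := mul v721 v710; ok v752 && (
  let v753 := sub v751 v752; ok v753 && (
  isPos 2 v753 && (
  let v754 := scale ⟨0, 254271488000, 0, 0⟩ v702; ok v754 && (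
  let v755 := scale ⟨693449261056, 0, 0, 0⟩ v703; ok v755 && (
  let v756 := add v754 v755; ok v756 && (
  let v757 := scale ⟨555209523200, 0, 0, 0⟩ v704; ok v757 && (
  let v758 := add v756 v757; ok v758 && (
  let v759 := scale ⟨0, 22274921529344, 0, 0⟩ v700; ok v759 && (
  let v760 := add v758 v759; ok v760 && (
  let v761 := scale ⟨0, 5784263720960, 0, 0⟩ v705; ok v761 && (
  let v762 := add v760 v761; ok v762 && (
  let v763 := cst ⟨214340599808, 0, 0, 0⟩; ok v763 && (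
  let v764 := add v762 v763; ok v764 && (
  isPos 2 v764 && (
  let v765 := cst ⟨20362439950336, 0, 0, 0⟩; ok v765 && (
  let v766 := add v19 v765; ok v766 && (
  isPos 2 v766 && (
  let v767 := cst ⟨6408896512, 0, 0, 0⟩; ok v767 && (
  let v768 := sub x0 v767; ok v768 && (
  let v769 := cst ⟨412316860416, 0, 0, 0⟩; ok v769 && (
  let v770 := sub x1 v769; ok v770 && (
  let v771 := mul v770 v770; ok v771 && (
  let v772 := mul v771 v770; ok v772 && (
  let v773 := mul v768 v770; ok v773 && (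
  let v774 := mul v4 v4; ok v774 && (
  let v775 := mul v774 v774; ok v775 && (
  let v776 := scale ⟨61572651155456, 0, 0, 0⟩ v1; ok v776 && (
  let v777 := neg v776; ok v777 && (
  let v778 := exp v777; ok v778 && (
  let v779 := scale ⟨0, 6877132226560, 0, 0⟩ v770; ok v779 && (
  let v780 := scale ⟨4811116576768, 0, 0, 0⟩ v771; ok v780 && (
  let v781 := add v779 v780; ok v781 && (
  let v782 := scale ⟨0, 33185297268736, 0, 0⟩ v772; ok v782 && (
  let v783 := add v781 v782; ok v783 && (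
  let v784 := scale ⟨0, 366119999438848, 0, 0⟩ v768; ok v784 && (
  let v785 := add v783 v784; ok v785 && (
  let v786 := scale ⟨848224706363392, 0, 0, 0⟩ v773; ok v786 && (
  let v787 := add v785 v786; ok v787 && (
  let v788 := cst ⟨6114688040960, 0, 0, 0⟩; ok v788 && (
  let v789 := add v787 v788; ok v789 && (
  let v790 := mul x0 v18; ok v790 && (
  let v791 := mul v790 v789; ok v791 && (
  let v792 := add v791 v0; ok v792 && (
  let v793 := mul v778 v792; ok v793 && (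
  let v794 := scale ⟨1099511627776, 0, 0, 0⟩ v775; ok v794 && (
  let v795 := add v794 v0; ok v795 && (
  let v796 := mul v775 v795; ok v796 && (
  let v797 := add v796 v0; ok v797 && (
  let v798 := mul v775 v797; ok v798 && (
  let v799 := add v798 v0; ok v799 && (
  let v800 := mul v775 v799; ok v800 && (
  let v801 := add v800 v0; ok v801 && (
  let v802 := mul v775 v801; ok v802 && (
  let v803 := add v802 v0; ok v803 && (
  let v804 := mul v775 v803; ok v804 && (
  let v805 := add v804 v0; ok v805 && (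
  let v806 := mul v775 v805; ok v806 && (
  let v807 := add v806 v0; ok v807 && (
  let v808 := mul v775 v807; ok v808 && (
  let v809 := add v808 v0; ok v809 && (
  let v810 := mul v775 v809; ok v810 && (
  let v811 := add v810 v0; ok v811 && (
  let v812 := mul v775 v811; ok v812 && (
  let v813 := add v812 v0; ok v813 && (
  let v814 := mul v775 v813; ok v814 && (
  let v815 := add v814 v0; ok v815 && (
  let v816 := mul v775 v815; ok v816 && (
  let v817 := add v816 v0; ok v817 && (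
  let v818 := mul v775 v817; ok v818 && (
  let v819 := add v818 v0; ok v819 && (
  let v820 := mul v774 v819; ok v820 && (
  let v821 := scale ⟨2199023255552, 0, 0, 0⟩ v820; ok v821 && (
  let v822 := mul v789 v778; ok v822 && (
  let v823 := sub v821 v822; ok v823 && (
  isPos 2 v823 && (
  let v824 := mul x0 v18; ok v824 && (
  let v825 := mul v824 v789; ok v825 && (
  let v826 := add v825 v0; ok v826 && (
  let v827 := scale ⟨24189255811072, 0, 0, 0⟩ v1; ok v827 && (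
  let v828 := neg v827; ok v828 && (
  let v829 := exp v828; ok v829 && (
  let v830 := mul v826 v829; ok v830 && (
  isLt v830 1099511627520 && (
  true)))))))))))))))))))))))))))))))))))))))))))))))))))))))))))))))))))))))))))))))))))))))))))))))))))))))))))))))))))))))))))))))))))))))))))))))))))))))))))))))))))))))))))))))))))))))))))))))))))))))))))))))))))))))))))))))))))))))))))))))))))))))))))))))))))))))))))))))))))))))))))))))))))))))))))))))))))))))))))))))))))))))))))))))))))))))))))))))))))))))))))))))))))))))))))))))))))))))))))))))))))))))))))))))))))))))))))))))))))))))))))))))))))))))))))))))))))))))))))))))))))))))))))))))))))))))))))))))))))))))))))))))))))))))))))))))))))))))))))))))))))))))))))))))))))))))))))))))))))))))))))))))))))))))))))))))))))))))))))))))))))))))))))))))))))))))))))))))))))))))))))))))))))))))))))))))))))))))))))))))))))))))))))))))))))))))))))))))))))))))))))))))))))))))))))))))))))))))))))))))))))))))))))))))))))))))))))))))))))))))))))))))))))))))))))))))))))))))))))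
  | _ => false

set_option maxRecDepth 1000000 in
theorem c_S_0_eq (X : XOps) (m : List X.O.α)
    (h : c_S_0 X.O.cst X.O.add X.O.sub X.O.mul X.O.scale X.O.neg X.O.inv X.O.exp X.O.log X.O.ok
      X.O.isPos X.O.isLt X.ball X.rball m = true) :
    runX X 2 p_S_0 m = true := by
  match m, h with
  | [x0, x1], h => exact h

abbrev gS : List (List Op) := [p_S_0]

noncomputable abbrev kS : List (List xE.O.α → Bool) := [c_S_0 xE.O.cst xE.O.add xE.O.sub xE.O.mul xE.O.scale xE.O.neg xE.O.inv xE.O.exp xE.O.log xE.O.ok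
      xE.O.isPos xE.O.isLt xE.ball xE.rball]

theorem kS_eq : List.Forall₂ (fun (ops : List Op) (chk : List xE.O.α → Bool) =>
    ∀ m, chk m = true → runX xE 2 ops m = true) gS kS :=
  List.Forall₂.cons (c_S_0_eq xE) List.Forall₂.nil

theorem gS_eq : gS = [PSS tab 14] := by decide +kernel

end Pool.Agent.helper14.NS.Q150b
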